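import Pool.Agent.Lib.MP_d48993_lc.AE.Interfaces
import Pool.Agent.Lib.MP_d48993_lc.Main

/-!
# Project AE: module BOT (helper5)

A uniform family of `Π⁰₂` classes `h e` is hidden over the computable reals `(e, 0, 0, ...)`: the
class `h e` has a member outside `Up U` when the closed class `KK e 0` is nonempty, and is empty
otherwise. If `Q` were hit by all the nonempty ones, then nonemptiness of closed classes would be
`Π¹₁`.
-/

set_option autoImplicit false

namespace Pool.Agent.Lib.MP_d48993_lc.AE.Bot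

open MP_8c048d_lc (pre join RecF Sig Pih Del Clo Cop join_even join_odd join_eta pre_succ
  length_pre pre_congr pre_getElem?)
open H84 (KK KK_clo KK_rec up_del P2 up_trans up_self)

open Hide in
/-- The hiding lemma: `Θ` is hidden with respect to `U`; the last part needs only that the even
part is outside `Up U`. -/
theorem hide3 (henum : EnumStatement) (hresS : ResStatement) :
    ∀ (U : Set (ℕ → ℕ)) (Θ : (ℕ → ℕ) → Prop), ClosedC U → Sig (fun (_ : Unit) Y => Θ Y) →
      ∃ D : ℕ × ℕ → (ℕ → ℕ) → Bool, RecF D ∧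
        (∀ Y, Θ Y → Y ∉ Up U → ∃ Z, (∀ n, ∃ m, D (n, m) (join Y Z) = true) ∧
          join Y Z ∉ Up U) ∧
        ∀ F, (∀ n, ∃ m, D (n, m) F = true) → ev F ∉ Up U → Θ (ev F) := by
  classical
  intro U Θ hU hΘ
  obtain ⟨Φ, hΦ⟩ := henum
  obtain ⟨res, hres, hext, hlim⟩ := hresS Φ U hΦ hU
  obtain ⟨d, hd, hdΘ⟩ := hΘ
  obtain ⟨q, hq, hq1, hq2⟩ := hd.mono
  obtain ⟨dd, hdd, hdd1⟩ := cop_dd hq
  have hdd2 : ∀ τ F, DD q (ev F) τ ↔ dd τ F = true := hdd1
  -- the `Π⁰₂` class
  let D₂ : ℕ × ℕ → (ℕ → ℕ) → Bool := fun p F =>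
    decide (p.1.unpair.2 ≤ p.2) && (parse res dd (p.2, p.1.unpair.1) F).2.2
  have hD₂ : RecF D₂ := by
    have cu1 : Computable (fun m : ℕ => m.unpair.1) := (Primrec.fst.comp Primrec.unpair).to_comp
    have cu2 : Computable (fun m : ℕ => m.unpair.2) := (Primrec.snd.comp Primrec.unpair).to_comp
    have e1 : RecF (fun (p : ℕ × ℕ) (_ : ℕ → ℕ) => decide (p.1.unpair.2 ≤ p.2)) := by
      refine RecF.of_computable (f := fun p : ℕ × ℕ => decide (p.1.unpair.2 ≤ p.2)) ?_
      have h : Computable (fun x : ℕ × ℕ => decide (x.1 ≤ x.2)) := Primrec.nat_le.decide.to_comp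
      have h' := h.comp (Computable.pair (cu2.comp Computable.fst) Computable.snd)
      exact h'
    have e2 : RecF (fun (p : ℕ × ℕ) F => (parse res dd (p.2, p.1.unpair.1) F).2.2) :=
      RecF.comp (Computable.snd.comp Computable.snd) ((recF_parse hres hdd).comp₁
        (f := fun p : ℕ × ℕ => (p.2, p.1.unpair.1))
        (Computable.pair Computable.snd (cu1.comp Computable.fst)))
    exact RecF.comp (g := fun x : Bool × Bool => x.1 && x.2)
      ((Primrec.and.to_comp).comp Computable.fst Computable.snd) (e1.pair e2)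
  have hmem : ∀ F : ℕ → ℕ, (∀ n, ∃ m, D₂ (n, m) F = true) ↔
      ∀ n m, ∃ t ≥ m, (parse res dd (t, n) F).2.2 = true := by
    intro F
    constructor
    · intro h n m
      obtain ⟨t, ht⟩ := h (Nat.pair n m)
      have h1 : (decide ((Nat.pair n m).unpair.2 ≤ t) &&
        (parse res dd (t, (Nat.pair n m).unpair.1) F).2.2) = true := ht
      rw [Nat.unpair_pair, Bool.and_eq_true, decide_eq_true_eq] at h1
      exact ⟨t, h1.1, h1.2⟩
    · intro h n
      obtain ⟨t, ht1, ht2⟩ := h n.unpair.1 n.unpair.2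
      refine ⟨t, ?_⟩
      show (decide (n.unpair.2 ≤ t) && (parse res dd (t, n.unpair.1) F).2.2) = true
      rw [ht2, Bool.and_true, decide_eq_true_eq]
      exact ht1
  refine ⟨D₂, hD₂, ?_, ?_⟩
  · -- a member outside
    intro Y₀ hY₀ hY₀U
    obtain ⟨f, hf⟩ := (hdΘ () Y₀).1 hY₀
    have hDD := (dd_spec hq1 hq2 Y₀ f).1 hf
    obtain ⟨r, hr1, hr2⟩ := hlim Y₀ hY₀U
    let S : ℕ → List ℕ := fun n => Nat.rec (motive := fun _ => List ℕ) [] (fun k s => r k s ++ [f k]) n
    have hS : ∀ n, S (n + 1) = r n (S n) ++ [f n] := fun n => rfl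
    have hre : ∀ n σ, σ <+: r n σ := by
      intro n σ
      obtain ⟨t, ht⟩ := hr1 n σ
      rw [← ht t le_rfl]
      exact hext t n σ Y₀
    have hS1 : ∀ n, S n <+: S (n + 1) := by
      intro n
      rw [hS]
      exact (hre n (S n)).trans (List.prefix_append _ _)
    have hS2 : ∀ n, n ≤ (S n).length := by
      intro n
      induction n with
      | zero => exact Nat.zero_le _
      | succ n ih =>
        rw [hS, List.length_append, List.length_singleton]
        have := (hre n (S n)).length_le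
        omega
    obtain ⟨Z, hZ⟩ := exists_union hS1 hS2
    have hZr : ∀ n, r n (S n) = pre Z (r n (S n)).length ∧ Z (r n (S n)).length = f n := by
      intro n
      have h1 := hZ (n + 1)
      rw [hS, List.length_append, List.length_singleton, pre_succ] at h1
      have h2 := List.append_inj' h1 rfl
      exact ⟨h2.1.symm, by simpa using h2.2⟩
    have hF : ∀ n, ∃ m, D₂ (n, m) (join Y₀ Z) = true := by
      refine (hmem (join Y₀ Z)).2 fun n m => ?_
      have key : ∀ n, ∃ t₀, ∀ t ≥ t₀,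
          parse res dd (t, n) (join Y₀ Z) = (S n, pre f n, true) := by
        intro n
        induction n with
        | zero =>
          refine ⟨0, fun t _ => ?_⟩
          rw [parse_zero]
          have h1 : dd [] (join Y₀ Z) = true := by
            rw [← hdd2, ev_join]
            exact hDD 0
          rw [h1]
          rfl
        | succ n ih =>
          obtain ⟨t₀, h0⟩ := ih
          obtain ⟨t₁, h1⟩ := hr1 n (S n)
          refine ⟨max t₀ t₁, fun t ht => ?_⟩
          rw [parse_succ, h0 t (le_trans (le_max_left _ _) ht)]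
          unfold step
          simp only [ev_join, od_join]
          rw [h1 t (le_trans (le_max_right _ _) ht), join_odd, (hZr n).2, ← (hZr n).1, ← hS,
            ← pre_succ]
          have h2 : dd (pre f (n + 1)) (join Y₀ Z) = true := by
            rw [← hdd2, ev_join]
            exact hDD (n + 1)
          rw [h2]
          simp
      obtain ⟨t₀, h0⟩ := key n
      exact ⟨max t₀ m, le_max_right _ _, by rw [h0 _ (le_max_left _ _)]⟩
    have hFU : join Y₀ Z ∉ Up U := by
      rintro ⟨g, hg, hgF⟩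
      obtain ⟨i, hi⟩ := (hΦ.spec g (join Y₀ Z)).1 hgF
      exact hr2 i (S i) Z ⟨_, (hZr i).1⟩ g hg hi
    exact ⟨Z, hF, hFU⟩
  · -- the members outside compute a member of `Θ`
    intro F hF hYU
    have hF' := (hmem F).1 hF
    obtain ⟨r, hr1, -⟩ := hlim (ev F) hYU
    let L : ℕ → List ℕ × List ℕ := fun n => Nat.rec (motive := fun _ => List ℕ × List ℕ) ([], [])
      (fun k s => (r k s.1 ++ [F (2 * (r k s.1).length + 1)],
        s.2 ++ [F (2 * (r k s.1).length + 1)])) n
    have hL : ∀ n, L (n + 1) = (r n (L n).1 ++ [F (2 * (r n (L n).1).length + 1)],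
        (L n).2 ++ [F (2 * (r n (L n).1).length + 1)]) := fun n => rfl
    have key : ∀ n, ∃ t₀, ∃ b : Bool, (b = true → dd (L n).2 F = true) ∧
        ∀ t ≥ t₀, parse res dd (t, n) F = ((L n).1, (L n).2, b) := by
      intro n
      induction n with
      | zero => exact ⟨0, dd [] F, fun h => h, fun t _ => parse_zero _ _ _ _⟩
      | succ n ih =>
        obtain ⟨t₀, b, -, h0⟩ := ih
        obtain ⟨t₁, h1⟩ := hr1 n (L n).1
        refine ⟨max t₀ t₁, (b && decide (r n (L n).1 = pre (od F) (r n (L n).1).length)) &&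
          dd (L (n + 1)).2 F, fun h => ?_, fun t ht => ?_⟩
        · rw [Bool.and_eq_true] at h
          exact h.2
        · rw [parse_succ, h0 t (le_trans (le_max_left _ _) ht)]
          unfold step
          simp only
          rw [h1 t (le_trans (le_max_right _ _) ht), hL]
    have hdL : ∀ n, dd (L n).2 F = true := by
      intro n
      obtain ⟨t₀, b, hb, h0⟩ := key n
      obtain ⟨t, ht, h1⟩ := hF' n t₀
      rw [h0 t ht] at h1
      exact hb h1
    have hLf : ∀ n, (L n).2 = pre (fun k => F (2 * (r k (L k).1).length + 1)) n := by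
      intro n
      induction n with
      | zero => rfl
      | succ n ih => rw [hL, pre_succ, ← ih]
    refine (hdΘ () (ev F)).2 ⟨fun k => F (2 * (r k (L k).1).length + 1), ?_⟩
    rw [dd_spec hq1 hq2]
    intro n
    rw [← hLf, hdd2]
    exact hdL n

/-- the real `(e, 0, 0, ...)` -/
def yy (e : ℕ) : ℕ → ℕ := fun n => if n = 0 then e else 0

theorem yy_zero (e : ℕ) : yy e 0 = e := rfl

theorem yy_comp : Computable (fun p : ℕ × ℕ => yy p.1 p.2) := by
  have h0 : PrimrecPred (fun p : ℕ × ℕ => p.2 = 0) :=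
    PrimrecRel.comp Primrec.eq Primrec.snd (Primrec.const 0)
  exact (Primrec.ite h0 Primrec.fst (Primrec.const 0)).to_comp

theorem yy_red (hred : Red1Statement) (e : ℕ) : Red (yy e) (fun _ => 0) :=
  hred (fun n _ => yy e n) (RecF.of_computable
    (yy_comp.comp ((Computable.const e).pair Computable.id))) _

/-- the matrix of the slices -/
def mx (D : ℕ × ℕ → (ℕ → ℕ) → Bool) (x : ℕ × (ℕ × ℕ)) (F : ℕ → ℕ) : Bool :=
  D x.2 F && decide (F (2 * x.2.1) = yy x.1 x.2.1)

theorem mx_recF {D : ℕ × ℕ → (ℕ → ℕ) → Bool} (hD : RecF D) : RecF (mx D) := by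
  have hand : Computable (fun x : Bool × Bool => x.1 && x.2) :=
    (Primrec.and.to_comp).comp Computable.fst Computable.snd
  have heq : Computable (fun x : ℕ × ℕ => decide (x.1 = x.2)) :=
    (Primrec.eq (α := ℕ)).decide.to_comp
  have e1 : RecF (fun (x : ℕ × (ℕ × ℕ)) F => D x.2 F) := hD.comp₁ Computable.snd
  have e2 : RecF (fun (x : ℕ × (ℕ × ℕ)) F => decide (F (2 * x.2.1) = yy x.1 x.2.1)) := by
    refine RecF.comp (g := fun x : ℕ × ℕ => decide (x.1 = x.2)) heq
      ((RecF.at (f := fun x : ℕ × (ℕ × ℕ) => 2 * x.2.1) ?_).pair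
        (RecF.of_computable (f := fun x : ℕ × (ℕ × ℕ) => yy x.1 x.2.1) ?_))
    · exact Hide.c_dbl (Computable.fst.comp Computable.snd)
    · exact yy_comp.comp (Computable.fst.pair (Computable.fst.comp Computable.snd))
  exact RecF.comp (g := fun x : Bool × Bool => x.1 && x.2) hand (e1.pair e2)

theorem mx_mem (D : ℕ × ℕ → (ℕ → ℕ) → Bool) (e : ℕ) (F : ℕ → ℕ) : F ∈ P2 (mx D) e ↔
    (∀ n, ∃ m, D (n, m) F = true) ∧ Hide.ev F = yy e := by
  constructor
  · intro h
    have h' : ∀ n, ∃ m, D (n, m) F = true ∧ F (2 * n) = yy e n := by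
      intro n
      obtain ⟨m, hm⟩ := h n
      have hm' : (D (n, m) F && decide (F (2 * n) = yy e n)) = true := hm
      simp only [Bool.and_eq_true, decide_eq_true_eq] at hm'
      exact ⟨m, hm'⟩
    refine ⟨fun n => ?_, ?_⟩
    · obtain ⟨m, hm, -⟩ := h' n
      exact ⟨m, hm⟩
    · funext n
      obtain ⟨m, -, hm⟩ := h' n
      exact hm
  · rintro ⟨h, h0⟩ n
    obtain ⟨m, hm⟩ := h n
    refine ⟨m, ?_⟩
    show (D (n, m) F && decide (F (2 * n) = yy e n)) = true
    have h1 : F (2 * n) = yy e n := congrFun h0 n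
    simp [hm, h1]

/-- a `Σ¹₁` set of numbers is, by the recursion theorem, wrong about some closed class -/
theorem sig_diag {R : ℕ → Prop} (h : Sig (fun (e : ℕ) (_ : ℕ → ℕ) => R e)) :
    ∃ e, (∃ G, G ∈ KK e 0) ↔ R e := by
  obtain ⟨d, hd, hR⟩ := h
  have e1 : RecF (fun (p : (ℕ × ℕ) × ℕ) (f : ℕ → ℕ) => d (p.1.1, p.2) (join (fun _ => 0) f)) := by
    refine hd.subst (ψ := fun (p : (ℕ × ℕ) × ℕ) _ => (p.1.1, p.2)) (RecF.of_computable
      ((Computable.fst.comp Computable.fst).pair Computable.snd))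
      (Ψ := fun (_ : (ℕ × ℕ) × ℕ) f => join (fun _ => 0) f) ?_
    exact RecF.joinF (α := (ℕ × ℕ) × ℕ) (Ψ := fun _ _ _ => 0) (Φ := fun _ f => f)
      (RecF.of_computable (Computable.const 0)) (RecF.at Computable.snd)
  have e2 : Clo (fun (p : ℕ × ℕ) f => ∀ m, d (p.1, m) (join (fun _ => 0) f) = true) :=
    ⟨_, e1, fun a F => Iff.rfl⟩
  obtain ⟨e, he⟩ := KK_rec e2
  refine ⟨e, ?_⟩
  have h1 : R e ↔ ∃ G, ∀ m, d (e, m) (join (fun _ => 0) G) = true := hR e (fun _ => 0)
  rw [h1]
  exact exists_congr fun G => he 0 G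

theorem bot_of (henum : EnumStatement) (hresS : ResStatement) (hred : Red1Statement)
    (hpi2 : Pi2Statement) : BotStatement := by
  classical
  intro U Q hU h0 hQ hex
  obtain ⟨F₀, hF₀⟩ := hex
  let Θ : (ℕ → ℕ) → Prop := fun Y => ∃ F, F ∈ KK (Y 0) 0
  have hΘ : Sig (fun (_ : Unit) Y => Θ Y) := by
    have e2 : Sig (fun (_ : Unit) E => Hide.od E ∈ KK (Hide.ev E 0) 0) := by
      refine (Clo.del KK_clo).1.subst (P := fun (p : ℕ × ℕ) F => F ∈ KK p.1 p.2)
        (ψ := fun (_ : Unit) E => (Hide.ev E 0, 0)) ?_ (Ψ := fun (_ : Unit) E => Hide.od E)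
        Hide.recF_od
      exact (RecF.at (f := fun _ : Unit => 0) (Computable.const 0)).pair
        (RecF.of_computable (Computable.const 0))
    have e3 := Sig.exF (P := fun (_ : Unit) E => Hide.od E ∈ KK (Hide.ev E 0) 0) e2
    refine e3.congr fun a F => ?_
    simp only [Hide.od_join, Hide.ev_join]
    exact Iff.rfl
  obtain ⟨D, hD, hD1, hD2⟩ := hide3 henum hresS U Θ hU hΘ
  have hyU : ∀ e, yy e ∉ Up U := fun e h => h0 (up_trans h (yy_red hred e))
  -- members of the slices
  have hs1 : ∀ e, (∃ G, G ∈ KK e 0) → ∃ W ∈ P2 (mx D) e, W ∉ Up U := by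
    intro e he
    obtain ⟨Z, hZ1, hZ2⟩ := hD1 (yy e) he (hyU e)
    exact ⟨join (yy e) Z, (mx_mem D e _).2 ⟨hZ1, Hide.ev_join _ _⟩, hZ2⟩
  have hs2 : ∀ e F, F ∈ P2 (mx D) e → ∃ G, G ∈ KK e 0 := by
    intro e F hF
    obtain ⟨h1, h2⟩ := (mx_mem D e F).1 hF
    have h3 : ∃ G, G ∈ KK (Hide.ev F 0) 0 := hD2 F h1 (by rw [h2]; exact hyU e)
    rwa [h2] at h3
  -- some `Σ¹₁` relation
  let R : ℕ → Prop := fun e => ∃ F, Q F ∧ ∀ k : ℕ, (fun i => F (Nat.pair k i)) ∉ Up (P2 (mx D) e)
  have hR : Sig (fun (e : ℕ) (_ : ℕ → ℕ) => R e) := by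
    have e1 : Sig (fun (_ : ℕ) E => Q (Hide.od E)) :=
      hQ.subst (P := fun (_ : Unit) F => Q F) (ψ := fun (_ : ℕ) _ => ())
        (RecF.of_computable (Computable.const ())) (Ψ := fun (_ : ℕ) E => Hide.od E) Hide.recF_od
    have e2 : Del (fun (a : ℕ) W => W ∈ Up (P2 (mx D) a)) := up_del henum (mx_recF hD)
    have e3 : Del (fun (p : ℕ × ℕ) E => (fun i => Hide.od E (Nat.pair p.2 i)) ∈
        Up (P2 (mx D) p.1)) := by
      refine e2.subst (P := fun (a : ℕ) W => W ∈ Up (P2 (mx D) a))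
        (ψ := fun (p : ℕ × ℕ) _ => p.1) (RecF.of_computable Computable.fst)
        (Ψ := fun (p : ℕ × ℕ) E => fun i => Hide.od E (Nat.pair p.2 i)) ?_
      refine RecF.at (f := fun q : (ℕ × ℕ) × ℕ => 2 * Nat.pair q.1.2 q.2 + 1) ?_
      exact Hide.c_dbl1 (Primrec₂.natPair.to_comp.comp (Computable.snd.comp Computable.fst)
        Computable.snd)
    have e4 : Del (fun (e : ℕ) E => ∀ k : ℕ, (fun i => Hide.od E (Nat.pair k i)) ∉
        Up (P2 (mx D) e)) :=
      Del.all (P := fun (e k : ℕ) E => (fun i => Hide.od E (Nat.pair k i)) ∉ Up (P2 (mx D) e))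
        e3.not
    refine (Sig.exF (e1.and e4.1)).congr fun e F => ?_
    simp only [Hide.od_join]
    exact Iff.rfl
  obtain ⟨e, he⟩ := sig_diag hR
  -- the index works: otherwise `KK e 0` is empty, and so is the slice
  have hKe : ∃ G, G ∈ KK e 0 := by
    by_contra hcon
    apply hcon
    refine he.2 ⟨F₀, hF₀, fun k hk => ?_⟩
    obtain ⟨f, hf, -⟩ := hk
    exact hcon (hs2 e f hf)
  obtain ⟨F, hF1, hF2⟩ := he.1 hKe
  obtain ⟨W, hW1, hW2⟩ := hs1 e hKe
  obtain ⟨S, hS, hSU⟩ := hpi2 (fun p F => mx D (e, p) F)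
    ((mx_recF hD).comp₁ ((Computable.const e).pair Computable.id))
  have hSU' : Up S = Up (P2 (mx D) e) := hSU
  refine ⟨S, hS, ?_, F, hF1, fun k => ?_⟩
  · have h1 : W ∈ Up S := by
      rw [hSU']
      exact up_self hW1
    obtain ⟨f, hf, hfW⟩ := h1
    exact ⟨f, hf, fun h => hW2 (up_trans h hfW)⟩
  · rw [hSU']
    exact hF2 k

end Pool.Agent.Lib.MP_d48993_lc.AE.Bot

namespace Pool.Agent.Lib.MP_d48993_lc.AE

/-- Module BOT -/
theorem bot : BotStatement :=
  Bot.bot_of enum (res (search red1 redMu) cls) red1 (pi2 redMu joinS)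

end Pool.Agent.Lib.MP_d48993_lc.AE
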