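import Pool.Agent.Lib.MP_d48993_lc.AE.Interfaces

/-!
# Project AE (MP_d48993): module DEC (satisfiability of patterns is decidable, uniformly)
-/

set_option autoImplicit false

namespace Pool.Agent.Lib.MP_d48993_lc.AE.Dec

/-! ## Decidable predicates -/

/-- A decidable predicate. -/
def CP {α : Type} [Primcodable α] (p : α → Prop) : Prop :=
  ∃ f : α → Bool, Computable f ∧ ∀ a, f a = true ↔ p a

variable {α β : Type} [Primcodable α] [Primcodable β]

theorem CP.comp {p : α → Prop} (hp : CP p) {g : β → α} (hg : Computable g) :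
    CP fun b => p (g b) := by
  obtain ⟨f, hf, h⟩ := hp
  exact ⟨fun b => f (g b), hf.comp hg, fun b => h (g b)⟩

theorem CP.congr {p q : α → Prop} (hp : CP p) (h : ∀ a, p a ↔ q a) : CP q := by
  obtain ⟨f, hf, h'⟩ := hp
  exact ⟨f, hf, fun b => (h' b).trans (h b)⟩

theorem CP.and {p q : α → Prop} (hp : CP p) (hq : CP q) : CP fun a => p a ∧ q a := by
  obtain ⟨f, hf, h⟩ := hp
  obtain ⟨g, hg, h'⟩ := hq
  exact ⟨fun a => f a && g a, Primrec.and.to_comp.comp hf hg, fun a => by
    rw [Bool.and_eq_true, h, h']⟩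

theorem CP.not {p : α → Prop} (hp : CP p) : CP fun a => ¬ p a := by
  obtain ⟨f, hf, h⟩ := hp
  refine ⟨fun a => !f a, Primrec.not.to_comp.comp hf, fun a => ?_⟩
  have h1 := h a
  show (!f a) = true ↔ ¬ p a
  rw [← h1]
  cases f a <;> simp

theorem CP.or {p q : α → Prop} (hp : CP p) (hq : CP q) : CP fun a => p a ∨ q a := by
  obtain ⟨f, hf, h⟩ := hp
  obtain ⟨g, hg, h'⟩ := hq
  exact ⟨fun a => f a || g a, Primrec.or.to_comp.comp hf hg, fun a => by
    rw [Bool.or_eq_true, h, h']⟩

theorem CP.imp {p q : α → Prop} (hp : CP p) (hq : CP q) : CP fun a => p a → q a :=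
  (hp.not.or hq).congr fun _ => imp_iff_not_or.symm

theorem CP.iff {p q : α → Prop} (hp : CP p) (hq : CP q) : CP fun a => (p a ↔ q a) :=
  ((hp.imp hq).and (hq.imp hp)).congr fun _ => iff_def.symm

theorem CP.bex {p : α → ℕ → Prop} (hp : CP fun x : α × ℕ => p x.1 x.2) {b : α → ℕ}
    (hb : Computable b) : CP fun a => ∃ k < b a, p a k := by
  obtain ⟨f, hf, h⟩ := hp
  refine ⟨fun a => Nat.rec (motive := fun _ => Bool) false (fun k acc => acc || f (a, k)) (b a), ?_, ?_⟩
  · refine Computable.nat_rec (h := fun a q => q.2 || f (a, q.1)) hb (Computable.const false) ?_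
    exact Primrec.or.to_comp.comp (Computable.snd.comp Computable.snd)
      (hf.comp (Computable.pair Computable.fst (Computable.fst.comp Computable.snd)))
  · intro a
    show Nat.rec (motive := fun _ => Bool) false (fun k acc => acc || f (a, k)) (b a) = true ↔
      ∃ k < b a, p a k
    generalize b a = B
    induction B with
    | zero => simp
    | succ m ih =>
      show (Nat.rec (motive := fun _ => Bool) false (fun k acc => acc || f (a, k)) m || f (a, m)) = true ↔ _
      rw [Bool.or_eq_true, ih, h]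
      constructor
      · rintro (⟨k, hk, hp⟩ | hp)
        · exact ⟨k, by omega, hp⟩
        · exact ⟨m, by omega, hp⟩
      · rintro ⟨k, hk, hp⟩
        rcases Nat.lt_succ_iff_lt_or_eq.1 hk with hk' | hk'
        · exact Or.inl ⟨k, hk', hp⟩
        · subst hk'
          exact Or.inr hp

theorem CP.ball {p : α → ℕ → Prop} (hp : CP fun x : α × ℕ => p x.1 x.2) {b : α → ℕ}
    (hb : Computable b) : CP fun a => ∀ k < b a, p a k :=
  (CP.bex (p := fun a k => ¬ p a k) hp.not hb).not.congr fun a => by
    constructor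
    · intro h k hk
      by_contra hc
      exact h ⟨k, hk, hc⟩
    · rintro h ⟨k, hk, hc⟩
      exact hc (h k hk)

theorem CP.eqN {f g : α → ℕ} (hf : Computable f) (hg : Computable g) :
    CP fun a => f a = g a :=
  ⟨fun a => decide (f a = g a), Primrec.eq.decide.to_comp.comp hf hg, fun a => by simp⟩

/-- The list of the numbers below a bound with a decidable property. -/
theorem CP.list {p : α → ℕ → Prop} (hp : CP fun x : α × ℕ => p x.1 x.2) {b : α → ℕ}
    (hb : Computable b) : ∃ T : α → List ℕ, Computable T ∧ ∀ a t, t ∈ T a ↔ t < b a ∧ p a t := by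
  obtain ⟨f, hf, h⟩ := hp
  refine ⟨fun a => Nat.rec (motive := fun _ => List ℕ) []
    (fun k acc => bif f (a, k) then k :: acc else acc) (b a), ?_, ?_⟩
  · refine Computable.nat_rec (h := fun a q => bif f (a, q.1) then q.1 :: q.2 else q.2) hb
      (Computable.const []) ?_
    refine Computable.cond
      (hf.comp (Computable.pair Computable.fst (Computable.fst.comp Computable.snd)))
      (Computable.list_cons.comp (Computable.fst.comp Computable.snd)
        (Computable.snd.comp Computable.snd)) (Computable.snd.comp Computable.snd)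
  · intro a t
    show t ∈ Nat.rec (motive := fun _ => List ℕ) []
      (fun k acc => bif f (a, k) then k :: acc else acc) (b a) ↔ t < b a ∧ p a t
    generalize b a = B
    induction B with
    | zero => simp
    | succ m ih =>
      show t ∈ (bif f (a, m) then m :: Nat.rec (motive := fun _ => List ℕ) []
        (fun k acc => bif f (a, k) then k :: acc else acc) m else _) ↔ _
      by_cases hm : f (a, m) = true
      · have hm' := (h (a, m)).1 hm
        rw [hm, cond_true, List.mem_cons, ih]
        constructor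
        · rintro (ht | ⟨ht, hp⟩)
          · subst ht
            exact ⟨by omega, hm'⟩
          · exact ⟨by omega, hp⟩
        · rintro ⟨ht, hp⟩
          rcases Nat.lt_succ_iff_lt_or_eq.1 ht with ht' | ht'
          · exact Or.inr ⟨ht', hp⟩
          · exact Or.inl ht'
      · have hm' : ¬ p a m := fun hc => hm ((h (a, m)).2 hc)
        have hm'' : f (a, m) = false := by simpa using hm
        rw [hm'', cond_false, ih]
        constructor
        · rintro ⟨ht, hp⟩
          exact ⟨by omega, hp⟩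
        · rintro ⟨ht, hp⟩
          rcases Nat.lt_succ_iff_lt_or_eq.1 ht with ht' | ht'
          · exact ⟨ht', hp⟩
          · subst ht'
            exact absurd hp hm'

theorem pow_prim : Primrec₂ ((· ^ ·) : ℕ → ℕ → ℕ) :=
  Primrec₂.unpaired'.1 Nat.Primrec.pow

theorem CP.bit {f g : α → ℕ} (hf : Computable f) (hg : Computable g) :
    CP fun a => (f a).testBit (g a) = true := by
  have h1 : Computable fun a => f a / 2 ^ g a % 2 :=
    Primrec.nat_mod.to_comp.comp (Primrec.nat_div.to_comp.comp hf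
      (pow_prim.to_comp.comp (Computable.const 2) hg)) (Computable.const 2)
  refine (CP.eqN h1 (Computable.const 1)).congr fun a => ?_
  rw [Nat.testBit_eq_decide_div_mod_eq, decide_eq_true_eq]

/-! ## Coded patterns -/

/-- The pattern coded by the number `c`. -/
def V (len N c : ℕ) (j k a : ℕ) : Prop := c.testBit ((j * len + k) * N + a) = true

theorem exists_code (K : ℕ) (p : ℕ → Prop) : ∃ c < 2 ^ K, ∀ i < K, (c.testBit i = true ↔ p i) := by
  classical
  refine ⟨Nat.ofBits (fun i : Fin K => decide (p i)), Nat.ofBits_lt_two_pow _, fun i hi => ?_⟩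
  rw [Nat.testBit_ofBits_lt _ _ hi]
  simp

theorem idx_lt {len N M j k a : ℕ} (hj : j < M) (hk : k < len) (ha : a < N) :
    (j * len + k) * N + a < M * len * N := by
  have h1 : j * len + k + 1 ≤ M * len := by
    have : (j + 1) * len ≤ M * len := Nat.mul_le_mul_right _ hj
    nlinarith
  have h2 : (j * len + k + 1) * N ≤ M * len * N := Nat.mul_le_mul_right _ h1
  nlinarith

theorem idx_dec {len N j k a : ℕ} (hk : k < len) (ha : a < N) :
    ((j * len + k) * N + a) / N / len = j ∧ ((j * len + k) * N + a) / N % len = k ∧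
      ((j * len + k) * N + a) % N = a := by
  have hN : 0 < N := by omega
  have hl : 0 < len := by omega
  have e1 : ((j * len + k) * N + a) / N = j * len + k := by
    rw [mul_comm, Nat.mul_add_div hN, Nat.div_eq_of_lt ha, add_zero]
  have e2 : ((j * len + k) * N + a) % N = a := by
    rw [mul_comm, Nat.mul_add_mod, Nat.mod_eq_of_lt ha]
  have e3 : (j * len + k) / len = j := by
    rw [mul_comm, Nat.mul_add_div hl, Nat.div_eq_of_lt hk, add_zero]
  have e4 : (j * len + k) % len = k := by
    rw [mul_comm, Nat.mul_add_mod, Nat.mod_eq_of_lt hk]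
  rw [e1]
  exact ⟨e3, e4, e2⟩

theorem exists_codeV (len N M : ℕ) (v : ℕ → ℕ → ℕ → Prop) :
    ∃ c < 2 ^ (M * len * N), ∀ j < M, ∀ k < len, ∀ a < N, (V len N c j k a ↔ v j k a) := by
  obtain ⟨c, hc, h⟩ := exists_code (M * len * N) (fun i => v (i / N / len) (i / N % len) (i % N))
  refine ⟨c, hc, fun j hj k hk a ha => ?_⟩
  have h1 := h _ (idx_lt (len := len) hj hk ha)
  obtain ⟨e1, e2, e3⟩ := idx_dec (j := j) hk ha
  rw [e1, e2, e3] at h1
  exact h1

/-! ## The checks -/

theorem CP.v {len N c j k a : α → ℕ} (hl : Computable len) (hN : Computable N)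
    (hc : Computable c) (hj : Computable j) (hk : Computable k) (ha : Computable a) :
    CP fun x => V (len x) (N x) (c x) (j x) (k x) (a x) :=
  CP.bit hc (Primrec.nat_add.to_comp.comp (Primrec.nat_mul.to_comp.comp
    (Primrec.nat_add.to_comp.comp (Primrec.nat_mul.to_comp.comp hj hl) hk) hN) ha)

theorem CP.inR {τ : α → Typ} {k i : α → ℕ} (hτ : Computable τ) (hk : Computable k)
    (hi : Computable i) : CP fun x => (τ x).In (k x) (i x) :=
  CP.bit ((Primrec.list_getD 0).to_comp.comp (Computable.fst.comp hτ) hk) hi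

/-- The coded pattern is allowed. -/
def ChkA (τ : Typ) (M N c : ℕ) : Prop :=
  ∀ j < M, ∀ t < τ.2.length,
    (∃ a < N, V τ.1.length N c j (τ.2.getD t (0, 0)).1 a) →
      ∀ a < N, V τ.1.length N c j (τ.2.getD t (0, 0)).2 a

theorem CP.chkA {τ : α → Typ} {M N c : α → ℕ} (hτ : Computable τ) (hM : Computable M)
    (hN : Computable N) (hc : Computable c) : CP fun x => ChkA (τ x) (M x) (N x) (c x) := by
  have hl : Computable fun x => (τ x).1.length :=
    Computable.list_length.comp (Computable.fst.comp hτ)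
  have hl2 : Computable fun x => (τ x).2.length :=
    Computable.list_length.comp (Computable.snd.comp hτ)
  have hp : Computable fun y : (α × ℕ) × ℕ => (τ y.1.1).2.getD y.2 (0, 0) :=
    (Primrec.list_getD (0, 0)).to_comp.comp
      (Computable.snd.comp (hτ.comp (Computable.fst.comp Computable.fst))) Computable.snd
  have f1 : Computable fun z : ((α × ℕ) × ℕ) × ℕ => z.1.1.1 :=
    Computable.fst.comp (Computable.fst.comp Computable.fst)
  have f2 : Computable fun z : ((α × ℕ) × ℕ) × ℕ => z.1.1.2 :=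
    Computable.snd.comp (Computable.fst.comp Computable.fst)
  refine CP.ball (p := fun x j => ∀ t < (τ x).2.length,
    (∃ a < N x, V (τ x).1.length (N x) (c x) j ((τ x).2.getD t (0, 0)).1 a) →
      ∀ a < N x, V (τ x).1.length (N x) (c x) j ((τ x).2.getD t (0, 0)).2 a) ?_ hM
  refine CP.ball (p := fun (y : α × ℕ) t =>
    (∃ a < N y.1, V (τ y.1).1.length (N y.1) (c y.1) y.2 ((τ y.1).2.getD t (0, 0)).1 a) →
      ∀ a < N y.1, V (τ y.1).1.length (N y.1) (c y.1) y.2 ((τ y.1).2.getD t (0, 0)).2 a) ?_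
    (hl2.comp Computable.fst)
  refine CP.imp ?_ ?_
  · exact CP.bex (p := fun (y : (α × ℕ) × ℕ) a => V (τ y.1.1).1.length (N y.1.1) (c y.1.1) y.1.2
      ((τ y.1.1).2.getD y.2 (0, 0)).1 a)
      (CP.v (hl.comp f1) (hN.comp f1) (hc.comp f1) f2
        (Computable.fst.comp (hp.comp Computable.fst)) Computable.snd)
      (hN.comp (Computable.fst.comp Computable.fst))
  · exact CP.ball (p := fun (y : (α × ℕ) × ℕ) a => V (τ y.1.1).1.length (N y.1.1) (c y.1.1) y.1.2
      ((τ y.1.1).2.getD y.2 (0, 0)).2 a)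
      (CP.v (hl.comp f1) (hN.comp f1) (hc.comp f1) f2
        (Computable.snd.comp (hp.comp Computable.fst)) Computable.snd)
      (hN.comp (Computable.fst.comp Computable.fst))

/-- The universal variables have the right values. -/
def ChkB (τ : Typ) (n N c : ℕ) : Prop :=
  ∀ i < n, ∀ k < τ.1.length, ∀ a < N, (V τ.1.length N c i k a ↔ τ.In k i)

theorem CP.chkB {τ : α → Typ} {n N c : α → ℕ} (hτ : Computable τ) (hn : Computable n)
    (hN : Computable N) (hc : Computable c) : CP fun x => ChkB (τ x) (n x) (N x) (c x) := by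
  have hl : Computable fun x => (τ x).1.length :=
    Computable.list_length.comp (Computable.fst.comp hτ)
  have f1 : Computable fun z : ((α × ℕ) × ℕ) × ℕ => z.1.1.1 :=
    Computable.fst.comp (Computable.fst.comp Computable.fst)
  have f2 : Computable fun z : ((α × ℕ) × ℕ) × ℕ => z.1.1.2 :=
    Computable.snd.comp (Computable.fst.comp Computable.fst)
  have f3 : Computable fun z : ((α × ℕ) × ℕ) × ℕ => z.1.2 :=
    Computable.snd.comp Computable.fst
  refine CP.ball (p := fun x i => ∀ k < (τ x).1.length, ∀ a < N x,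
    (V (τ x).1.length (N x) (c x) i k a ↔ (τ x).In k i)) ?_ hn
  refine CP.ball (p := fun (y : α × ℕ) k => ∀ a < N y.1,
    (V (τ y.1).1.length (N y.1) (c y.1) y.2 k a ↔ (τ y.1).In k y.2)) ?_ (hl.comp Computable.fst)
  refine CP.ball (p := fun (y : (α × ℕ) × ℕ) a =>
    (V (τ y.1.1).1.length (N y.1.1) (c y.1.1) y.1.2 y.2 a ↔ (τ y.1.1).In y.2 y.1.2)) ?_
    (hN.comp (Computable.fst.comp Computable.fst))
  exact CP.iff (CP.v (hl.comp f1) (hN.comp f1) (hc.comp f1) f2 f3 Computable.snd)
    (CP.inR (hτ.comp f1) f3 f2)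

/-- The order of the coded pattern. -/
def Ord (len N c i j : ℕ) : Prop := ∀ k < len, ∀ a < N, V len N c j k a → V len N c i k a

theorem CP.ord {len N c i j : α → ℕ} (hl : Computable len) (hN : Computable N)
    (hc : Computable c) (hi : Computable i) (hj : Computable j) :
    CP fun x => Ord (len x) (N x) (c x) (i x) (j x) := by
  have f1 : Computable fun z : (α × ℕ) × ℕ => z.1.1 := Computable.fst.comp Computable.fst
  have f2 : Computable fun z : (α × ℕ) × ℕ => z.1.2 := Computable.snd.comp Computable.fst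
  refine CP.ball (p := fun x k => ∀ a < N x, V (len x) (N x) (c x) (j x) k a →
    V (len x) (N x) (c x) (i x) k a) ?_ hl
  refine CP.ball (p := fun (y : α × ℕ) a => V (len y.1) (N y.1) (c y.1) (j y.1) y.2 a →
    V (len y.1) (N y.1) (c y.1) (i y.1) y.2 a) ?_ (hN.comp Computable.fst)
  exact CP.imp (CP.v (hl.comp f1) (hN.comp f1) (hc.comp f1) (hj.comp f1) f2 Computable.snd)
    (CP.v (hl.comp f1) (hN.comp f1) (hc.comp f1) (hi.comp f1) f2 Computable.snd)

/-! ## Correctness -/

theorem ev_congr (hS : SynStatement) {r r' : ℕ → ℕ → Prop} {φ : QF}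
    (h : ∀ i < φ.bd, ∀ j < φ.bd, (r i j ↔ r' i j)) : φ.Ev r ↔ φ.Ev r' :=
  hS.2.2.2.1 r r' φ h

theorem pair_lt {i j M : ℕ} (hi : i < M) (hj : j < M) : Nat.pair i j < (M + 1) ^ 2 := by
  have h := Nat.pair_lt_max_add_one_sq i j
  have h2 : max i j + 1 ≤ M + 1 := by
    have := max_lt hi hj
    omega
  have h3 : (max i j + 1) ^ 2 ≤ (M + 1) ^ 2 := Nat.pow_le_pow_left h2 2
  omega

theorem dec (hS : SynStatement) (hF : FinStatement) : DecStatement := by
  obtain ⟨b, hb, hbd⟩ := hS.2.2.2.2.1
  obtain ⟨f, hf, hfs⟩ := hS.2.2.2.2.2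
  -- parameters `x : ((τ, n), c0)`
  have cτ : Computable fun x : (Typ × ℕ) × ℕ => x.1.1 := Computable.fst.comp Computable.fst
  have cn : Computable fun x : (Typ × ℕ) × ℕ => x.1.2 := Computable.snd.comp Computable.fst
  have cM : Computable fun x : (Typ × ℕ) × ℕ => max x.1.2 (b x.2) :=
    Primrec.nat_max.to_comp.comp cn (hb.comp Computable.snd)
  have cl : Computable fun x : (Typ × ℕ) × ℕ => x.1.1.1.length :=
    Computable.list_length.comp (Computable.fst.comp cτ)
  have f1 : Computable fun y : (((Typ × ℕ) × ℕ) × ℕ) × ℕ => y.1.1 :=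
    Computable.fst.comp Computable.fst
  have f2 : Computable fun y : (((Typ × ℕ) × ℕ) × ℕ) × ℕ => y.1.2 :=
    Computable.snd.comp Computable.fst
  -- the table of the order relation
  obtain ⟨T, hT, hTs⟩ := CP.list
    (p := fun (y : (((Typ × ℕ) × ℕ) × ℕ) × ℕ) t =>
      Ord y.1.1.1.1.1.length y.1.2 y.2 t.unpair.1 t.unpair.2)
    (b := fun y => (max y.1.1.1.2 (b y.1.1.2) + 1) ^ 2)
    (CP.ord (cl.comp (f1.comp Computable.fst)) (f2.comp Computable.fst)
      (Computable.snd.comp Computable.fst)
      (Computable.fst.comp (Computable.unpair.comp Computable.snd))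
      (Computable.snd.comp (Computable.unpair.comp Computable.snd)))
    (pow_prim.to_comp.comp (Primrec.nat_add.to_comp.comp (cM.comp f1) (Computable.const 1))
      (Computable.const 2))
  have hC : CP fun y : (((Typ × ℕ) × ℕ) × ℕ) × ℕ => f (T y, y.1.1.2) = true :=
    ⟨fun y => f (T y, y.1.1.2), hf.comp (Computable.pair hT (Computable.snd.comp f1)),
      fun y => Iff.rfl⟩
  have key : CP fun x : (Typ × ℕ) × ℕ =>
      ∃ N < max x.1.2 (b x.2) * max x.1.2 (b x.2) * x.1.1.1.length + 2, ¬ N = 0 ∧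
        ∃ c < 2 ^ (max x.1.2 (b x.2) * x.1.1.1.length * N),
          ChkA x.1.1 (max x.1.2 (b x.2)) N c ∧ ChkB x.1.1 x.1.2 N c ∧
            f (T ((x, N), c), x.2) = true := by
    refine CP.bex (p := fun (x : (Typ × ℕ) × ℕ) N => ¬ N = 0 ∧
        ∃ c < 2 ^ (max x.1.2 (b x.2) * x.1.1.1.length * N),
          ChkA x.1.1 (max x.1.2 (b x.2)) N c ∧ ChkB x.1.1 x.1.2 N c ∧
            f (T ((x, N), c), x.2) = true) ?_
      (Primrec.nat_add.to_comp.comp (Primrec.nat_mul.to_comp.comp
        (Primrec.nat_mul.to_comp.comp cM cM) cl) (Computable.const 2))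
    refine CP.and (CP.not (CP.eqN Computable.snd (Computable.const 0))) ?_
    refine CP.bex (p := fun (y : ((Typ × ℕ) × ℕ) × ℕ) c =>
          ChkA y.1.1.1 (max y.1.1.2 (b y.1.2)) y.2 c ∧ ChkB y.1.1.1 y.1.1.2 y.2 c ∧
            f (T (y, c), y.1.2) = true) ?_
      (pow_prim.to_comp.comp (Computable.const 2) (Primrec.nat_mul.to_comp.comp
        (Primrec.nat_mul.to_comp.comp (cM.comp Computable.fst) (cl.comp Computable.fst))
        Computable.snd))
    exact CP.and (CP.chkA (cτ.comp f1) (cM.comp f1) f2 Computable.snd)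
      (CP.and (CP.chkB (cτ.comp f1) (cn.comp f1) f2 Computable.snd) hC)
  obtain ⟨g, hg, hgs⟩ := key
  refine ⟨g, hg, fun τ n φ hτ => ?_⟩
  rw [hgs ((τ, n), φ.code)]
  show (∃ N < max n (b φ.code) * max n (b φ.code) * τ.1.length + 2, ¬ N = 0 ∧
        ∃ c < 2 ^ (max n (b φ.code) * τ.1.length * N),
          ChkA τ (max n (b φ.code)) N c ∧ ChkB τ n N c ∧
            f (T ((((τ, n), φ.code), N), c), φ.code) = true) ↔ Sat τ n φ
  rw [hbd φ]
  -- the meaning of the table
  have hEv : ∀ N c, (f (T ((((τ, n), φ.code), N), c), φ.code) = true ↔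
      φ.Ev (fun i j => Ord τ.1.length N c i j)) := by
    intro N c
    rw [hfs]
    refine ev_congr hS fun i hi j hj => ?_
    rw [hTs]
    show (Nat.pair i j < (max n (b φ.code) + 1) ^ 2 ∧
      Ord τ.1.length N c (Nat.pair i j).unpair.1 (Nat.pair i j).unpair.2) ↔ _
    rw [Nat.unpair_pair, hbd φ]
    constructor
    · exact fun h => h.2
    · exact fun h => ⟨pair_lt (lt_of_lt_of_le hi (le_max_right _ _))
        (lt_of_lt_of_le hj (le_max_right _ _)), h⟩
  have hpt : ∀ p ∈ τ.2, ∃ t < τ.2.length, τ.2.getD t (0, 0) = p := by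
    intro p hp
    obtain ⟨t, ht, he⟩ := List.getElem_of_mem hp
    exact ⟨t, ht, by rw [List.getD_eq_getElem _ _ ht, he]⟩
  constructor
  · rintro ⟨N, -, hN0, c, -, hA, hB, hC'⟩
    rw [hEv] at hC'
    refine ⟨N, Nat.pos_of_ne_zero hN0, fun j k a => j < max n φ.bd ∧ V τ.1.length N c j k a,
      ?_, ?_, ?_⟩
    · intro j p hp
      rintro ⟨a, ha, hj, hv⟩ a' ha'
      obtain ⟨t, ht, he⟩ := hpt p hp
      refine ⟨hj, ?_⟩
      have := hA j hj t ht ⟨a, ha, by rw [he]; exact hv⟩ a' ha'
      rwa [he] at this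
    · intro i hi k hk a ha
      rw [← hB i hi k hk a ha]
      exact ⟨fun h => h.2, fun h => ⟨lt_of_lt_of_le hi (le_max_left _ _), h⟩⟩
    · refine (ev_congr hS fun i hi j hj => ?_).1 hC'
      have hi' : i < max n φ.bd := lt_of_lt_of_le hi (le_max_right _ _)
      have hj' : j < max n φ.bd := lt_of_lt_of_le hj (le_max_right _ _)
      constructor
      · intro h k hk a ha hv
        exact ⟨hi', h k hk a ha hv.2⟩
      · intro h k hk a ha hv
        exact (h k hk a ha ⟨hj', hv⟩).2
  · rintro ⟨N0, hN0, v0, h1, h2, h3⟩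
    obtain ⟨N, hN, hNb, w, w1, w2, w3⟩ := hF τ n φ (fun _ => Fin N0) (fun j k a => v0 j k a) hτ
      (fun _ => ⟨⟨0, hN0⟩⟩)
      (fun j p hp => by
        rintro ⟨a, ha⟩ a'
        exact h1 j p hp ⟨a, a.2, ha⟩ a' a'.2)
      (fun i hi k hk a => h2 i hi k hk a a.2)
      ((ev_congr hS fun i _ j _ => by
        constructor
        · intro h k hk a hv
          exact h k hk a a.2 hv
        · intro h k hk a ha hv
          exact h k hk ⟨a, ha⟩ hv).1 h3)
    obtain ⟨c, hc, hcs⟩ := exists_codeV τ.1.length N (max n φ.bd) w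
    refine ⟨N, by omega, by omega, c, hc, ?_, ?_, ?_⟩
    · intro j hj t ht
      have hm : τ.2.getD t (0, 0) ∈ τ.2 := by
        rw [List.getD_eq_getElem _ _ ht]
        exact List.getElem_mem ht
      obtain ⟨l1, l2⟩ := hτ _ hm
      rintro ⟨a, ha, hv⟩ a' ha'
      rw [hcs j hj _ l1 a ha] at hv
      rw [hcs j hj _ l2 a' ha']
      exact w1 j _ hm ⟨a, ha, hv⟩ a' ha'
    · intro i hi k hk a ha
      rw [hcs i (lt_of_lt_of_le hi (le_max_left _ _)) k hk a ha]
      exact w2 i hi k hk a ha
    · rw [hEv]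
      refine (ev_congr hS fun i hi j hj => ?_).1 w3
      have hi' : i < max n φ.bd := lt_of_lt_of_le hi (le_max_right _ _)
      have hj' : j < max n φ.bd := lt_of_lt_of_le hj (le_max_right _ _)
      constructor
      · intro h k hk a ha hv
        rw [hcs j hj' k hk a ha] at hv
        rw [hcs i hi' k hk a ha]
        exact h k hk a ha hv
      · intro h k hk a ha hv
        rw [← hcs i hi' k hk a ha]
        exact h k hk a ha ((hcs j hj' k hk a ha).2 hv)

end Pool.Agent.Lib.MP_d48993_lc.AE.Dec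

namespace Pool.Agent.Lib.MP_d48993_lc.AE

/-- Module DEC, from the statements SYN and FIN. -/
theorem dec (hS : SynStatement) (hF : FinStatement) : DecStatement := Dec.dec hS hF

end Pool.Agent.Lib.MP_d48993_lc.AE
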