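import Pool.Agent.Lib.MP_d48993_lc.AE.Interfaces

/-!
# Module MAINC3: the decision procedure

The general theorem `decide_of` works for every frame `D` and every class `P` of types for which
the pairs of regions can be separated (`COMB`) and for which extreme embeddings exist (`EXT`).
-/

set_option autoImplicit false

namespace Pool.Agent.Lib.MP_d48993_lc.AE.Mainc3

/-! ## Regions of a real -/

/-- The mask of a finite set of variables. -/
theorem exists_mask (n : ℕ) (p : ℕ → Prop) :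
    ∃ m < 2 ^ n, ∀ i < n, (m.testBit i = true ↔ p i) := by
  classical
  induction n with
  | zero => exact ⟨0, by norm_num, fun i hi => absurd hi (Nat.not_lt_zero i)⟩
  | succ n ih =>
    obtain ⟨m, hm, h⟩ := ih
    by_cases hp : p n
    · refine ⟨2 ^ n + m, by rw [pow_succ]; omega, fun i hi => ?_⟩
      rcases Nat.lt_succ_iff_lt_or_eq.1 hi with hi | rfl
      · rw [Nat.testBit_two_pow_add_gt hi]
        exact h i hi
      · rw [Nat.testBit_two_pow_add_eq, Nat.testBit_lt_two_pow hm]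
        simpa using hp
    · refine ⟨m, by rw [pow_succ]; omega, fun i hi => ?_⟩
      rcases Nat.lt_succ_iff_lt_or_eq.1 hi with hi | rfl
      · exact h i hi
      · rw [Nat.testBit_lt_two_pow hm]
        simpa using hp

/-- Two masks below `2 ^ n` with the same bits below `n` are equal. -/
theorem eq_of_bits {n a b : ℕ} (ha : a < 2 ^ n) (hb : b < 2 ^ n)
    (h : ∀ i < n, (a.testBit i = true ↔ b.testBit i = true)) : a = b := by
  refine Nat.eq_of_testBit_eq fun i => ?_
  by_cases hi : i < n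
  · exact Bool.eq_iff_iff.2 (h i hi)
  · have hle : 2 ^ n ≤ 2 ^ i := Nat.pow_le_pow_right (by norm_num) (not_lt.1 hi)
    rw [Nat.testBit_lt_two_pow (lt_of_lt_of_le ha hle),
      Nat.testBit_lt_two_pow (lt_of_lt_of_le hb hle)]

theorem red_zero (W : ℕ → ℕ) : Red (fun _ => 0) W := by
  have h : Computable (fun _ : ℕ => (0 : ℕ)) := Computable.const 0
  exact RecursiveIn.iff_nat.2 (Nat.Partrec.recursiveIn (Partrec.nat_iff.1 h))

/-! ## Good types -/

/-- What is needed of a type. -/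
structure Good (n : ℕ) (τ : Typ) : Prop where
  pos : 0 < τ.1.length
  lt : ∀ m ∈ τ.1, m < 2 ^ n
  nodup : τ.1.Nodup
  bl : ∀ k l, (k, l) ∈ τ.2 ↔
    k < τ.1.length ∧ l < τ.1.length ∧ k ≠ 0 ∧ k ≠ l ∧ ∀ i < n, τ.In k i → τ.In l i

theorem good_of_branchy {n : ℕ} {τ : Typ} (h : Branchy n τ) : Good n τ :=
  ⟨h.pos, h.lt, h.nodup, h.bl⟩

theorem Good.sep {n : ℕ} {τ : Typ} (hτ : Good n τ) {k l : ℕ} (hk : k < τ.1.length)
    (hl : l < τ.1.length) (hkl : k ≠ l) : ∃ i < n, ¬ (τ.In k i ↔ τ.In l i) := by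
  by_contra hcon
  push Not at hcon
  apply hkl
  have ek : τ.1.getD k 0 = τ.1[k] := by
    rw [List.getD_eq_getElem?_getD, List.getElem?_eq_getElem hk]; rfl
  have el : τ.1.getD l 0 = τ.1[l] := by
    rw [List.getD_eq_getElem?_getD, List.getElem?_eq_getElem hl]; rfl
  have e : τ.1[k] = τ.1[l] := by
    refine eq_of_bits (hτ.lt _ (List.getElem_mem hk)) (hτ.lt _ (List.getElem_mem hl)) fun i hi => ?_
    have := hcon i hi
    unfold Typ.In at this
    rw [ek, el] at this
    exact this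
  exact (List.Nodup.getElem_inj_iff hτ.nodup).1 e

/-- Satisfiability depends only on the set of the blocked pairs. -/
theorem sat_congr {τ τ' : Typ} (h1 : τ'.1 = τ.1) (h2 : ∀ p, p ∈ τ'.2 ↔ p ∈ τ.2) {n : ℕ} {φ : QF}
    (h : Sat τ n φ) : Sat τ' n φ := by
  obtain ⟨N, hN, v, ha, hv, hφ⟩ := h
  refine ⟨N, hN, v, fun j p hp => ha j p ((h2 p).1 hp), ?_, ?_⟩
  · intro i hi k hk a haN
    rw [h1] at hk
    rw [hv i hi k hk a haN]
    unfold Typ.In
    rw [h1]
  · have e : (fun i j => PLe τ' N (v i) (v j)) = fun i j => PLe τ N (v i) (v j) := by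
      funext i j
      unfold PLe
      rw [h1]
    rw [e]
    exact hφ

/-- Finitely many lists of masks. -/
theorem finite_masks (n : ℕ) : Set.Finite {l : List ℕ | l.Nodup ∧ ∀ m ∈ l, m < 2 ^ n} := by
  have h1 : Set.Finite {l : List (Fin (2 ^ n)) | l.length ≤ 2 ^ n} := List.finite_length_le _ _
  refine (h1.image (fun l => l.map Fin.val)).subset ?_
  rintro l ⟨hnd, hlt⟩
  refine ⟨l.pmap (fun m hm => ⟨m, hm⟩) hlt, ?_, ?_⟩
  · have hsub : l ⊆ List.range (2 ^ n) := fun m hm => List.mem_range.2 (hlt m hm)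
    have := (List.subperm_of_subset hnd hsub).length_le
    rw [List.length_range] at this
    show (l.pmap (fun m hm => (⟨m, hm⟩ : Fin (2 ^ n))) hlt).length ≤ 2 ^ n
    rw [List.length_pmap]
    exact this
  · show (l.pmap (fun m hm => (⟨m, hm⟩ : Fin (2 ^ n))) hlt).map Fin.val = l
    rw [List.map_pmap]
    exact List.pmap_eq_self.2 fun _ _ => rfl

/-- A finite list of representatives of the types of a class of good types. -/
theorem exists_list {n : ℕ} (P : Typ → Prop) (hP : ∀ τ, P τ → Good n τ) :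
    ∃ L : List Typ, (∀ τ ∈ L, P τ) ∧
      ∀ τ, P τ → ∃ τ' ∈ L, τ'.1 = τ.1 ∧ ∀ p, p ∈ τ'.2 ↔ p ∈ τ.2 := by
  classical
  have hfin : Set.Finite {l : List ℕ | ∃ τ, P τ ∧ τ.1 = l} := by
    refine (finite_masks n).subset ?_
    rintro l ⟨τ, hτ, rfl⟩
    exact ⟨(hP τ hτ).nodup, (hP τ hτ).lt⟩
  let pick : List ℕ → Typ := fun l => if h : ∃ τ, P τ ∧ τ.1 = l then h.choose else (l, [])
  have hpick : ∀ l, (∃ τ, P τ ∧ τ.1 = l) → P (pick l) ∧ (pick l).1 = l := by
    intro l h
    show P (if h : ∃ τ, P τ ∧ τ.1 = l then h.choose else (l, [])) ∧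
      (if h : ∃ τ, P τ ∧ τ.1 = l then h.choose else (l, [])).1 = l
    rw [dif_pos h]
    exact h.choose_spec
  refine ⟨hfin.toFinset.toList.map pick, ?_, ?_⟩
  · intro τ hτ
    obtain ⟨l, hl, rfl⟩ := List.mem_map.1 hτ
    rw [Finset.mem_toList, Set.Finite.mem_toFinset] at hl
    exact (hpick l hl).1
  · intro τ hτ
    have hex : ∃ τ', P τ' ∧ τ'.1 = τ.1 := ⟨τ, hτ, rfl⟩
    obtain ⟨h1, h2⟩ := hpick τ.1 hex
    refine ⟨pick τ.1, List.mem_map.2 ⟨τ.1, ?_, rfl⟩, h2, ?_⟩
    · rw [Finset.mem_toList, Set.Finite.mem_toFinset]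
      exact hex
    · rintro ⟨k, l⟩
      rw [(hP _ h1).bl k l, (hP _ hτ).bl k l]
      unfold Typ.In
      rw [h2]

theorem computable_all {α : Type} [Primcodable α] (g : Typ × ℕ → Bool) (hg : Computable g)
    (L : List Typ) : Computable fun c : ℕ => L.all fun τ => g (τ, c) := by
  induction L with
  | nil => exact Computable.const true
  | cons τ L ih =>
    have h1 : Computable fun c : ℕ => g (τ, c) :=
      hg.comp (Computable.pair (Computable.const τ) Computable.id)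
    exact Primrec.and.to_comp.comp h1 ih

/-! ## Frames -/

theorem up_of_zero {D : Type} [PartialOrder D] {B : Set (ℕ → ℕ)} {up : D → Set (ℕ → ℕ)}
    (hF : IsFrame D B up) (h0 : (fun _ : ℕ => 0) ∉ Up B) {a : D}
    (ha : (fun _ : ℕ => 0) ∈ up a) (W : ℕ → ℕ) : W ∈ up a := by
  obtain ⟨S, hS, e⟩ := hF.rep a
  rw [e] at ha ⊢
  rcases ha with ha | ha
  · obtain ⟨f, hf, hr⟩ := ha
    exact Or.inl ⟨f, hf, hr.trans (red_zero W)⟩
  · exact absurd ha h0

theorem up_of_B {D : Type} [PartialOrder D] {B : Set (ℕ → ℕ)} {up : D → Set (ℕ → ℕ)}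
    (hF : IsFrame D B up) {W : ℕ → ℕ} (hW : W ∈ Up B) (a : D) : W ∈ up a := by
  obtain ⟨S, hS, e⟩ := hF.rep a
  rw [e]
  exact Or.inr hW

/-- If the sentence is true, then it is satisfiable over every type with an extreme embedding. -/
theorem sat_of_true (hSyn : SynStatement) (hFin : FinStatement) {D : Type} [PartialOrder D]
    {B : Set (ℕ → ℕ)} {up : D → Set (ℕ → ℕ)} (hF : IsFrame D B up) {n : ℕ} {φ : QF}
    (h : AETrue D n φ) {τ : Typ} (hτ : Good n τ) (hx : ∃ x : ℕ → D,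
      (∀ W, W ∉ Up B → ∃ k < τ.1.length, ∀ i < n, (W ∈ up (x i) ↔ τ.In k i)) ∧
      (∀ k < τ.1.length, ∃ W, W ∉ Up B ∧ ∀ i < n, (W ∈ up (x i) ↔ τ.In k i)) ∧
      ∀ p ∈ τ.2, ∀ (z : D) (W W' : ℕ → ℕ), W ∉ Up B → W' ∉ Up B →
        (∀ i < n, (W ∈ up (x i) ↔ τ.In p.1 i)) → (∀ i < n, (W' ∈ up (x i) ↔ τ.In p.2 i)) →
        W ∈ up z → W' ∈ up z) : Sat τ n φ := by
  obtain ⟨x, hx1, hx2, hx3⟩ := hx
  obtain ⟨v, hv, hφ⟩ := h x
  rw [hSyn.2.2.1 D v φ] at hφ
  have key := hFin τ n φ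
    (fun k => {W : ℕ → ℕ // k < τ.1.length → (W ∉ Up B ∧ ∀ i < n, (W ∈ up (x i) ↔ τ.In k i))})
    (fun j _ a => a.1 ∈ up (v j)) (fun p hp => ?_) (fun k => ?_) (fun j p hp => ?_)
    (fun i hi k hk a => ?_) ?_
  · obtain ⟨N, hN, -, w, hw1, hw2, hw3⟩ := key
    exact ⟨N, hN, w, hw1, hw2, hw3⟩
  · have := (hτ.bl p.1 p.2).1 hp
    exact ⟨this.1, this.2.1⟩
  · by_cases hk : k < τ.1.length
    · obtain ⟨W, hW⟩ := hx2 k hk
      exact ⟨⟨W, fun _ => hW⟩⟩
    · exact ⟨⟨fun _ => 0, fun h => absurd h hk⟩⟩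
  · rintro ⟨⟨W, hW⟩, hWv⟩ ⟨W', hW'⟩
    have hb := (hτ.bl p.1 p.2).1 hp
    exact hx3 p hp (v j) W W' (hW hb.1).1 (hW' hb.2.1).1 (hW hb.1).2 (hW' hb.2.1).2 hWv
  · show a.1 ∈ up (v i) ↔ τ.In k i
    rw [hv i hi]
    exact (a.2 hk).2 i hi
  · have e : (fun i j => v i ≤ v j) = fun i j => ∀ k < τ.1.length,
        ∀ a : {W : ℕ → ℕ // k < τ.1.length → (W ∉ Up B ∧ ∀ i < n, (W ∈ up (x i) ↔ τ.In k i))},
        a.1 ∈ up (v j) → a.1 ∈ up (v i) := by
      funext i j
      rw [hF.le (v i) (v j)]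
      refine propext ⟨fun hs k _ a ha => hs ha, fun hs W hW => ?_⟩
      by_cases hB : W ∈ Up B
      · exact up_of_B hF hB _
      · obtain ⟨k, hk, hWk⟩ := hx1 W hB
        exact hs k hk ⟨W, fun _ => ⟨hB, hWk⟩⟩ hW
    rw [← e]
    exact hφ

/-- If the sentence is satisfiable over the types of a separating class, then it is true. -/
theorem true_of_sat (hSyn : SynStatement) (hSound : SoundStatement) {D : Type} [PartialOrder D]
    {B : Set (ℕ → ℕ)} {up : D → Set (ℕ → ℕ)} (hF : IsFrame D B up)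
    (h0 : (fun _ : ℕ => 0) ∉ Up B) {n : ℕ} {φ : QF} (P : Typ → Prop)
    (hP : ∀ τ, P τ → Good n τ)
    (hC : ∀ (I : ℕ → Prop) (m0 : ℕ), I m0 → m0 < 2 ^ n → (∀ m, I m → m < 2 ^ n) →
      (∀ m, I m → ∀ i < n, m0.testBit i = true → m.testBit i = true) →
      ∃ τ : Typ, P τ ∧ τ.1.getD 0 0 = m0 ∧ (∀ m ∈ τ.1, I m) ∧
        ∀ i < n, ∀ j < n, (∀ k < τ.1.length, τ.In k j → τ.In k i) →
          ∀ m, I m → m.testBit j = true → m.testBit i = true)
    (hs : ∀ τ, P τ → Sat τ n φ) : AETrue D n φ := by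
  classical
  intro x
  let I : ℕ → Prop := fun m => m < 2 ^ n ∧
    ∃ W, W ∉ Up B ∧ ∀ i < n, (W ∈ up (x i) ↔ m.testBit i = true)
  obtain ⟨m0, hm0, hm0x⟩ := exists_mask n fun i => (fun _ : ℕ => 0) ∈ up (x i)
  have hI0 : I m0 := ⟨hm0, fun _ => 0, h0, fun i hi => (hm0x i hi).symm⟩
  obtain ⟨τ, hτP, hτ0, hτI, hτs⟩ := hC I m0 hI0 hm0 (fun m hm => hm.1) (by
    rintro m ⟨-, W, -, hW⟩ i hi hb
    exact (hW i hi).1 (up_of_zero hF h0 ((hm0x i hi).1 hb) W))
  have hτ := hP τ hτP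
  obtain ⟨N, hN, v, hva, hvx, hφ⟩ := hs τ hτP
  -- a real in every region of the type
  have hreal : ∀ k, ∃ W : ℕ → ℕ, k < τ.1.length →
      (W ∉ Up B ∧ ∀ i < n, (W ∈ up (x i) ↔ τ.In k i)) := by
    intro k
    by_cases hk : k < τ.1.length
    · have ek : τ.1.getD k 0 = τ.1[k] := by
        rw [List.getD_eq_getElem?_getD, List.getElem?_eq_getElem hk]; rfl
      obtain ⟨-, W, hW1, hW2⟩ := hτI _ (List.getElem_mem hk)
      refine ⟨W, fun _ => ⟨hW1, fun i hi => ?_⟩⟩
      unfold Typ.In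
      rw [ek]
      exact hW2 i hi
    · exact ⟨fun _ => 0, fun h => absurd h hk⟩
  choose W hW using hreal
  obtain ⟨w, hw1, hw2⟩ := hSound D B up hF h0 n x τ W 0 hτ.pos hW (fun i hi => by
      unfold Typ.In
      rw [hτ0]
      exact (hm0x i hi).symm) (fun k hk l hl hkl => hτ.sep hk hl hkl) (fun i hi j hj hij => by
      rw [hF.le]
      intro X hX
      by_cases hB : X ∈ Up B
      · exact up_of_B hF hB _
      · obtain ⟨m, hm, hmX⟩ := exists_mask n fun i => X ∈ up (x i)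
        have hIm : I m := ⟨hm, X, hB, fun i hi => (hmX i hi).symm⟩
        exact (hmX i hi).1 (hτs i hi j hj hij m hIm ((hmX j hj).2 hX)))
    (fun k hk l hl hk0 hkl hin => (hτ.bl k l).2 ⟨hk, hl, hk0, hkl, hin⟩) N hN v hva hvx
  refine ⟨w, hw1, ?_⟩
  rw [hSyn.2.2.1 D w φ]
  have e : (fun i j => w i ≤ w j) = fun i j => PLe τ N (v i) (v j) := by
    funext i j
    exact propext (hw2 i j)
  rw [e]
  exact hφ

/-- The decision procedure, for a frame and a class of types with (COMB) and (EXT). -/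
theorem decide_of (hSyn : SynStatement) (hFin : FinStatement) (hDec : DecStatement)
    (hSound : SoundStatement) {D : Type} [PartialOrder D] {B : Set (ℕ → ℕ)}
    {up : D → Set (ℕ → ℕ)} (hF : IsFrame D B up) (h0 : (fun _ : ℕ => 0) ∉ Up B) {n : ℕ}
    (P : Typ → Prop) (hP : ∀ τ, P τ → Good n τ)
    (hC : ∀ (I : ℕ → Prop) (m0 : ℕ), I m0 → m0 < 2 ^ n → (∀ m, I m → m < 2 ^ n) →
      (∀ m, I m → ∀ i < n, m0.testBit i = true → m.testBit i = true) →
      ∃ τ : Typ, P τ ∧ τ.1.getD 0 0 = m0 ∧ (∀ m ∈ τ.1, I m) ∧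
        ∀ i < n, ∀ j < n, (∀ k < τ.1.length, τ.In k j → τ.In k i) →
          ∀ m, I m → m.testBit j = true → m.testBit i = true)
    (hE : ∀ τ, P τ → ∃ x : ℕ → D,
      (∀ W, W ∉ Up B → ∃ k < τ.1.length, ∀ i < n, (W ∈ up (x i) ↔ τ.In k i)) ∧
      (∀ k < τ.1.length, ∃ W, W ∉ Up B ∧ ∀ i < n, (W ∈ up (x i) ↔ τ.In k i)) ∧
      ∀ p ∈ τ.2, ∀ (z : D) (W W' : ℕ → ℕ), W ∉ Up B → W' ∉ Up B →
        (∀ i < n, (W ∈ up (x i) ↔ τ.In p.1 i)) → (∀ i < n, (W' ∈ up (x i) ↔ τ.In p.2 i)) →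
        W ∈ up z → W' ∈ up z) :
    ∃ f : ℕ → Bool, Computable f ∧ ∀ φ : QF, f φ.code = true ↔ AETrue D n φ := by
  obtain ⟨g, hg, hgs⟩ := hDec
  obtain ⟨L, hL1, hL2⟩ := exists_list P hP
  have hg' : Computable fun q : Typ × ℕ => g ((q.1, n), q.2) :=
    hg.comp (Computable.pair (Computable.pair Computable.fst (Computable.const n))
      Computable.snd)
  refine ⟨fun c => L.all fun τ => g ((τ, n), c), computable_all (α := ℕ) _ hg' L, fun φ => ?_⟩
  have hd : ∀ τ, P τ → (g ((τ, n), φ.code) = true ↔ Sat τ n φ) := fun τ hτ =>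
    hgs τ n φ fun p hp => by
      have := ((hP τ hτ).bl p.1 p.2).1 hp
      exact ⟨this.1, this.2.1⟩
  rw [List.all_eq_true]
  constructor
  · intro h
    refine true_of_sat hSyn hSound hF h0 P hP hC fun τ hτ => ?_
    obtain ⟨τ', hτ', e1, e2⟩ := hL2 τ hτ
    exact sat_congr e1.symm (fun p => (e2 p).symm) ((hd τ' (hL1 τ' hτ')).1 (h τ' hτ'))
  · intro h τ hτ
    exact (hd τ (hL1 τ hτ)).2 (sat_of_true hSyn hFin hF h (hP τ (hL1 τ hτ)) (hE τ (hL1 τ hτ)))

/-! ## At most two universal variables: no blocked pairs -/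

/-- Extreme embeddings of the types without blocked pairs (from SPLIT only). -/
def Ext2Statement : Prop :=
  ∀ (D : Type) [PartialOrder D] (B : Set (ℕ → ℕ)) (up : D → Set (ℕ → ℕ)), IsFrame D B up →
    B.Nonempty → Bin B → (∀ G, IsGeneric G → G ∉ Up B) →
    ∀ (n : ℕ) (τ : Typ), Branchy n τ → τ.2 = [] → ∃ x : ℕ → D,
      (∀ W, W ∉ Up B → ∃ k < τ.1.length, ∀ i < n, (W ∈ up (x i) ↔ τ.In k i)) ∧
      ∀ k < τ.1.length, ∃ W, W ∉ Up B ∧ ∀ i < n, (W ∈ up (x i) ↔ τ.In k i)

/-- The theorem for at most two universal variables. -/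
def MainC2Statement : Prop :=
  ∀ n ≤ 2, ∃ f : ℕ → Bool, Computable f ∧ ∀ φ : QF, f φ.code = true ↔ AETrue PwCantor n φ

theorem comb_one {n m0 : ℕ} (hm0 : m0 < 2 ^ n) : Branchy n ([m0], []) where
  pos := by simp
  lt := by simpa using hm0
  nodup := by simp
  least := by
    intro k hk i _ h
    have : k = 0 := by simpa using hk
    rw [this]
    exact h
  bl := by
    intro k l
    simp only [List.not_mem_nil, List.length_cons, List.length_nil, false_iff]
    omega
  up := by simp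
  down := by simp
  two := by simp

theorem branchy_of_list (l : List ℕ) (hl : l = [0, 1, 2] ∨ l = [0, 1] ∨ l = [0, 2]) :
    Branchy 2 (l, []) where
  pos := by rcases hl with rfl | rfl | rfl <;> simp
  lt := by rcases hl with rfl | rfl | rfl <;> simp
  nodup := by rcases hl with rfl | rfl | rfl <;> simp
  least := by
    intro k _ i _ h
    rcases hl with rfl | rfl | rfl <;> · simp [Typ.In] at h
  bl := by
    intro a b
    simp only [List.not_mem_nil, false_iff]
    rintro ⟨ha, hb, h0, hne, h⟩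
    have h' := h 0 (by norm_num)
    have h'' := h 1 (by norm_num)
    unfold Typ.In at h' h''
    have ha3 : a < 3 := by rcases hl with rfl | rfl | rfl <;> simp at ha <;> omega
    have hb3 : b < 3 := by rcases hl with rfl | rfl | rfl <;> simp at hb <;> omega
    clear h
    rcases hl with rfl | rfl | rfl <;> interval_cases a <;> interval_cases b <;>
      simp_all (decide := true)
  up := by simp
  down := by simp
  two := by simp

theorem three_of {m : ℕ} (hm : m < 4) (h1 : m ≠ 1) (h : m.testBit 0 = true) :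
    m.testBit 1 = true := by
  interval_cases m <;> simp_all (decide := true)

theorem three_of' {m : ℕ} (hm : m < 4) (h1 : m ≠ 2) (h : m.testBit 1 = true) :
    m.testBit 0 = true := by
  interval_cases m <;> simp_all (decide := true)

theorem comb2 (n : ℕ) (hn : n ≤ 2) (I : ℕ → Prop) (m0 : ℕ) (hI0 : I m0) (hm0 : m0 < 2 ^ n)
    (hIlt : ∀ m, I m → m < 2 ^ n)
    (hI : ∀ m, I m → ∀ i < n, m0.testBit i = true → m.testBit i = true) :
    ∃ τ : Typ, (Branchy n τ ∧ τ.2 = []) ∧ τ.1.getD 0 0 = m0 ∧ (∀ m ∈ τ.1, I m) ∧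
      ∀ i < n, ∀ j < n, (∀ k < τ.1.length, τ.In k j → τ.In k i) →
        ∀ m, I m → m.testBit j = true → m.testBit i = true := by
  have one : (∀ i < n, ∀ j < n, i ≠ j → (m0.testBit j = true → m0.testBit i = true) →
      ∀ m, I m → m.testBit j = true → m.testBit i = true) →
      ∃ τ : Typ, (Branchy n τ ∧ τ.2 = []) ∧ τ.1.getD 0 0 = m0 ∧ (∀ m ∈ τ.1, I m) ∧
      ∀ i < n, ∀ j < n, (∀ k < τ.1.length, τ.In k j → τ.In k i) →
        ∀ m, I m → m.testBit j = true → m.testBit i = true := by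
    intro h
    refine ⟨([m0], []), ⟨comb_one hm0, rfl⟩, rfl, by simpa using hI0, ?_⟩
    intro i hi j hj hk m hm hb
    by_cases e : i = j
    · rw [e]; exact hb
    · exact h i hi j hj e (hk 0 (by simp)) m hm hb
  have hn' : n = 0 ∨ n = 1 ∨ n = 2 := by omega
  rcases hn' with rfl | rfl | rfl
  · exact one fun i hi => absurd hi (Nat.not_lt_zero i)
  · exact one fun i hi j hj e => absurd (show i = j by omega) e
  by_cases h00 : m0 = 0
  · subst h00
    have fin : ∀ l : List ℕ, (l = [0, 1, 2] ∨ l = [0, 1] ∨ l = [0, 2]) → (∀ m ∈ l, I m) →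
        (1 ∈ l ∨ ¬ I 1) → (2 ∈ l ∨ ¬ I 2) →
        ∃ τ : Typ, (Branchy 2 τ ∧ τ.2 = []) ∧ τ.1.getD 0 0 = 0 ∧ (∀ m ∈ τ.1, I m) ∧
        ∀ i < 2, ∀ j < 2, (∀ k < τ.1.length, τ.In k j → τ.In k i) →
          ∀ m, I m → m.testBit j = true → m.testBit i = true := by
      intro l hl hlI h1 h2
      refine ⟨(l, []), ⟨branchy_of_list l hl, rfl⟩, ?_, hlI, ?_⟩
      · rcases hl with rfl | rfl | rfl <;> rfl
      · intro i hi j hj hk m hm hb
        have hpos : ∀ a ∈ l, a.testBit j = true → a.testBit i = true := by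
          intro a ha haj
          obtain ⟨k, hk1, hk2⟩ := List.getElem_of_mem ha
          have := hk k hk1
          unfold Typ.In at this
          rw [List.getD_eq_getElem?_getD, List.getElem?_eq_getElem hk1] at this
          change l[k].testBit j = true → l[k].testBit i = true at this
          rw [hk2] at this
          exact this haj
        have hm4 : m < 4 := hIlt m hm
        have hi' : i = 0 ∨ i = 1 := by omega
        have hj' : j = 0 ∨ j = 1 := by omega
        rcases hi' with rfl | rfl <;> rcases hj' with rfl | rfl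
        · exact hb
        · rcases h2 with h2 | h2
          · exact absurd (hpos 2 h2 (by decide)) (by decide)
          · exact three_of' hm4 (fun e => h2 (e ▸ hm)) hb
        · rcases h1 with h1 | h1
          · exact absurd (hpos 1 h1 (by decide)) (by decide)
          · exact three_of hm4 (fun e => h1 (e ▸ hm)) hb
        · exact hb
    by_cases h1 : I 1
    · by_cases h2 : I 2
      · exact fin [0, 1, 2] (Or.inl rfl) (by simp [hI0, h1, h2]) (Or.inl (by simp))
          (Or.inl (by simp))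
      · exact fin [0, 1] (Or.inr (Or.inl rfl)) (by simp [hI0, h1]) (Or.inl (by simp)) (Or.inr h2)
    · by_cases h2 : I 2
      · exact fin [0, 2] (Or.inr (Or.inr rfl)) (by simp [hI0, h2]) (Or.inr h1)
          (Or.inl (by simp))
      · refine one fun i hi j hj e _ m hm hb => ?_
        have hm4 : m < 4 := hIlt m hm
        have hm1 : m ≠ 1 := fun e => h1 (e ▸ hm)
        have hm2 : m ≠ 2 := fun e => h2 (e ▸ hm)
        have hi' : i = 0 ∨ i = 1 := by omega
        have hj' : j = 0 ∨ j = 1 := by omega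
        rcases hi' with rfl | rfl <;> rcases hj' with rfl | rfl
        · exact hb
        · exact three_of' hm4 hm2 hb
        · exact three_of hm4 hm1 hb
        · exact hb
  · refine one fun i hi j hj e hji m hm hb => ?_
    have hmi := hI m hm i hi
    refine hmi ?_
    by_contra hni
    apply h00
    have hnj : ¬ m0.testBit j = true := fun h => hni (hji h)
    refine eq_of_bits hm0 (by norm_num) fun a ha => ?_
    have hae : a = i ∨ a = j := by omega
    rw [Nat.zero_testBit]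
    rcases hae with rfl | rfl
    · simpa using hni
    · simpa using hnj

theorem mainc2 (hSyn : SynStatement) (hFin : FinStatement) (hDec : DecStatement)
    (hFrame : FrameStatement) (hSound : SoundStatement) (hExt : Ext2Statement) :
    MainC2Statement := by
  obtain ⟨⟨B, up, hF, hB, hBin, hG, h0⟩, -⟩ := hFrame
  intro n hn
  refine decide_of hSyn hFin hDec hSound hF h0 (fun τ => Branchy n τ ∧ τ.2 = [])
    (fun τ hτ => good_of_branchy hτ.1) (comb2 n hn) fun τ hτ => ?_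
  obtain ⟨x, h1, h2⟩ := hExt PwCantor B up hF hB hBin hG n τ hτ.1 hτ.2
  refine ⟨x, h1, h2, fun p hp => ?_⟩
  rw [hτ.2] at hp
  exact absurd hp (List.not_mem_nil)

end Pool.Agent.Lib.MP_d48993_lc.AE.Mainc3

namespace Pool.Agent.Lib.MP_d48993_lc.AE

theorem mainc3 (hSyn : SynStatement) (hFin : FinStatement) (hDec : DecStatement)
    (hFrame : FrameStatement) (hSound : SoundStatement) (hComb : Comb3Statement)
    (hExt : Ext3Statement) : MainC3Statement := by
  obtain ⟨⟨B, up, hF, hB, hBin, hG, h0⟩, -⟩ := hFrame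
  intro n hn
  exact Mainc3.decide_of hSyn hFin hDec hSound hF h0 (Branchy n)
    (fun τ hτ => Mainc3.good_of_branchy hτ) (hComb n hn) fun τ hτ =>
      hExt PwCantor B up hF hB hBin hG n τ hτ

end Pool.Agent.Lib.MP_d48993_lc.AE
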