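import Pool.Agent.Lib.MP_d48993_lc.AE.Interfaces
import Pool.Agent.Lib.MP_d48993_lc.Ops
import Pool.Agent.Lib.MP_d48993_lc.Red
import Pool.Agent.Lib.MP_d48993_lc.Enum

/-!
# Module SOUND: over arbitrary parameters all patterns on a separating family are realised
-/

set_option autoImplicit false

namespace Pool.Agent.Lib.MP_d48993_lc.AE.Sound

open MP_8c048d_lc (pre join RecF Sig Clo Cop Del Pih)

/-! ## Closed up-sets -/

/-- the sets `Up R`, for `R` closed -/
def Cl (U : Set (ℕ → ℕ)) : Prop := ∃ R, ClosedC R ∧ Up R = U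

theorem Cl.of {R : Set (ℕ → ℕ)} (h : ClosedC R) : Cl (Up R) := ⟨R, h, rfl⟩

theorem Cl.univ : Cl (Set.univ : Set (ℕ → ℕ)) :=
  ⟨Set.univ, ⟨fun _ _ => true, RecF.of_computable (Computable.const true),
    fun _ _ => ⟨fun _ _ => rfl, fun _ => Set.mem_univ _⟩⟩,
    Set.eq_univ_of_forall fun W => ⟨W, Set.mem_univ _, Red.rfl⟩⟩

theorem Cl.empty : Cl (∅ : Set (ℕ → ℕ)) := by
  refine ⟨∅, ⟨fun _ _ => false, RecF.of_computable (Computable.const false),
    fun _ _ => ⟨fun h => h.elim, fun h => absurd (h 0) (by simp)⟩⟩, ?_⟩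
  ext W
  constructor
  · rintro ⟨f, hf, -⟩
    exact hf
  · intro h
    exact h.elim

theorem Cl.inter {U V : Set (ℕ → ℕ)} (h : Cl U) (h' : Cl V) : Cl (U ∩ V) := by
  obtain ⟨R, hR, rfl⟩ := h
  obtain ⟨S, hS, rfl⟩ := h'
  obtain ⟨T, hT, e⟩ := (ops joinS R S hR hS).2
  exact ⟨T, hT, e⟩

theorem Cl.union {U V : Set (ℕ → ℕ)} (h : Cl U) (h' : Cl V) : Cl (U ∪ V) := by
  obtain ⟨R, hR, rfl⟩ := h
  obtain ⟨S, hS, rfl⟩ := h'
  obtain ⟨T, hT, e⟩ := (ops joinS R S hR hS).1
  exact ⟨T, hT, e⟩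

theorem Cl.mono {U : Set (ℕ → ℕ)} (h : Cl U) {g W : ℕ → ℕ} (hg : g ∈ U) (hr : Red g W) :
    W ∈ U := by
  obtain ⟨R, hR, rfl⟩ := h
  obtain ⟨f, hf, hfg⟩ := hg
  exact ⟨f, hf, hfg.trans hr⟩

theorem Cl.fin_inter (U : ℕ → Set (ℕ → ℕ)) (p : ℕ → Prop) (n : ℕ)
    (h : ∀ i < n, Cl (U i)) : Cl {W | ∀ i < n, p i → W ∈ U i} := by
  induction n with
  | zero =>
    have e : {W : ℕ → ℕ | ∀ i < 0, p i → W ∈ U i} = Set.univ :=
      Set.eq_univ_of_forall fun W i hi => absurd hi (Nat.not_lt_zero i)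
    rw [e]
    exact Cl.univ
  | succ n ih =>
    have h1 := ih fun i hi => h i (Nat.lt_succ_of_lt hi)
    by_cases hp : p n
    · have e : {W : ℕ → ℕ | ∀ i < n + 1, p i → W ∈ U i} =
          {W | ∀ i < n, p i → W ∈ U i} ∩ U n := by
        ext W
        constructor
        · intro hW
          exact ⟨fun i hi => hW i (Nat.lt_succ_of_lt hi), hW n (Nat.lt_succ_self n) hp⟩
        · rintro ⟨hW, hW'⟩ i hi hpi
          rcases Nat.lt_succ_iff_lt_or_eq.1 hi with hi | rfl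
          · exact hW i hi hpi
          · exact hW'
      rw [e]
      exact h1.inter (h n (Nat.lt_succ_self n))
    · have e : {W : ℕ → ℕ | ∀ i < n + 1, p i → W ∈ U i} = {W | ∀ i < n, p i → W ∈ U i} := by
        ext W
        constructor
        · intro hW i hi
          exact hW i (Nat.lt_succ_of_lt hi)
        · intro hW i hi hpi
          rcases Nat.lt_succ_iff_lt_or_eq.1 hi with hi | rfl
          · exact hW i hi hpi
          · exact absurd hpi hp
      rw [e]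
      exact h1

theorem Cl.fin_union (U : ℕ → Set (ℕ → ℕ)) (p : ℕ → Prop) (n : ℕ)
    (h : ∀ i < n, Cl (U i)) : Cl {W | ∃ i < n, p i ∧ W ∈ U i} := by
  induction n with
  | zero =>
    have e : {W : ℕ → ℕ | ∃ i < 0, p i ∧ W ∈ U i} = ∅ := by
      ext W
      constructor
      · rintro ⟨i, hi, -⟩
        exact absurd hi (Nat.not_lt_zero i)
      · intro hW
        exact hW.elim
    rw [e]
    exact Cl.empty
  | succ n ih =>
    have h1 := ih fun i hi => h i (Nat.lt_succ_of_lt hi)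
    by_cases hp : p n
    · have e : {W : ℕ → ℕ | ∃ i < n + 1, p i ∧ W ∈ U i} =
          {W | ∃ i < n, p i ∧ W ∈ U i} ∪ U n := by
        ext W
        constructor
        · rintro ⟨i, hi, hpi, hW⟩
          rcases Nat.lt_succ_iff_lt_or_eq.1 hi with hi | rfl
          · exact Or.inl ⟨i, hi, hpi, hW⟩
          · exact Or.inr hW
        · rintro (⟨i, hi, hpi, hW⟩ | hW)
          · exact ⟨i, Nat.lt_succ_of_lt hi, hpi, hW⟩
          · exact ⟨n, Nat.lt_succ_self n, hp, hW⟩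
      rw [e]
      exact h1.union (h n (Nat.lt_succ_self n))
    · have e : {W : ℕ → ℕ | ∃ i < n + 1, p i ∧ W ∈ U i} = {W | ∃ i < n, p i ∧ W ∈ U i} := by
        ext W
        constructor
        · rintro ⟨i, hi, hpi, hW⟩
          rcases Nat.lt_succ_iff_lt_or_eq.1 hi with hi | rfl
          · exact ⟨i, hi, hpi, hW⟩
          · exact absurd hpi hp
        · rintro ⟨i, hi, hpi, hW⟩
          exact ⟨i, Nat.lt_succ_of_lt hi, hpi, hW⟩
      rw [e]
      exact h1

/-- a common upper bound of finitely many reals -/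
theorem exists_join (U : ℕ → Set (ℕ → ℕ)) (p : ℕ → Prop) (Z : ℕ → ℕ) (n : ℕ)
    (h : ∀ i < n, Cl (U i)) (hne : ∀ i < n, p i → ∃ Y, Y ∈ U i) :
    ∃ W, Red Z W ∧ ∀ i < n, p i → W ∈ U i := by
  induction n with
  | zero => exact ⟨Z, Red.rfl, fun i hi => absurd hi (Nat.not_lt_zero i)⟩
  | succ n ih =>
    obtain ⟨W, hZ, hW⟩ := ih (fun i hi => h i (Nat.lt_succ_of_lt hi))
      fun i hi => hne i (Nat.lt_succ_of_lt hi)
    by_cases hp : p n
    · obtain ⟨Y, hY⟩ := hne n (Nat.lt_succ_self n) hp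
      refine ⟨join W Y, hZ.trans (joinS.1 W Y), fun i hi hpi => ?_⟩
      rcases Nat.lt_succ_iff_lt_or_eq.1 hi with hi' | rfl
      · exact (h i hi).mono (hW i hi' hpi) (joinS.1 W Y)
      · exact (h i hi).mono hY (joinS.2.1 W Y)
    · refine ⟨W, hZ, fun i hi hpi => ?_⟩
      rcases Nat.lt_succ_iff_lt_or_eq.1 hi with hi | rfl
      · exact hW i hi hpi
      · exact absurd hpi hp

/-! ## Complexity -/

theorem upDel {P : Set (ℕ → ℕ)} (hP : ClosedC P) :
    Del (fun (_ : Unit) W => W ∈ Up P) := by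
  obtain ⟨d, hd, hBd⟩ := hP
  have e := H84.up_del enum (d := fun (x : Unit × (ℕ × ℕ)) F => d (x.1, x.2.1) F)
    (hd.comp₁ (Computable.fst.pair (Computable.fst.comp Computable.snd)))
  refine e.congr fun a W => ?_
  have : {F | ∀ (n : ℕ), ∃ _m : ℕ, d (a, n) F = true} = P := by
    ext F
    have h1 : F ∈ P ↔ ∀ m, d ((), m) F = true := hBd () F
    rw [h1]
    constructor
    · intro h n
      obtain ⟨_, h⟩ := h n
      exact h
    · intro h n
      exact ⟨0, h n⟩
  show W ∈ Up {F | ∀ (n : ℕ), ∃ _m : ℕ, d (a, n) F = true} ↔ _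
  rw [this]

theorem Cl.del {U : Set (ℕ → ℕ)} (h : Cl U) : Del (fun (_ : Unit) W => W ∈ U) := by
  obtain ⟨R, hR, rfl⟩ := h
  exact upDel hR

/-- the `c`-th column -/
def col (c : ℕ) (F : ℕ → ℕ) : ℕ → ℕ := fun i => F (Nat.pair c i)

theorem col_del {P : (ℕ → ℕ) → Prop} (h : Del (fun (_ : Unit) W => P W)) (c : ℕ) :
    Del (fun (_ : Unit) F => P (col c F)) := by
  refine Del.subst (P := fun (_ : Unit) W => P W) h (ψ := fun (a : Unit) _ => a)
    (RecF.of_computable Computable.id) (Ψ := fun (_ : Unit) F => col c F) ?_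
  exact RecF.at (f := fun p : Unit × ℕ => Nat.pair c p.2)
    ((Primrec₂.natPair.comp (Primrec.const c) Primrec.snd).to_comp)

theorem del_const (p : Prop) : Del (fun (_ : Unit) (_ : ℕ → ℕ) => p) := by
  classical
  by_cases hp : p
  · refine (Del.of_recF (d := fun (_ : Unit) (_ : ℕ → ℕ) => true)
      (RecF.of_computable (Computable.const true))).congr fun a F => ?_
    simp [hp]
  · refine (Del.of_recF (d := fun (_ : Unit) (_ : ℕ → ℕ) => false)
      (RecF.of_computable (Computable.const false))).congr fun a F => ?_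
    simp [hp]

theorem fin_del (P : ℕ → (ℕ → ℕ) → Prop) (m : ℕ)
    (h : ∀ c < m, Del (fun (_ : Unit) F => P c F)) :
    Del (fun (_ : Unit) F => ∀ c < m, P c F) := by
  induction m with
  | zero =>
    refine (del_const True).congr fun a F => ?_
    simp
  | succ m ih =>
    refine ((ih fun c hc => h c (Nat.lt_succ_of_lt hc)).and (h m (Nat.lt_succ_self m))).congr
      fun a F => ?_
    constructor
    · rintro ⟨h1, h2⟩ c hc
      rcases Nat.lt_succ_iff_lt_or_eq.1 hc with hc | rfl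
      · exact h1 c hc
      · exact h2
    · intro h1
      exact ⟨fun c hc => h1 c (Nat.lt_succ_of_lt hc), h1 m (Nat.lt_succ_self m)⟩

/-- A real for the point `a` of the region `k`. -/
def Good (u : ℕ → ℕ → Set (ℕ → ℕ)) (Bd : ℕ → Set (ℕ → ℕ)) (N k a : ℕ) (W : ℕ → ℕ) : Prop :=
  W ∈ Up (u k a) ∧ W ∉ Bd k ∧ ∀ b < N, b ≠ a → W ∉ Up (u k b)

theorem good_del {u : ℕ → ℕ → Set (ℕ → ℕ)} {Bd : ℕ → Set (ℕ → ℕ)} (hu : ∀ k a, ClosedC (u k a))
    (hBd : ∀ k, Cl (Bd k)) (N k a : ℕ) : Del (fun (_ : Unit) W => Good u Bd N k a W) := by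
  have e1 := upDel (hu k a)
  have e2 := ((hBd k).del).not
  have e3 : Del (fun (_ : Unit) W => ∀ b < N, b ≠ a → W ∉ Up (u k b)) := by
    refine fin_del (fun b W => b ≠ a → W ∉ Up (u k b)) N fun b _ => ?_
    exact Del.imp (P := fun (_ : Unit) (_ : ℕ → ℕ) => b ≠ a) (del_const _)
      (upDel (hu k b)).not
  exact e1.and (e2.and e3)

/-- A class avoided by a finite family of points. -/
theorem botFam (hB : BotStatement) {u : ℕ → ℕ → Set (ℕ → ℕ)} {Bd : ℕ → Set (ℕ → ℕ)}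
    (hu : ∀ k a, ClosedC (u k a)) (hBd : ∀ k, Cl (Bd k)) (N len : ℕ) (K : ℕ → Prop)
    {U : Set (ℕ → ℕ)} (hU : Cl U) (h0 : (fun _ : ℕ => 0) ∉ U)
    (hW : ∀ k < len, K k → ∀ a < N, ∃ W, Good u Bd N k a W) :
    ∃ H, Cl H ∧ (∃ Z ∈ H, Z ∉ U) ∧ ∃ W : ℕ → ℕ → ℕ → ℕ, ∀ k < len, K k → ∀ a < N,
      Good u Bd N k a (W k a) ∧ W k a ∉ H := by
  classical
  obtain ⟨R, hR, rfl⟩ := hU
  let Qc : ℕ → (ℕ → ℕ) → Prop := fun c W =>
    (c.unpair.1 < len ∧ K c.unpair.1 ∧ c.unpair.2 < N) → Good u Bd N c.unpair.1 c.unpair.2 W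
  let m : ℕ := Nat.pair len N
  let Q : (ℕ → ℕ) → Prop := fun F => ∀ c < m, Qc c (col c F)
  have hQ : Sig (fun (_ : Unit) F => Q F) := by
    refine (fin_del (fun c F => Qc c (col c F)) m fun c _ => ?_).1
    exact Del.imp (P := fun (_ : Unit) (_ : ℕ → ℕ) =>
      (c.unpair.1 < len ∧ K c.unpair.1 ∧ c.unpair.2 < N)) (del_const _)
      (col_del (P := fun W => Good u Bd N c.unpair.1 c.unpair.2 W)
        (good_del hu hBd N c.unpair.1 c.unpair.2) c)
  have hex : ∃ F, Q F := by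
    have h1 : ∀ c, ∃ W, Qc c W := by
      intro c
      by_cases hc : c.unpair.1 < len ∧ K c.unpair.1 ∧ c.unpair.2 < N
      · obtain ⟨W, hW⟩ := hW _ hc.1 hc.2.1 _ hc.2.2
        exact ⟨W, fun _ => hW⟩
      · exact ⟨fun _ => 0, fun h => absurd h hc⟩
    choose G hG using h1
    refine ⟨fun n => G n.unpair.1 n.unpair.2, fun c _ => ?_⟩
    have e : col c (fun n => G n.unpair.1 n.unpair.2) = G c := by
      funext i
      show G (Nat.pair c i).unpair.1 (Nat.pair c i).unpair.2 = G c i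
      rw [Nat.unpair_pair]
    rw [e]
    exact hG c
  obtain ⟨h, hh, ⟨Z, hZ, hZU⟩, F, hF, hcol⟩ := hB R Q hR h0 hQ hex
  refine ⟨Up h, Cl.of hh, ⟨Z, ⟨Z, hZ, Red.rfl⟩, hZU⟩, fun k a => col (Nat.pair k a) F,
    fun k hk hKk a ha => ⟨?_, hcol _⟩⟩
  have hlt : Nat.pair k a < m :=
    (Nat.pair_lt_pair_left a hk).trans (Nat.pair_lt_pair_right len ha)
  have h2 := hF (Nat.pair k a) hlt
  simp only [Qc, Nat.unpair_pair] at h2
  exact h2 ⟨hk, hKk, ha⟩

theorem red_zero (W : ℕ → ℕ) : Red (fun _ : ℕ => 0) W :=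
  red1 (fun _ _ => 0) (RecF.of_computable (Computable.const 0)) W

theorem ple_refl (τ : Typ) (N : ℕ) (s : ℕ → ℕ → Prop) : PLe τ N s s := fun _ _ _ _ h => h

theorem ple_trans {τ : Typ} {N : ℕ} {s s' s'' : ℕ → ℕ → Prop} (h : PLe τ N s s')
    (h' : PLe τ N s' s'') : PLe τ N s s'' := fun k hk a ha hs => h k hk a ha (h' k hk a ha hs)

/-- the class of a pattern -/
def zset {D : Type} (up : D → Set (ℕ → ℕ)) (B : Set (ℕ → ℕ)) (n : ℕ) (x : ℕ → D) (τ : Typ)
    (N : ℕ) (v : ℕ → ℕ → ℕ → Prop) (u : ℕ → ℕ → Set (ℕ → ℕ)) (H : Set (ℕ → ℕ))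
    (s : ℕ → ℕ → Prop) : Set (ℕ → ℕ) :=
  (({W | ∃ k < τ.1.length, True ∧ W ∈ {W | ∃ a < N, s k a ∧ W ∈ Up (u k a)}} ∪
    ({W | ∃ i < n, PLe τ N s (v i) ∧ W ∈ up (x i)} ∪ H)) ∩
    {W | ∀ i < n, PLe τ N (v i) s → W ∈ up (x i)}) ∪ Up B

/-- Module SOUND. -/
theorem _root_.Pool.Agent.Lib.MP_d48993_lc.AE.sound (hI : IndStatement) (hB : BotStatement) :
    SoundStatement := by
  classical
  intro D _ B up hF h0B n x τ W k0 hk0 hW h0 hdist hsep hbl N hN v hall hv
  have hcl : ∀ a, Cl (up a) := by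
    intro a
    obtain ⟨S, hS, e⟩ := hF.rep a
    rw [e]
    exact (Cl.of hS).union (Cl.of hF.closed)
  have hBup : ∀ a, Up B ⊆ up a := by
    intro a
    obtain ⟨S, hS, e⟩ := hF.rep a
    rw [e]
    exact Set.subset_union_right
  -- the boxes of the regions
  let A : ℕ → Set (ℕ → ℕ) := fun k => {W | ∀ i < n, τ.In k i → W ∈ up (x i)}
  let Bd : ℕ → Set (ℕ → ℕ) := fun k => {W | ∃ i < n, ¬ τ.In k i ∧ W ∈ up (x i)} ∪ Up B
  have hA : ∀ k, Cl (A k) := fun k =>
    Cl.fin_inter (fun i => up (x i)) (fun i => τ.In k i) n fun i _ => hcl (x i)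
  have hBd : ∀ k, Cl (Bd k) := fun k =>
    (Cl.fin_union (fun i => up (x i)) (fun i => ¬ τ.In k i) n fun i _ => hcl (x i)).union
      (Cl.of hF.closed)
  have hWA : ∀ k < τ.1.length, W k ∈ A k ∧ W k ∉ Bd k := by
    intro k hk
    refine ⟨fun i hi hin => ((hW k hk).2 i hi).2 hin, ?_⟩
    rintro (⟨i, hi, hin, hm⟩ | hm)
    · exact hin (((hW k hk).2 i hi).1 hm)
    · exact (hW k hk).1 hm
  -- the independent classes
  have hu1 : ∀ k, ∃ u : ℕ → Set (ℕ → ℕ), (∀ a, ClosedC (u a)) ∧ (k < τ.1.length →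
      (∀ a, Up (u a) ⊆ A k) ∧ ∀ a < N, ∃ W, W ∈ Up (u a) ∧ W ∉ Bd k ∧
        ∀ b < N, b ≠ a → W ∉ Up (u b)) := by
    intro k
    by_cases hk : k < τ.1.length
    · obtain ⟨RA, hRA, eA⟩ := hA k
      obtain ⟨RB, hRB, eB⟩ := hBd k
      obtain ⟨u, W', h1, h2⟩ := hI RA RB hRA hRB ⟨W k, by rw [eA]; exact (hWA k hk).1,
        by rw [eB]; exact (hWA k hk).2⟩ N
      refine ⟨u, fun a => (h1 a).1, fun _ => ⟨fun a => ?_, fun a ha => ?_⟩⟩
      · have := (h1 a).2
        rwa [eA] at this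
      · have h3 := h2 a ha
        rw [eB] at h3
        exact ⟨W' a, h3⟩
    · obtain ⟨R, hR, -⟩ := Cl.empty
      exact ⟨fun _ => R, fun _ => hR, fun h => absurd h hk⟩
  choose u hu hu2 using hu1
  -- the class `H` for the region `k0`
  have h0Bd : (fun _ : ℕ => 0) ∉ Bd k0 := by
    rintro (⟨i, hi, hin, hm⟩ | hm)
    · exact hin ((h0 i hi).1 hm)
    · exact h0B hm
  obtain ⟨H, hH, ⟨Z, hZH, hZU⟩, W1, hW1⟩ := botFam hB (u := u) (Bd := Bd) hu hBd N τ.1.length
    (fun k => k ≠ k0) (hBd k0) h0Bd fun k hk _ a ha => by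
      obtain ⟨W', h1, h2, h3⟩ := (hu2 k hk).2 a ha
      exact ⟨W', h1, h2, h3⟩
  obtain ⟨RH, hRH, eH⟩ := hH
  obtain ⟨RU, hRU, eU⟩ := hBd k0
  obtain ⟨u0, W0, hu0, hW0⟩ := hI RH RU hRH hRU ⟨Z, by rw [eH]; exact hZH,
    by rw [eU]; exact hZU⟩ N
  rw [eH] at hu0
  rw [eU] at hW0
  have hH : Cl H := ⟨RH, hRH, eH⟩
  -- all the points
  let u' : ℕ → ℕ → Set (ℕ → ℕ) := fun k a => if k = k0 then u0 a else u k a
  let Bd' : ℕ → Set (ℕ → ℕ) := fun k => if k = k0 then Bd k0 else Bd k ∪ H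
  have hu' : ∀ k a, ClosedC (u' k a) := by
    intro k a
    by_cases hk : k = k0
    · simp only [u', if_pos hk]
      exact (hu0 a).1
    · simp only [u', if_neg hk]
      exact hu k a
  have hBd' : ∀ k, Cl (Bd' k) := by
    intro k
    by_cases hk : k = k0
    · simp only [Bd', if_pos hk]
      exact hBd k0
    · simp only [Bd', if_neg hk]
      exact (hBd k).union hH
  obtain ⟨H', hH', ⟨Z', hZ', -⟩, W2, hW2⟩ := botFam hB (u := u') (Bd := Bd') hu' hBd' N
    τ.1.length (fun _ => True) Cl.empty (by simp) fun k hk _ a ha => by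
      by_cases hkk : k = k0
      · refine ⟨W0 a, ?_, ?_, fun b hb hba => ?_⟩
        · simp only [u', if_pos hkk]
          exact (hW0 a ha).1
        · simp only [Bd', if_pos hkk]
          exact (hW0 a ha).2.1
        · simp only [u', if_pos hkk]
          exact (hW0 a ha).2.2 b hb hba
      · obtain ⟨⟨h1, h2, h3⟩, h4⟩ := hW1 k hk hkk a ha
        refine ⟨W1 k a, ?_, ?_, fun b hb hba => ?_⟩
        · simp only [u', if_neg hkk]
          exact h1
        · simp only [Bd', if_neg hkk]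
          exact fun h => h.elim h2 h4
        · simp only [u', if_neg hkk]
          exact h3 b hb hba
  have f1 : ∀ k < τ.1.length, ∀ a < N, W2 k a ∈ Up (u' k a) ∧
      (∀ b < N, b ≠ a → W2 k a ∉ Up (u' k b)) ∧ W2 k a ∉ H' := fun k hk a ha =>
    ⟨(hW2 k hk trivial a ha).1.1, (hW2 k hk trivial a ha).1.2.2, (hW2 k hk trivial a ha).2⟩
  have f2 : ∀ k < τ.1.length, ∀ a < N, W2 k a ∉ Bd k := by
    intro k hk a ha h
    have h1 := (hW2 k hk trivial a ha).1.2.1
    by_cases hkk : k = k0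
    · simp only [Bd', if_pos hkk] at h1
      rw [hkk] at h h1
      exact h1 h
    · simp only [Bd', if_neg hkk] at h1
      exact h1 (Or.inl h)
  have f3 : ∀ k < τ.1.length, ∀ a < N, ∀ i < n, (W2 k a ∈ up (x i) ↔ τ.In k i) := by
    intro k hk a ha i hi
    constructor
    · intro h
      by_contra hin
      exact f2 k hk a ha (Or.inl ⟨i, hi, hin, h⟩)
    · intro hin
      by_cases hkk : k = k0
      · rw [hkk] at hin
        exact (hcl (x i)).mono ((h0 i hi).2 hin) (red_zero _)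
      · have h1 := (f1 k hk a ha).1
        simp only [u', if_neg hkk] at h1
        exact (hu2 k hk).1 a h1 i hi hin
  have f4 : ∀ k < τ.1.length, k ≠ k0 → ∀ a < N, W2 k a ∉ H := by
    intro k hk hkk a ha h
    have h1 := (hW2 k hk trivial a ha).1.2.1
    simp only [Bd', if_neg hkk] at h1
    exact h1 (Or.inr h)
  have f5 : ∀ k < τ.1.length, ∀ a < N, ∀ k' < τ.1.length, ∀ a' < N, W2 k a ∈ Up (u' k' a') →
      (k = k' ∧ a = a') ∨ (k', k) ∈ τ.2 := by
    intro k hk a ha k' hk' a' ha' h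
    by_cases e : k = k'
    · subst e
      by_cases e' : a = a'
      · exact Or.inl ⟨rfl, e'⟩
      · exact absurd h ((f1 k hk a ha).2.1 a' ha' (fun h => e' h.symm))
    · by_cases hkk : k' = k0
      · exfalso
        simp only [u', if_pos hkk] at h
        exact f4 k hk (fun h' => e (h'.trans hkk.symm)) a ha ((hu0 a').2 h)
      · right
        refine hbl k' hk' k hk hkk (fun h' => e h'.symm) fun i hi hin => ?_
        simp only [u', if_neg hkk] at h
        exact (f3 k hk a ha i hi).1 ((hu2 k' hk').1 a' h i hi hin)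
  -- the classes
  have hz : ∀ s, Cl (zset up B n x τ N v u' H' s) := by
    intro s
    refine Cl.union (Cl.inter (Cl.union ?_ (Cl.union ?_ hH')) ?_) (Cl.of hF.closed)
    · exact Cl.fin_union (fun k => {W | ∃ a < N, s k a ∧ W ∈ Up (u' k a)}) (fun _ => True)
        τ.1.length fun k _ => Cl.fin_union (fun a => Up (u' k a)) (fun a => s k a) N
          fun a _ => Cl.of (hu' k a)
    · exact Cl.fin_union (fun i => up (x i)) (fun i => PLe τ N s (v i)) n fun i _ => hcl (x i)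
    · exact Cl.fin_inter (fun i => up (x i)) (fun i => PLe τ N (v i) s) n fun i _ => hcl (x i)
  have hzx : ∀ i < n, zset up B n x τ N v u' H' (v i) = up (x i) := by
    intro i hi
    apply Set.Subset.antisymm
    · rintro V (⟨-, h⟩ | h)
      · exact h i hi (ple_refl τ N (v i))
      · exact hBup (x i) h
    · intro V hV
      refine Or.inl ⟨Or.inr (Or.inl ⟨i, hi, ple_refl τ N (v i), hV⟩), fun j hj hle => ?_⟩
      have h1 : x j ≤ x i := by
        refine hsep j hj i hi fun k hk hin => ?_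
        exact (hv j hj k hk 0 hN).1 (hle k hk 0 hN ((hv i hi k hk 0 hN).2 hin))
      exact (hF.le _ _).1 h1 hV
  have hmono : ∀ s s', PLe τ N s s' →
      zset up B n x τ N v u' H' s' ⊆ zset up B n x τ N v u' H' s := by
    rintro s s' hss V (⟨h1, h2⟩ | h)
    · refine Or.inl ⟨?_, fun i hi hle => h2 i hi (ple_trans hle hss)⟩
      rcases h1 with ⟨k, hk, -, a, ha, hs, hV⟩ | ⟨i, hi, hle, hV⟩ | hV
      · exact Or.inl ⟨k, hk, trivial, a, ha, hss k hk a ha hs, hV⟩
      · exact Or.inr (Or.inl ⟨i, hi, ple_trans hss hle, hV⟩)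
      · exact Or.inr (Or.inr hV)
    · exact Or.inr h
  have hpt : ∀ s, Allowed τ N s → ∀ k < τ.1.length, ∀ a < N,
      (W2 k a ∈ zset up B n x τ N v u' H' s ↔ s k a) := by
    intro s hs k hk a ha
    constructor
    · rintro (⟨h1, h2⟩ | h)
      · rcases h1 with ⟨k', hk', -, a', ha', hs', hV⟩ | ⟨i, hi, hle, hV⟩ | hV
        · rcases f5 k hk a ha k' hk' a' ha' hV with ⟨rfl, rfl⟩ | hb
          · exact hs'
          · exact hs _ hb ⟨a', ha', hs'⟩ a ha
        · exact hle k hk a ha ((hv i hi k hk a ha).2 ((f3 k hk a ha i hi).1 hV))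
        · exact absurd hV (f1 k hk a ha).2.2
      · exact absurd (Or.inr h) (f2 k hk a ha)
    · intro hsa
      refine Or.inl ⟨Or.inl ⟨k, hk, trivial, a, ha, hsa, (f1 k hk a ha).1⟩,
        fun i hi hle => ?_⟩
      exact (f3 k hk a ha i hi).2 ((hv i hi k hk a ha).1 (hle k hk a ha hsa))
  have hex : ∀ s, ∃ w : D, up w = zset up B n x τ N v u' H' s := by
    intro s
    by_cases hne : ∃ i < n, PLe τ N (v i) s ∧ up (x i) = ∅
    · obtain ⟨i, hi, hle, he⟩ := hne
      refine ⟨x i, ?_⟩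
      have hBe : Up B = ∅ := Set.subset_empty_iff.1 (he ▸ hBup (x i))
      rw [he]
      symm
      rw [Set.eq_empty_iff_forall_notMem]
      rintro V (⟨-, h⟩ | h)
      · have := h i hi hle
        rw [he] at this
        exact this
      · rw [hBe] at h
        exact h
    · push Not at hne
      obtain ⟨V, hV1, hV2⟩ := exists_join (fun i => up (x i)) (fun i => PLe τ N (v i) s) Z' n
        (fun i _ => hcl (x i)) fun i hi hle => hne i hi hle
      obtain ⟨S, hS, e⟩ := hz s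
      have hmem : V ∈ zset up B n x τ N v u' H' s :=
        Or.inl ⟨Or.inr (Or.inr (hH'.mono hZ' hV1)), hV2⟩
      rw [← e] at hmem
      obtain ⟨f, hf, -⟩ := hmem
      obtain ⟨w, hw⟩ := hF.real S hS ⟨f, Or.inl hf⟩
      refine ⟨w, ?_⟩
      rw [hw, e]
      exact Set.union_eq_self_of_subset_right (fun V hV => Or.inr hV)
  choose w hw using hex
  let wf : ℕ → D := fun j => if j < n then x j else w (v j)
  have hwf : ∀ j, up (wf j) = zset up B n x τ N v u' H' (v j) := by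
    intro j
    by_cases hj : j < n
    · simp only [wf, if_pos hj]
      exact (hzx j hj).symm
    · simp only [wf, if_neg hj]
      exact hw (v j)
  refine ⟨wf, fun i hi => by simp only [wf, if_pos hi], fun j l => ?_⟩
  rw [hF.le, hwf, hwf]
  constructor
  · intro h k hk a ha hva
    exact (hpt (v j) (hall j) k hk a ha).1 (h ((hpt (v l) (hall l) k hk a ha).2 hva))
  · intro h
    exact hmono _ _ h

end Pool.Agent.Lib.MP_d48993_lc.AE.Sound
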