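import Pool.Agent.Lib.MP_d48993_lc.AE.Interfaces

/-!
# Module SYN (helper19): coding of the formulas
-/

set_option autoImplicit false

namespace Pool.Agent.Lib.MP_d48993_lc.AE

namespace Syn

theorem code_inj : ∀ φ ψ : QF, φ.code = ψ.code → φ = ψ := by
  intro φ
  induction φ with
  | le i j =>
    intro ψ h
    cases ψ with
    | le k l =>
      simp only [QF.code] at h
      have h1 := Nat.pair_eq_pair.1 (by omega : Nat.pair i j = Nat.pair k l)
      rw [h1.1, h1.2]
    | eq k l => simp only [QF.code] at h; omega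
    | neg χ => simp only [QF.code] at h; omega
    | and χ ξ => simp only [QF.code] at h; omega
  | eq i j =>
    intro ψ h
    cases ψ with
    | le k l => simp only [QF.code] at h; omega
    | eq k l =>
      simp only [QF.code] at h
      have h1 := Nat.pair_eq_pair.1 (by omega : Nat.pair i j = Nat.pair k l)
      rw [h1.1, h1.2]
    | neg χ => simp only [QF.code] at h; omega
    | and χ ξ => simp only [QF.code] at h; omega
  | neg φ ih =>
    intro ψ h
    cases ψ with
    | le k l => simp only [QF.code] at h; omega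
    | eq k l => simp only [QF.code] at h; omega
    | neg χ =>
      simp only [QF.code] at h
      rw [ih χ (by omega)]
    | and χ ξ => simp only [QF.code] at h; omega
  | and φ χ ih1 ih2 =>
    intro ψ h
    cases ψ with
    | le k l => simp only [QF.code] at h; omega
    | eq k l => simp only [QF.code] at h; omega
    | neg ξ => simp only [QF.code] at h; omega
    | and ξ ζ =>
      simp only [QF.code] at h
      have h1 := Nat.pair_eq_pair.1 (by omega : Nat.pair φ.code χ.code = Nat.pair ξ.code ζ.code)
      rw [ih1 _ h1.1, ih2 _ h1.2]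

theorem code_surj : ∀ c : ℕ, ∃ φ : QF, φ.code = c := by
  intro c
  induction c using Nat.strong_induction_on with
  | _ c ih =>
    have h4 : c = 4 * (c / 4) + c % 4 := by omega
    have h5 : c % 4 < 4 := Nat.mod_lt _ (by norm_num)
    have hp := Nat.pair_unpair (c / 4)
    interval_cases h : c % 4
    · exact ⟨QF.le (c / 4).unpair.1 (c / 4).unpair.2, by simp only [QF.code, hp]; omega⟩
    · exact ⟨QF.eq (c / 4).unpair.1 (c / 4).unpair.2, by simp only [QF.code, hp]; omega⟩
    · obtain ⟨φ, hφ⟩ := ih (c / 4) (by omega)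
      exact ⟨QF.neg φ, by simp only [QF.code, hφ]; omega⟩
    · have h1 := Nat.unpair_left_le (c / 4)
      have h2 := Nat.unpair_right_le (c / 4)
      obtain ⟨φ, hφ⟩ := ih (c / 4).unpair.1 (by omega)
      obtain ⟨ψ, hψ⟩ := ih (c / 4).unpair.2 (by omega)
      exact ⟨QF.and φ ψ, by simp only [QF.code, hφ, hψ, hp]; omega⟩

/-- The formula with code `n`. -/
noncomputable def dec (n : ℕ) : QF := (code_surj n).choose

theorem code_dec (n : ℕ) : (dec n).code = n := (code_surj n).choose_spec

theorem dec_code (φ : QF) : dec φ.code = φ := code_inj _ _ (code_dec _)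

theorem holds_iff (D : Type) [PartialOrder D] (v : ℕ → D) (φ : QF) :
    φ.Holds v ↔ φ.Ev (fun i j => v i ≤ v j) := by
  induction φ with
  | le i j => exact Iff.rfl
  | eq i j => exact le_antisymm_iff
  | neg φ ih => exact not_congr ih
  | and φ ψ ih1 ih2 => exact and_congr ih1 ih2

theorem ev_congr (r r' : ℕ → ℕ → Prop) (φ : QF)
    (h : ∀ i < φ.bd, ∀ j < φ.bd, (r i j ↔ r' i j)) : φ.Ev r ↔ φ.Ev r' := by
  induction φ with
  | le i j =>
    exact h i (Nat.lt_succ_of_le (le_max_left _ _)) j (Nat.lt_succ_of_le (le_max_right _ _))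
  | eq i j =>
    exact and_congr
      (h i (Nat.lt_succ_of_le (le_max_left _ _)) j (Nat.lt_succ_of_le (le_max_right _ _)))
      (h j (Nat.lt_succ_of_le (le_max_right _ _)) i (Nat.lt_succ_of_le (le_max_left _ _)))
  | neg φ ih => exact not_congr (ih h)
  | and φ ψ ih1 ih2 =>
    exact and_congr
      (ih1 fun i hi j hj => h i (lt_of_lt_of_le hi (le_max_left _ _)) j
        (lt_of_lt_of_le hj (le_max_left _ _)))
      (ih2 fun i hi j hj => h i (lt_of_lt_of_le hi (le_max_right _ _)) j
        (lt_of_lt_of_le hj (le_max_right _ _)))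

/-! ### Course of values recursion -/

/-- Recursion over the formulas, from the list of the values of all smaller codes; `x` is a
parameter, `d k i j` the value of an atomic formula (`k = 0`: order, `k = 1`: equality). -/
def step {α σ : Type} (d0 d1 : α → ℕ → σ) (e : σ → σ) (f : σ → σ → σ) (x : α) (l : List σ) :
    Option σ :=
  if l.length % 4 = 0 then some (d0 x (l.length / 4))
  else if l.length % 4 = 1 then some (d1 x (l.length / 4))
  else if l.length % 4 = 2 then (l[l.length / 4]?).map e
  else (l[(l.length / 4).unpair.1]?).bind fun a =>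
    (l[(l.length / 4).unpair.2]?).map fun b => f a b

/-- The recursive function. -/
def rec' {α σ : Type} (d0 d1 : α → ℕ → σ) (e : σ → σ) (f : σ → σ → σ) (x : α) : QF → σ
  | QF.le i j => d0 x (Nat.pair i j)
  | QF.eq i j => d1 x (Nat.pair i j)
  | QF.neg φ => e (rec' d0 d1 e f x φ)
  | QF.and φ ψ => f (rec' d0 d1 e f x φ) (rec' d0 d1 e f x ψ)

theorem step_eq {α σ : Type} (d0 d1 : α → ℕ → σ) (e : σ → σ) (f : σ → σ → σ) (x : α) (n : ℕ) :
    step d0 d1 e f x ((List.range n).map fun m => rec' d0 d1 e f x (dec m)) =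
      some (rec' d0 d1 e f x (dec n)) := by
  have hget : ∀ m < n, ((List.range n).map fun m => rec' d0 d1 e f x (dec m))[m]? =
      some (rec' d0 d1 e f x (dec m)) := by
    intro m hm
    rw [List.getElem?_map, List.getElem?_range hm]
    rfl
  have hc := code_dec n
  unfold step
  rw [List.length_map, List.length_range]
  rcases h : dec n with ⟨i, j⟩ | ⟨i, j⟩ | φ | ⟨φ, ψ⟩ <;> rw [h] at hc <;> simp only [QF.code] at hc
  · rw [if_pos (by omega), show n / 4 = Nat.pair i j by omega]
    rfl
  · rw [if_neg (by omega), if_pos (by omega), show n / 4 = Nat.pair i j by omega]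
    rfl
  · rw [if_neg (by omega), if_neg (by omega), if_pos (by omega),
      show n / 4 = φ.code by omega, hget _ (by omega), dec_code]
    rfl
  · have h1 := Nat.left_le_pair φ.code ψ.code
    have h2 := Nat.right_le_pair φ.code ψ.code
    rw [if_neg (by omega), if_neg (by omega), if_neg (by omega),
      show n / 4 = Nat.pair φ.code ψ.code by omega, Nat.unpair_pair,
      hget _ (by omega), hget _ (by omega), dec_code, dec_code]
    rfl

theorem rec_comp {α σ : Type} [Primcodable α] [Primcodable σ] {d0 d1 : α → ℕ → σ} {e : σ → σ}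
    {f : σ → σ → σ} (h0 : Primrec₂ d0) (h1 : Primrec₂ d1) (he : Primrec e) (hf : Primrec₂ f) :
    Primrec₂ (fun (x : α) (n : ℕ) => rec' d0 d1 e f x (dec n)) := by
  refine Primrec.nat_strong_rec (fun (x : α) (n : ℕ) => rec' d0 d1 e f x (dec n))
    (g := step d0 d1 e f) ?_ (step_eq d0 d1 e f)
  have hl : Primrec (fun p : α × List σ => p.2.length) := Primrec.list_length.comp Primrec.snd
  have h4 : Primrec (fun p : α × List σ => p.2.length / 4) :=
    Primrec.nat_div.comp hl (Primrec.const 4)
  have hm : Primrec (fun p : α × List σ => p.2.length % 4) :=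
    Primrec.nat_mod.comp hl (Primrec.const 4)
  have hm' : ∀ c : ℕ, PrimrecPred (fun p : α × List σ => p.2.length % 4 = c) := fun c =>
    PrimrecRel.comp Primrec.eq hm (Primrec.const c)
  have hu1 : Primrec (fun p : α × List σ => (p.2.length / 4).unpair.1) :=
    Primrec.fst.comp (Primrec.unpair.comp h4)
  have hu2 : Primrec (fun p : α × List σ => (p.2.length / 4).unpair.2) :=
    Primrec.snd.comp (Primrec.unpair.comp h4)
  have hg : ∀ g : α × List σ → ℕ, Primrec g → Primrec (fun p : α × List σ => p.2[g p]?) :=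
    fun g hg => Primrec.list_getElem?.comp Primrec.snd hg
  refine Primrec.ite (hm' 0) (Primrec.option_some.comp (h0.comp Primrec.fst h4)) ?_
  refine Primrec.ite (hm' 1) (Primrec.option_some.comp (h1.comp Primrec.fst h4)) ?_
  refine Primrec.ite (hm' 2) (Primrec.option_map (hg _ h4) (he.comp Primrec.snd).to₂) ?_
  refine Primrec.option_bind (hg _ hu1) ?_
  refine Primrec.option_map (f := fun q : (α × List σ) × σ => q.1.2[(q.1.2.length / 4).unpair.2]?)
    (g := fun q b => f q.2 b) ((hg _ hu2).comp Primrec.fst) ?_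
  exact hf.comp (Primrec.snd.comp Primrec.fst) Primrec.snd

/-! ### The bound -/

theorem bd_eq (φ : QF) : rec' (fun (_ : Unit) n => max n.unpair.1 n.unpair.2 + 1)
    (fun (_ : Unit) n => max n.unpair.1 n.unpair.2 + 1) id max () φ = φ.bd := by
  induction φ with
  | le i j => simp only [rec', QF.bd, Nat.unpair_pair]
  | eq i j => simp only [rec', QF.bd, Nat.unpair_pair]
  | neg φ ih => exact ih
  | and φ ψ ih1 ih2 =>
    simp only [rec', QF.bd]
    rw [ih1, ih2]

theorem bd_comp : ∃ b : ℕ → ℕ, Computable b ∧ ∀ φ : QF, b φ.code = φ.bd := by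
  have hd : Primrec₂ (fun (_ : Unit) (n : ℕ) => max n.unpair.1 n.unpair.2 + 1) :=
    Primrec.succ.comp (Primrec.nat_max.comp
      (Primrec.fst.comp (Primrec.unpair.comp Primrec.snd))
      (Primrec.snd.comp (Primrec.unpair.comp Primrec.snd)))
  have h := rec_comp hd hd Primrec.id Primrec.nat_max
  refine ⟨fun n => rec' (fun (_ : Unit) n => max n.unpair.1 n.unpair.2 + 1)
    (fun (_ : Unit) n => max n.unpair.1 n.unpair.2 + 1) id max () (dec n),
    (h.comp (Primrec.const ()) Primrec.id).to_comp, fun φ => ?_⟩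
  simp only [dec_code]
  exact bd_eq φ

/-! ### Truth -/

theorem mem_prim : PrimrecRel (fun (l : List ℕ) (n : ℕ) => n ∈ l) := by
  have h : PrimrecRel (fun (a b : ℕ) => a = b) := Primrec.eq
  exact PrimrecRel.of_eq h.exists_mem_list fun l n => by simp

theorem ev_eq (l : List ℕ) (φ : QF) : rec' (fun (l : List ℕ) n => decide (n ∈ l))
    (fun (l : List ℕ) n => decide (n ∈ l) && decide (Nat.pair n.unpair.2 n.unpair.1 ∈ l))
    (fun b => !b) (fun a b => a && b) l φ = true ↔ φ.Ev (fun i j => Nat.pair i j ∈ l) := by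
  induction φ with
  | le i j => simp only [rec', QF.Ev, decide_eq_true_eq]
  | eq i j =>
    simp only [rec', QF.Ev, Bool.and_eq_true, decide_eq_true_eq, Nat.unpair_pair]
  | neg φ ih =>
    simp only [rec', QF.Ev]
    rw [← ih]
    simp
  | and φ ψ ih1 ih2 =>
    simp only [rec', QF.Ev]
    rw [← ih1, ← ih2]
    simp

theorem ev_comp : ∃ f : List ℕ × ℕ → Bool, Computable f ∧
    ∀ (l : List ℕ) (φ : QF), f (l, φ.code) = true ↔ φ.Ev (fun i j => Nat.pair i j ∈ l) := by
  have h0 : Primrec₂ (fun (l : List ℕ) (n : ℕ) => decide (n ∈ l)) := by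
    have := mem_prim.decide
    exact this
  have h1 : Primrec₂ (fun (l : List ℕ) (n : ℕ) =>
      decide (n ∈ l) && decide (Nat.pair n.unpair.2 n.unpair.1 ∈ l)) := by
    refine Primrec.and.comp h0 (h0.comp Primrec.fst ?_)
    exact Primrec₂.natPair.comp (Primrec.snd.comp (Primrec.unpair.comp Primrec.snd))
      (Primrec.fst.comp (Primrec.unpair.comp Primrec.snd))
  have h := rec_comp h0 h1 Primrec.not Primrec.and
  refine ⟨fun p => rec' (fun (l : List ℕ) n => decide (n ∈ l))
    (fun (l : List ℕ) n => decide (n ∈ l) && decide (Nat.pair n.unpair.2 n.unpair.1 ∈ l))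
    (fun b => !b) (fun a b => a && b) p.1 (dec p.2), ?_, fun l φ => ?_⟩
  · exact Primrec.to_comp h
  · simp only [dec_code]
    exact ev_eq l φ

end Syn

/-- Module SYN. -/
theorem syn : SynStatement :=
  ⟨Syn.code_inj, Syn.code_surj, Syn.holds_iff, Syn.ev_congr, Syn.bd_comp, Syn.ev_comp⟩

end Pool.Agent.Lib.MP_d48993_lc.AE
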