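import Pool.Agent.Lib.MP_d48993_lc.AE.Interfaces
import Pool.Agent.Lib.MP_d48993_lc.Enum
import Pool.Agent.Lib.MP_d48993_lc.Res
import Pool.Agent.Lib.MP_d48993_lc.Search
import Pool.Agent.Lib.MP_d48993_lc.Red
import Pool.Agent.Lib.MP_d48993_lc.Pi2
import Pool.Agent.Lib.MP_d48993_lc.Ops
import Pool.Agent.Lib.MP_d48993_lc.Cls

/-!
# Module IND: finitely many independent classes between two classes
-/

set_option autoImplicit false

namespace Pool.Agent.Lib.MP_d48993_lc.AE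

open MP_8c048d_lc (pre join RecF)

/-- Finitely many independent classes between `A` and `B`. -/
theorem ind : IndStatement := by
  intro A B hA hB hex N
  obtain ⟨-, B', hB', hBU⟩ := ops joinS A B hA hB
  obtain ⟨X, ⟨f, hf, hfX⟩, hXB⟩ := hex
  have hfB : f ∉ Up B' := fun h => hXB (H84.up_trans (hBU ▸ h : f ∈ Up A ∩ Up B).2 hfX)
  have hBA : Up B' ⊆ Up A := fun W hW => (hBU ▸ hW : W ∈ Up A ∩ Up B).1
  obtain ⟨d, hd, W, hV, hW⟩ := H84.exists_seq enum (res (search red1 redMu) cls) joinS red1 A B' hA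
    hB' hBA ⟨f, hf, hfB⟩
  have hcl : ∀ a, ∃ S, ClosedC S ∧ Up S = Up (H84.P2 d a) := fun a =>
    pi2 redMu joinS (fun x F => d (a, x) F) (hd.comp₁ ((Computable.const a).pair Computable.id))
  choose u hu huU using hcl
  have hUA : ∀ a, Up (u a) ⊆ Up A := by
    intro a Y hY
    rw [huU a] at hY
    obtain ⟨g, hg, hgY⟩ := hY
    exact H84.up_trans (hV a hg) hgY
  refine ⟨u, W, fun a => ⟨hu a, hUA a⟩, fun a _ => ⟨?_, fun h => ?_, fun b _ hb h => ?_⟩⟩
  · rw [huU a]
    exact (hW a).2.1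
  · apply (hW a).1
    rw [hBU]
    refine ⟨hUA a ?_, h⟩
    rw [huU a]
    exact (hW a).2.1
  · rw [huU b] at h
    exact (hW a).2.2 b hb h

end Pool.Agent.Lib.MP_d48993_lc.AE
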