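import Pool.Agent.Lib.MP_d48993_lc.AE.Interfaces

/-!
# Module FIN (helper94): the finite model property
-/

set_option autoImplicit false

namespace Pool.Agent.Lib.MP_d48993_lc.AE

namespace Fin

/-- the truth of a formula depends on the relation below the bound only -/
theorem ev_congr (r r' : ℕ → ℕ → Prop) (φ : QF)
    (h : ∀ i < φ.bd, ∀ j < φ.bd, (r i j ↔ r' i j)) : φ.Ev r ↔ φ.Ev r' := by
  induction φ with
  | le i j =>
    exact h i (Nat.lt_succ_of_le (le_max_left _ _)) j (Nat.lt_succ_of_le (le_max_right _ _))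
  | eq i j =>
    exact and_congr
      (h i (Nat.lt_succ_of_le (le_max_left _ _)) j (Nat.lt_succ_of_le (le_max_right _ _)))
      (h j (Nat.lt_succ_of_le (le_max_right _ _)) i (Nat.lt_succ_of_le (le_max_left _ _)))
  | neg φ ih => exact not_congr (ih h)
  | and φ ψ ih1 ih2 =>
    exact and_congr
      (ih1 fun i hi j hj => h i (lt_of_lt_of_le hi (le_max_left _ _)) j
        (lt_of_lt_of_le hj (le_max_left _ _)))
      (ih2 fun i hi j hj => h i (lt_of_lt_of_le hi (le_max_right _ _)) j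
        (lt_of_lt_of_le hj (le_max_right _ _)))

/-- for every pair of numbers below `K` a point of the region which separates the pair,
if there is one -/
theorem exists_points (K : ℕ) (Ω : ℕ → Type) (v : ℕ → (k : ℕ) → Ω k → Prop)
    (hne : ∀ k, Nonempty (Ω k)) :
    ∃ g : (k : ℕ) → ℕ → Ω k, ∀ k, ∀ i < K, ∀ j < K, (∃ a, v j k a ∧ ¬ v i k a) →
      ∃ c < K * K, v j k (g k c) ∧ ¬ v i k (g k c) := by
  classical
  have h0 : ∀ k i j : ℕ, ∃ a : Ω k, (∃ b, v j k b ∧ ¬ v i k b) → v j k a ∧ ¬ v i k a := by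
    intro k i j
    by_cases h : ∃ b, v j k b ∧ ¬ v i k b
    · obtain ⟨b, hb⟩ := h
      exact ⟨b, fun _ => hb⟩
    · exact ⟨Classical.choice (hne k), fun h' => absurd h' h⟩
  choose g0 hg0 using h0
  refine ⟨fun k c => g0 k (c / K) (c % K), ?_⟩
  intro k i hi j hj hex
  have hK : 0 < K := lt_of_le_of_lt (Nat.zero_le _) hi
  have e1 : (i * K + j) / K = i := by
    rw [Nat.mul_comm, Nat.mul_add_div hK, Nat.div_eq_of_lt hj, Nat.add_zero]
  have e2 : (i * K + j) % K = j := by
    rw [Nat.mul_comm, Nat.mul_add_mod, Nat.mod_eq_of_lt hj]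
  refine ⟨i * K + j, ?_, ?_⟩
  · calc i * K + j < i * K + K := Nat.add_lt_add_left hj _
      _ = (i + 1) * K := by ring
      _ ≤ K * K := Nat.mul_le_mul_right K hi
  · simp only [e1, e2]
    exact hg0 k i j hex

end Fin

/-- Module FIN. -/
theorem fin : FinStatement := by
  intro τ n φ Ω v _ hne hal hin hev
  obtain ⟨g, hg⟩ := Fin.exists_points (max n φ.bd) Ω v hne
  refine ⟨max n φ.bd * max n φ.bd * τ.1.length + 1, Nat.succ_pos _, le_refl _,
    fun j k a => v j k (g k a), ?_, ?_, ?_⟩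
  · intro j p hp h a _
    obtain ⟨b, _, hb⟩ := h
    exact hal j p hp ⟨g p.1 b, hb⟩ (g p.2 a)
  · intro i hi k hk a _
    exact hin i hi k hk (g k a)
  · refine (Fin.ev_congr _ _ φ ?_).1 hev
    intro i hi j hj
    constructor
    · intro h k hk a _
      exact h k hk (g k a)
    · intro h k hk a hja
      by_contra hia
      obtain ⟨c, hc, hjc, hic⟩ := hg k i (lt_of_lt_of_le hi (le_max_right _ _)) j
        (lt_of_lt_of_le hj (le_max_right _ _)) ⟨a, hja, hia⟩
      refine hic (h k hk c ?_ hjc)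
      have hlen : 1 ≤ τ.1.length := lt_of_le_of_lt (Nat.zero_le _) hk
      have h1 : max n φ.bd * max n φ.bd * 1 ≤ max n φ.bd * max n φ.bd * τ.1.length :=
        Nat.mul_le_mul_left _ hlen
      rw [Nat.mul_one] at h1
      exact lt_of_lt_of_le hc (le_trans h1 (Nat.le_succ _))

end Pool.Agent.Lib.MP_d48993_lc.AE
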