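import Pool.Agent.Lib.MP_d48993_lc.AE.Interfaces
import Pool.Agent.Lib.MP_d48993_lc.B0
import Pool.Agent.Lib.MP_d48993_lc.Cls
import Pool.Agent.Lib.MP_d48993_lc.Enum
import Pool.Agent.Lib.MP_d48993_lc.Gen
import Pool.Agent.Lib.MP_d48993_lc.H46.Emb
import Pool.Agent.Lib.MP_d48993_lc.Red

/-!
# Module FRAME: both lattices are frames
-/

set_option autoImplicit false

namespace Pool.Agent.Lib.MP_d48993_lc.AE

namespace Frame

open MP_8c048d_lc (pre join RecF Sig Clo Cop)

theorem up_empty : Up ∅ = ∅ := by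
  ext W
  simp [Up]

theorem closed_empty : ClosedC ∅ := by
  have h : Cop (fun (_ : Unit) (_ : ℕ → ℕ) => False) :=
    Cop.of_computable (P := fun _ : Unit => False)
      ⟨fun _ => isFalse id, (Computable.const false).of_eq fun _ => by simp⟩
  exact Clo.congr (Clo.of_cop h) fun _ F => by simp

theorem red_zero (G : ℕ → ℕ) : Red (fun _ => 0) G :=
  red1 (fun _ _ => 0) (RecF.of_computable (Computable.const 0)) G

/-- The upward closure of a degree of Cantor space. -/
noncomputable def upC (a : PwCantor) : Set (ℕ → ℕ) := Up (ofAntisymmetrization (· ≤ ·) a).1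

/-- The upward closure of a degree of Baire space. -/
noncomputable def upB (a : PwBaire) : Set (ℕ → ℕ) := Up (ofAntisymmetrization (· ≤ ·) a).1

theorem upC_le (a b : PwCantor) : a ≤ b ↔ upC b ⊆ upC a := by
  rw [← ofAntisymmetrization_le_ofAntisymmetrization_iff]
  exact H84.muchnik_iff _ _

theorem upB_le (a b : PwBaire) : a ≤ b ↔ upB b ⊆ upB a := by
  rw [← ofAntisymmetrization_le_ofAntisymmetrization_iff]
  exact H84.muchnik_iff _ _

theorem upC_mk (P : CantorPi) : upC (toAntisymmetrization (· ≤ ·) P) = Up P.1 := by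
  have e := toAntisymmetrization_ofAntisymmetrization (· ≤ ·)
    (toAntisymmetrization (· ≤ ·) P : PwCantor)
  have h1 : ofAntisymmetrization (· ≤ ·) (toAntisymmetrization (· ≤ ·) P : PwCantor) ≤ P := by
    rw [← toAntisymmetrization_le_toAntisymmetrization_iff, e]
  have h2 : P ≤ ofAntisymmetrization (· ≤ ·) (toAntisymmetrization (· ≤ ·) P : PwCantor) := by
    rw [← toAntisymmetrization_le_toAntisymmetrization_iff, e]
  exact Set.Subset.antisymm ((H84.muchnik_iff _ _).1 h2) ((H84.muchnik_iff _ _).1 h1)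

theorem upB_mk (P : BairePi) : upB (toAntisymmetrization (· ≤ ·) P) = Up P.1 := by
  have e := toAntisymmetrization_ofAntisymmetrization (· ≤ ·)
    (toAntisymmetrization (· ≤ ·) P : PwBaire)
  have h1 : ofAntisymmetrization (· ≤ ·) (toAntisymmetrization (· ≤ ·) P : PwBaire) ≤ P := by
    rw [← toAntisymmetrization_le_toAntisymmetrization_iff, e]
  have h2 : P ≤ ofAntisymmetrization (· ≤ ·) (toAntisymmetrization (· ≤ ·) P : PwBaire) := by
    rw [← toAntisymmetrization_le_toAntisymmetrization_iff, e]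
  exact Set.Subset.antisymm ((H84.muchnik_iff _ _).1 h2) ((H84.muchnik_iff _ _).1 h1)

/-- Cantor space: any universal class serves as `B`. -/
theorem frameC (hCls : ClsStatement) (hEmb : EmbStatement) {B : Set (ℕ → ℕ)} (hne : B.Nonempty)
    (hB : ClosedC B) (hBin : Bin B)
    (huni : ∀ P : Set (ℕ → ℕ), P.Nonempty → ClosedC P → Bin P → Up B ⊆ Up P) :
    IsFrame PwCantor B upC where
  closed := hB
  le := upC_le
  rep := fun a => by
    obtain ⟨h1, h2, h3⟩ := (hCls.2 _).1 (ofAntisymmetrization (· ≤ ·) a).2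
    exact ⟨_, h2, (Set.union_eq_left.2 (huni _ h1 h2 h3)).symm⟩
  real := fun S hS _ => by
    obtain ⟨Q, h1, h2, h3, h4⟩ := hEmb S B hS hne hB hBin
    exact ⟨toAntisymmetrization (· ≤ ·) (⟨Q, (hCls.2 Q).2 ⟨h1, h2, h3⟩⟩ : CantorPi),
      (upC_mk _).trans h4⟩

/-- Baire space. -/
theorem frameB (hCls : ClsStatement) : IsFrame PwBaire ∅ upB where
  closed := closed_empty
  le := upB_le
  rep := fun a => by
    obtain ⟨_, h2⟩ := (hCls.1 _).1 (ofAntisymmetrization (· ≤ ·) a).2
    exact ⟨_, h2, by rw [up_empty, Set.union_empty]; rfl⟩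
  real := fun S hS hne => by
    rw [Set.union_empty] at hne
    refine ⟨toAntisymmetrization (· ≤ ·) (⟨S, (hCls.1 S).2 ⟨hne, hS⟩⟩ : BairePi), ?_⟩
    rw [upB_mk, up_empty, Set.union_empty]

end Frame

open Pool.Agent.Lib.MP_d48993_lc.AE.Frame in
/-- Module FRAME. -/
theorem frame (hT : TopStatement) : FrameStatement := by
  have hCls : ClsStatement := cls
  refine ⟨?_, upB, frameB hCls⟩
  obtain ⟨B, hne, hB, hBin, huni⟩ := hT
  obtain ⟨B0, hne0, hB0, hBin0, hgen⟩ := b0 enum
  have hG : ∀ G, IsGeneric G → G ∉ Up B := fun G h1 h2 =>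
    hgen G h1 (huni B0 hne0 hB0 hBin0 h2)
  refine ⟨B, upC, frameC hCls (H46.emb red1 redMu hCls) hne hB hBin huni, hne, hBin, hG, ?_⟩
  rintro ⟨f, hf, hf0⟩
  obtain ⟨G, hG1, _⟩ := gen
  exact hG G hG1 ⟨f, hf, hf0.trans (red_zero G)⟩

end Pool.Agent.Lib.MP_d48993_lc.AE
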