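import Pool.Agent.Lib.MP_d48993_lc.AE.Interfaces
import Pool.Agent.Lib.MP_d48993_lc.Cls
import Pool.Agent.Lib.MP_d48993_lc.Red
import Pool.Agent.Lib.MP_d48993_lc.Search

/-!
Module TOP: a universal class of Cantor space.
-/

set_option autoImplicit false

namespace Pool.Agent.Lib.MP_d48993_lc.AE.Top

open MP_8c048d_lc (pre join RecF Sig Clo Cop)
open Nat.Partrec (Code)

/-! ### The binary strings of a given length -/

/-- The list of the binary strings of length `s`. -/
def L (s : ℕ) : List (List ℕ) :=
  Nat.rec [[]] (fun _ l => l.flatMap fun τ => [0 :: τ, 1 :: τ]) s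

theorem L_comp : Computable L := by
  have h : Primrec L := by
    refine Primrec.nat_rec₁ [[]] (f := fun (_ : ℕ) (l : List (List ℕ)) =>
      l.flatMap fun τ => [0 :: τ, 1 :: τ]) ?_
    refine Primrec.list_flatMap Primrec.snd ?_
    have e0 : Primrec (fun p : (ℕ × List (List ℕ)) × List ℕ => 0 :: p.2) :=
      Primrec.list_cons.comp (Primrec.const 0) Primrec.snd
    have e1 : Primrec (fun p : (ℕ × List (List ℕ)) × List ℕ => 1 :: p.2) :=
      Primrec.list_cons.comp (Primrec.const 1) Primrec.snd
    exact (Primrec.list_cons.comp e0 (Primrec.list_cons.comp e1 (Primrec.const []))).to₂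
  exact h.to_comp

theorem mem_L : ∀ (s : ℕ) (τ : List ℕ), τ ∈ L s ↔ τ.length = s ∧ ∀ n ∈ τ, n < 2 := by
  intro s
  induction s with
  | zero =>
    intro τ
    have : L 0 = [[]] := rfl
    rw [this, List.mem_singleton]
    constructor
    · rintro rfl; simp
    · rintro ⟨h, -⟩; exact List.length_eq_zero_iff.1 h
  | succ s ih =>
    intro τ
    have : L (s + 1) = (L s).flatMap fun τ => [0 :: τ, 1 :: τ] := rfl
    rw [this, List.mem_flatMap]
    constructor
    · rintro ⟨ρ, hρ, hτ⟩
      obtain ⟨h1, h2⟩ := (ih ρ).1 hρ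
      simp only [List.mem_cons, List.not_mem_nil, or_false] at hτ
      rcases hτ with rfl | rfl
      · refine ⟨by simp [h1], ?_⟩
        intro n hn
        rcases List.mem_cons.1 hn with rfl | hn
        · omega
        · exact h2 n hn
      · refine ⟨by simp [h1], ?_⟩
        intro n hn
        rcases List.mem_cons.1 hn with rfl | hn
        · omega
        · exact h2 n hn
    · rintro ⟨h1, h2⟩
      cases τ with
      | nil => simp at h1
      | cons a ρ =>
        refine ⟨ρ, (ih ρ).2 ⟨by simpa using h1, fun n hn => h2 n (List.mem_cons_of_mem _ hn)⟩, ?_⟩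
        have := h2 a List.mem_cons_self
        have h3 : a = 0 ∨ a = 1 := by omega
        rcases h3 with rfl | rfl <;> simp

/-! ### Dying subtrees -/

/-- The subtree of `T` above `σ` is dead at level `s`. -/
def Dead (T : List ℕ → Prop) (σ : List ℕ) (s : ℕ) : Prop :=
  ∀ j < (L s).length, ¬ T (σ ++ (L s).getD j [])

theorem dead_iff {T : List ℕ → Prop} {σ : List ℕ} {s : ℕ} :
    Dead T σ s ↔ ∀ τ : List ℕ, τ.length = s → (∀ n ∈ τ, n < 2) → ¬ T (σ ++ τ) := by
  constructor
  · intro h τ h1 h2
    obtain ⟨j, hj, hj'⟩ := List.getElem_of_mem ((mem_L s τ).2 ⟨h1, h2⟩)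
    have := h j hj
    rwa [List.getD_eq_getElem?_getD, List.getElem?_eq_getElem hj, Option.getD_some, hj'] at this
  · intro h j hj
    rw [List.getD_eq_getElem?_getD, List.getElem?_eq_getElem hj, Option.getD_some]
    obtain ⟨h1, h2⟩ := (mem_L s _).1 (List.getElem_mem hj)
    exact h _ h1 h2

theorem dead_comp {T : List ℕ → Prop} (hT : ComputablePred T) :
    ComputablePred (fun p : List ℕ × ℕ => Dead T p.1 p.2) := by
  have e0 : Computable (fun p : (List ℕ × ℕ) × ℕ => p.1.1 ++ (L p.1.2).getD p.2 []) := by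
    refine Computable.list_append.comp (Computable.fst.comp Computable.fst) ?_
    exact (Primrec.list_getD (α := List ℕ) []).to_comp.comp
      (L_comp.comp (Computable.snd.comp Computable.fst)) Computable.snd
  have e1 : Cop (fun (p : (List ℕ × ℕ) × ℕ) (_ : ℕ → ℕ) =>
      T (p.1.1 ++ (L p.1.2).getD p.2 [])) :=
    Cop.of_recF (RecF.of_computable e0) hT
  exact comp_of_cop (Cop.ball (P := fun (p : List ℕ × ℕ) j (_ : ℕ → ℕ) =>
    ¬ T (p.1 ++ (L p.2).getD j [])) e1.not
    (Computable.list_length.comp (L_comp.comp Computable.snd)))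

/-- The subtree above `σ` is infinite. -/
def Alive (T : List ℕ → Prop) (σ : List ℕ) : Prop := ∀ s, ¬ Dead T σ s

theorem Dead.mono {T : List ℕ → Prop} (hT : ∀ σ τ, σ <+: τ → T τ → T σ) {σ : List ℕ} {s s' : ℕ}
    (h : Dead T σ s) (hs : s ≤ s') : Dead T σ s' := by
  rw [dead_iff] at h ⊢
  intro τ h1 h2 h3
  refine h (τ.take s) (by rw [List.length_take]; omega)
    (fun n hn => h2 n (List.mem_of_mem_take hn)) (hT _ _ ?_ h3)
  exact (List.prefix_append_right_inj σ).2 (List.take_prefix _ _)

theorem alive_child {T : List ℕ → Prop} (hT : ∀ σ τ, σ <+: τ → T τ → T σ) {σ : List ℕ}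
    (h : Alive T σ) {s : ℕ} {i : ℕ} (hi : i < 2) (hd : Dead T (σ ++ [i]) s) :
    Alive T (σ ++ [1 - i]) := by
  intro s' hs'
  refine h (max s s' + 1) ?_
  rw [dead_iff]
  intro τ h1 h2 h3
  cases τ with
  | nil => simp at h1
  | cons a ρ =>
    have hl : ρ.length = max s s' := by simpa using h1
    have hρ : ∀ n ∈ ρ, n < 2 := fun n hn => h2 n (List.mem_cons_of_mem _ hn)
    have ha := h2 a List.mem_cons_self
    have e : σ ++ a :: ρ = (σ ++ [a]) ++ ρ := by simp
    rw [e] at h3
    by_cases hai : a = i
    · subst hai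
      exact (dead_iff.1 (hd.mono hT (le_max_left s s'))) ρ hl hρ h3
    · have : a = 1 - i := by omega
      subst this
      exact (dead_iff.1 (Dead.mono hT hs' (le_max_right s s'))) ρ hl hρ h3

theorem Alive.mem {T : List ℕ → Prop} {σ : List ℕ} (h : Alive T σ) : T σ := by
  by_contra hn
  refine h 0 ?_
  rw [dead_iff]
  intro τ h1 _ h3
  rw [List.length_eq_zero_iff.1 h1, List.append_nil] at h3
  exact hn h3

/-! ### The child that dies first -/

open Classical in
/-- The child of `σ` that is dead at level `s`. -/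
noncomputable def kill (T : List ℕ → Prop) (n s : ℕ) : Option ℕ :=
  if Dead T (Denumerable.ofNat (List ℕ) n ++ [0]) s then some 0
  else if Dead T (Denumerable.ofNat (List ℕ) n ++ [1]) s then some 1 else none

theorem kill_comp {T : List ℕ → Prop} (hT : ComputablePred T) : Computable₂ (kill T) := by
  have hd : ∀ i : ℕ, ComputablePred (fun p : ℕ × ℕ =>
      Dead T (Denumerable.ofNat (List ℕ) p.1 ++ [i]) p.2) := by
    intro i
    refine comp_of_cop ((Cop.of_computable (dead_comp hT)).comp
      (f := fun p : ℕ × ℕ => (Denumerable.ofNat (List ℕ) p.1 ++ [i], p.2)) ?_)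
    refine Computable.pair (Computable.list_append.comp ?_ (Computable.const [i])) Computable.snd
    exact (Primrec.ofNat (List ℕ)).to_comp.comp Computable.fst
  obtain ⟨f0, h0, e0⟩ := ComputablePred.computable_iff.1 (hd 0)
  obtain ⟨f1, h1, e1⟩ := ComputablePred.computable_iff.1 (hd 1)
  have hc : Computable (fun p : ℕ × ℕ =>
      bif f0 p then (some 0 : Option ℕ) else bif f1 p then (some 1) else none) :=
    Computable.cond h0 (Computable.const (some 0))
      (Computable.cond h1 (Computable.const (some 1)) (Computable.const none))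
  refine hc.of_eq fun p => ?_
  have q0 := congrFun e0 p
  have q1 := congrFun e1 p
  simp only [eq_iff_iff] at q0 q1
  unfold kill
  cases hf0 : f0 p with
  | true => rw [if_pos (q0.2 hf0)]; rfl
  | false =>
    rw [if_neg (fun hh => by have := q0.1 hh; rw [hf0] at this; simp at this)]
    cases hf1 : f1 p with
    | true => rw [if_pos (q1.2 hf1)]; rfl
    | false =>
      rw [if_neg (fun hh => by have := q1.1 hh; rw [hf1] at this; simp at this)]
      rfl

/-! ### The class -/

/-- The class: `f m < 2` and `f m` is not the value of the `m`-th computation. -/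
def B : Set (ℕ → ℕ) :=
  {f | ∀ z : ℕ × ℕ, f z.1 < 2 ∧
    ¬ Code.evaln z.2 (Denumerable.ofNat Code z.1.unpair.1) z.1.unpair.2 = some (f z.1)}

theorem B_closed : ClosedC B := by
  have lt2 : ComputablePred (fun n : ℕ => n < 2) :=
    PrimrecPred.computablePred (PrimrecRel.comp Primrec.nat_lt Primrec.id (Primrec.const 2))
  have hat : RecF (fun (z : Unit × (ℕ × ℕ)) (F : ℕ → ℕ) => F z.2.1) :=
    RecF.at (Computable.fst.comp Computable.snd)
  have e1 : Cop (fun (z : Unit × (ℕ × ℕ)) (F : ℕ → ℕ) => F z.2.1 < 2) := Cop.of_recF hat lt2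
  have e2 : Cop (fun (z : Unit × (ℕ × ℕ)) (F : ℕ → ℕ) =>
      Code.evaln z.2.2 (Denumerable.ofNat Code z.2.1.unpair.1) z.2.1.unpair.2 =
        some (F z.2.1)) := by
    refine Cop.of_recF (φ := fun (z : Unit × (ℕ × ℕ)) (F : ℕ → ℕ) =>
      (Code.evaln z.2.2 (Denumerable.ofNat Code z.2.1.unpair.1) z.2.1.unpair.2,
        some (F z.2.1))) ?_
      (p := fun p : Option ℕ × Option ℕ => p.1 = p.2)
      (PrimrecPred.computablePred (PrimrecRel.comp Primrec.eq Primrec.fst Primrec.snd))
    refine (RecF.of_computable ?_).pair (hat.comp Computable.option_some)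
    have hu : Primrec (fun z : Unit × (ℕ × ℕ) => z.2.1.unpair) :=
      Primrec.unpair.comp (Primrec.fst.comp Primrec.snd)
    have h : Primrec (fun z : Unit × (ℕ × ℕ) =>
        (((z.2.2, Denumerable.ofNat Code z.2.1.unpair.1), z.2.1.unpair.2) : (ℕ × Code) × ℕ)) :=
      ((Primrec.snd.comp Primrec.snd).pair ((Primrec.ofNat Code).comp
        (Primrec.fst.comp hu))).pair (Primrec.snd.comp hu)
    exact (Code.primrec_evaln.comp h).to_comp
  exact Clo.all (P := fun (_ : Unit) (z : ℕ × ℕ) (F : ℕ → ℕ) => F z.1 < 2 ∧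
    ¬ Code.evaln z.2 (Denumerable.ofNat Code z.1.unpair.1) z.1.unpair.2 = some (F z.1))
    (Clo.of_cop (e1.and e2.not))

theorem B_nonempty : B.Nonempty := by
  classical
  refine ⟨fun m => if ∃ k, Code.evaln k (Denumerable.ofNat Code m.unpair.1) m.unpair.2 = some 0
    then 1 else 0, ?_⟩
  rintro ⟨m, k⟩
  simp only
  constructor
  · split_ifs <;> omega
  · intro hv
    split_ifs at hv with h
    · obtain ⟨k', hk'⟩ := h
      have h1 := Code.evaln_sound (show 1 ∈ _ from hv)
      have h2 := Code.evaln_sound (show 0 ∈ _ from hk')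
      have := Part.mem_unique h1 h2
      omega
    · exact h ⟨k, hv⟩

/-- Every member of the class computes a path of every infinite computable binary tree. -/
theorem B_path {T : List ℕ → Prop} (hT : IsCompTree T) (ha : Alive T []) {f : ℕ → ℕ}
    (hf : f ∈ B) : ∃ F ∈ paths T, Red F f := by
  obtain ⟨c, hc⟩ := Code.exists_code.1 (Partrec.nat_iff.1 (Partrec.rfindOpt (kill_comp hT.1)))
  -- the number asked at `σ`
  let m : List ℕ → ℕ := fun σ => Nat.pair (Encodable.encode c) (Encodable.encode σ)
  have hm : Computable m :=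
    Primrec₂.natPair.to_comp.comp (Computable.const _) Computable.encode
  have hstep : ∀ σ, Alive T σ → Alive T (σ ++ [f (m σ)]) := by
    intro σ hσ
    by_contra hn
    unfold Alive at hn
    push Not at hn
    obtain ⟨s, hs⟩ := hn
    have hlt : f (m σ) < 2 := (hf (m σ, 0)).1
    -- the search terminates
    have hk : ∃ s, (kill T (Encodable.encode σ) s).isSome := by
      refine ⟨s, ?_⟩
      unfold kill
      rw [Denumerable.ofNat_encode]
      rcases (show f (m σ) = 0 ∨ f (m σ) = 1 by omega) with h | h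
      · rw [h] at hs
        rw [if_pos hs]; rfl
      · rw [h] at hs
        split_ifs <;> rfl
    obtain ⟨s1, hs1⟩ := hk
    obtain ⟨v, hv⟩ := Option.isSome_iff_exists.1 hs1
    have hd : (Nat.rfindOpt fun s => kill T (Encodable.encode σ) s).Dom := by
      rw [Nat.rfindOpt_dom]
      exact ⟨s1, v, hv⟩
    obtain ⟨b, hb⟩ := Part.dom_iff_mem.1 hd
    obtain ⟨s2, hs2⟩ := Nat.rfindOpt_spec hb
    -- `b` is the value of the computation, hence `f (m σ) ≠ b`
    have hce : b ∈ c.eval (Encodable.encode σ) := by
      rw [hc]; exact hb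
    obtain ⟨k, hk⟩ := Code.evaln_complete.1 hce
    have hne : f (m σ) ≠ b := by
      intro h
      have := (hf (m σ, k)).2
      simp only [m, Nat.unpair_pair, Denumerable.ofNat_encode] at this
      apply this
      have h' : f (Nat.pair (Encodable.encode c) (Encodable.encode σ)) = b := h
      rw [h']
      exact hk
    -- `σ ++ [b]` is dead, so the other child is alive
    have hbd : b < 2 ∧ Dead T (σ ++ [b]) s2 := by
      have : kill T (Encodable.encode σ) s2 = some b := hs2
      unfold kill at this
      rw [Denumerable.ofNat_encode] at this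
      split_ifs at this with h1 h2
      · rw [Option.some_inj] at this
        subst this
        exact ⟨by omega, h1⟩
      · rw [Option.some_inj] at this
        subst this
        exact ⟨by omega, h2⟩
    have := alive_child hT.2 hσ hbd.1 hbd.2
    have he : 1 - b = f (m σ) := by omega
    rw [he] at this
    exact this s hs
  -- iterate
  have hR : Cop (fun (p : List ℕ × List ℕ) F => p.2 = p.1 ++ [F (m p.1)]) := by
    have h1 : RecF (fun (p : List ℕ × List ℕ) (F : ℕ → ℕ) => (p.2, p.1 ++ [F (m p.1)])) := by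
      refine (RecF.of_computable Computable.snd).pair ?_
      have h2 : RecF (fun (p : List ℕ × List ℕ) (F : ℕ → ℕ) => (p.1, F (m p.1))) :=
        (RecF.of_computable Computable.fst).pair (RecF.at (hm.comp Computable.fst))
      refine RecF.comp (g := fun q : List ℕ × ℕ => q.1 ++ [q.2]) ?_ h2
      exact Computable.list_concat
    exact Cop.of_recF h1 (p := fun q : List ℕ × List ℕ => q.1 = q.2)
      (PrimrecPred.computablePred (PrimrecRel.comp Primrec.eq Primrec.fst Primrec.snd))
  obtain ⟨A, hA0, hA1, hA2⟩ := search red1 redMu (List ℕ) (fun σ τ F => τ = σ ++ [F (m σ)]) hR f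
    (Alive T) [] ha (fun σ _ => ⟨_, rfl⟩) (fun σ τ hσ hτ => by rw [hτ]; exact hstep σ hσ)
  have hal : ∀ n, Alive T (A n) := by
    intro n
    induction n with
    | zero => rw [hA0]; exact ha
    | succ n ih => rw [hA1 n]; exact hstep _ ih
  have hout : RecF (fun (p : ℕ × List ℕ) (_ : ℕ → ℕ) => p.2.getD p.1 0) :=
    RecF.of_computable ((Primrec.list_getD 0).to_comp.comp Computable.snd Computable.fst)
  have hred := hA2 _ hout
  refine ⟨fun n => f (m (A n)), ?_, ?_⟩
  · intro k
    have : A k = (List.range k).map fun n => f (m (A n)) := by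
      induction k with
      | zero => rw [hA0]; rfl
      | succ k ih => rw [hA1 k, List.range_succ, List.map_append, ← ih]; rfl
    rw [← this]
    exact (hal k).mem
  · have hlen : ∀ n, (A n).length = n := by
      intro n
      induction n with
      | zero => rw [hA0]; rfl
      | succ n ih => rw [hA1 n, List.length_append, ih]; rfl
    have e : (fun n => f (m (A n))) = fun j => (A (j + 1)).getD j 0 := by
      funext n
      have h1 : (A (n + 1)).getD n 0 = f (m (A n)) := by
        rw [hA1 n, List.getD_eq_getElem?_getD, List.getElem?_append_right (by rw [hlen]), hlen]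
        simp
      exact h1.symm
    rw [e]
    exact hred

end Pool.Agent.Lib.MP_d48993_lc.AE.Top

namespace Pool.Agent.Lib.MP_d48993_lc.AE

open MP_8c048d_lc (pre join RecF Sig Clo Cop)

/-- Module TOP. -/
theorem top : TopStatement := by
  refine ⟨Top.B, Top.B_nonempty, Top.B_closed, fun f hf n => (hf (n, 0)).1, ?_⟩
  intro P hne hP hb F hF
  obtain ⟨f, hf, hr⟩ := hF
  obtain ⟨-, T, hT, hbT, rfl⟩ := (cls.2 P).2 ⟨hne, hP, hb⟩
  have ha : Top.Alive T [] := by
    obtain ⟨g, hg⟩ := hne
    intro s hs
    rw [Top.dead_iff] at hs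
    refine hs ((List.range s).map g) (by simp) (hbT _ (hg s)) ?_
    rw [List.nil_append]
    exact hg s
  obtain ⟨G, hG, hG'⟩ := Top.B_path hT ha hf
  exact ⟨G, hG, hG'.trans hr⟩

end Pool.Agent.Lib.MP_d48993_lc.AE
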