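import Pool.Agent.Lib.MP_d48993_lc.Defs

/-!
# Sentences `∀ x ∃ y φ` of the language of partial orders
-/

set_option autoImplicit false

namespace Pool.Agent.Lib.MP_d48993_lc

/-- Quantifier-free formulas of the language of partial orders, with variables `0, 1, 2, ...`. -/
inductive QF : Type
  | le : ℕ → ℕ → QF
  | eq : ℕ → ℕ → QF
  | neg : QF → QF
  | and : QF → QF → QF

/-- The code number of a formula (a bijection onto the natural numbers). -/
def QF.code : QF → ℕ
  | QF.le i j => 4 * Nat.pair i j
  | QF.eq i j => 4 * Nat.pair i j + 1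
  | QF.neg φ => 4 * φ.code + 2
  | QF.and φ ψ => 4 * Nat.pair φ.code ψ.code + 3

/-- Truth of a formula in a partial order, under the assignment `v` of the variables. -/
def QF.Holds {D : Type} [PartialOrder D] (v : ℕ → D) : QF → Prop
  | QF.le i j => v i ≤ v j
  | QF.eq i j => v i = v j
  | QF.neg φ => ¬ φ.Holds v
  | QF.and φ ψ => φ.Holds v ∧ ψ.Holds v

/-- The sentence: for all values of the variables `0, ..., n - 1` there are values of all other
variables for which `φ` is true. -/
def AETrue (D : Type) [PartialOrder D] (n : ℕ) (φ : QF) : Prop :=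
  ∀ x : ℕ → D, ∃ v : ℕ → D, (∀ i < n, v i = x i) ∧ φ.Holds v

end Pool.Agent.Lib.MP_d48993_lc
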