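import Pool.Agent.Lib.MP_d48993_lc.AE.Interfaces
import Pool.Agent.Lib.MP_d48993_lc.Final
import Pool.Agent.Lib.MP_d48993_lc.Enum
import Pool.Agent.Lib.MP_d48993_lc.Red
import Pool.Agent.Lib.MP_d48993_lc.Search
import Pool.Agent.Lib.MP_d48993_lc.Cls
import Pool.Agent.Lib.MP_d48993_lc.Trees
import Pool.Agent.Lib.MP_d48993_lc.Ops
import Pool.Agent.Lib.MP_d48993_lc.Pi2
import Pool.Agent.Lib.MP_d48993_lc.Step5
import Pool.Agent.Lib.MP_d48993_lc.Theta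
import Pool.Agent.Lib.MP_d48993_lc.Res
import Pool.Agent.Lib.MP_d48993_lc.Hide

/-!
# Project AE (MP_d48993), module NODEP (helper68)

Over a limit computable real `V` there are a class `D` (the node) and a class `A` (hidden) such
that the reals computing a member of `A`, but no member of `D`, are blocked from `D`.
-/

set_option autoImplicit false

namespace Pool.Agent.Lib.MP_d48993_lc.AE.Nodep

open Pool.Agent.Lib.MP_8c048d_lc
open Pool.Agent.Lib.MP_d48993_lc.ThetaMod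

variable {α β : Type} [Primcodable α] [Primcodable β]

/-- The tree given by the approximation `a`, from the oracle `V`. -/
def EP (a : ℕ × List ℕ → (ℕ → ℕ) → Bool) (V : ℕ → ℕ) (σ : List ℕ) : Prop :=
  ∃ s0, ∀ s, s0 ≤ s → a (s, σ) V = true

theorem ep_iff {a : ℕ × List ℕ → (ℕ → ℕ) → Bool} {V : ℕ → ℕ} {E : List ℕ → Prop}
    (h : ∀ σ, ∃ s0, ∀ s ≥ s0, (a (s, σ) V = true ↔ E σ)) (σ : List ℕ) : EP a V σ ↔ E σ := by
  obtain ⟨s0, hs0⟩ := h σ
  constructor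
  · rintro ⟨s1, hs1⟩
    exact (hs0 (max s0 s1) (le_max_left _ _)).1 (hs1 _ (le_max_right _ _))
  · intro hE
    exact ⟨s0, fun s hs => (hs0 s hs).2 hE⟩

theorem ep_eq {a : ℕ × List ℕ → (ℕ → ℕ) → Bool} {V : ℕ → ℕ} {E : List ℕ → Prop}
    (h : ∀ σ, ∃ s0, ∀ s ≥ s0, (a (s, σ) V = true ↔ E σ)) : EP a V = E := by
  funext σ
  exact propext (ep_iff h σ)

theorem ep_del0 {a : ℕ × List ℕ → (ℕ → ℕ) → Bool} (ha : RecF a) :
    Del (fun (σ : List ℕ) (V : ℕ → ℕ) => EP a V σ) := by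
  have h1 : Cop (fun (p : (List ℕ × ℕ) × ℕ) (V : ℕ → ℕ) =>
      p.1.2 ≤ p.2 → a (p.2, p.1.1) V = true) := by
    refine Cop.imp ?_ ?_
    · exact Cop.of_recF (φ := fun (p : (List ℕ × ℕ) × ℕ) (_ : ℕ → ℕ) => (p.1.2, p.2))
        (RecF.of_computable (Computable.pair (Computable.snd.comp Computable.fst) Computable.snd))
        (p := fun x : ℕ × ℕ => x.1 ≤ x.2) c_le
    · exact ⟨fun p V => a (p.2, p.1.1) V, ha.comp₁ (f := fun p : (List ℕ × ℕ) × ℕ => (p.2, p.1.1))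
        (Computable.pair Computable.snd (Computable.fst.comp Computable.fst)), fun _ _ => Iff.rfl⟩
  exact Del.ex (P := fun (σ : List ℕ) (s0 : ℕ) V => ∀ s, s0 ≤ s → a (s, σ) V = true)
    (Del.all (P := fun (p : List ℕ × ℕ) (s : ℕ) V => p.2 ≤ s → a (s, p.1) V = true) h1.del)

theorem ep_del {a : ℕ × List ℕ → (ℕ → ℕ) → Bool} (ha : RecF a) {S : α → (ℕ → ℕ) → List ℕ}
    (hS : RecF S) {A : α → (ℕ → ℕ) → ℕ → ℕ} (hA : RecF (fun (p : α × ℕ) F => A p.1 F p.2)) :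
    Del (fun (x : α) F => EP a (A x F) (S x F)) :=
  (ep_del0 ha).subst hS hA

/-- The finite part of `join V O`. -/
theorem jnV_rec : RecF (fun (ρ : List ℕ) (V : ℕ → ℕ) => jnV V ρ) := by
  have e1 : RecF (fun (p : List ℕ × ℕ) (F : ℕ → ℕ) => F p.2) :=
    RecF.at Computable.snd
  have e2 : RecF (fun (p : List ℕ × ℕ) (_ : ℕ → ℕ) => (p.1[p.2]?).getD 0) :=
    RecF.of_computable (f := fun p : List ℕ × ℕ => (p.1[p.2]?).getD 0)
      (Computable.option_getD (Computable.list_getElem?.comp Computable.fst Computable.snd)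
        (Computable.const 0))
  have e3 := RecF.joinF (α := List ℕ) (Ψ := fun _ F i => F i)
    (Φ := fun ρ _ i => (ρ[i]?).getD 0) e1 e2
  have e4 := RecF.pre' (Ψ := fun (ρ : List ℕ) (F : ℕ → ℕ) =>
    join (fun i => F i) (fun i => (ρ[i]?).getD 0)) e3
  exact e4.comp₁ (f := fun ρ : List ℕ => (ρ, 2 * ρ.length))
    (Computable.pair Computable.id ((Primrec.nat_mul.to_comp).comp (Computable.const 2)
      Computable.list_length))

/-- `Φ i (jnV V ρ)`. -/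
theorem phi_rec {Φ : ℕ → List ℕ → List ℕ} (hΦ : Computable₂ Φ) {f : α → ℕ} (hf : Computable f)
    {g : α → List ℕ} (hg : Computable g) : RecF (fun (x : α) V => Φ (f x) (jnV V (g x))) := by
  have h1 : RecF (fun (x : α) V => (f x, jnV V (g x))) :=
    (RecF.of_computable hf).pair (jnV_rec.comp₁ hg)
  exact h1.comp (g := fun x : ℕ × List ℕ => Φ x.1 x.2) hΦ

/-- `GenF` is arithmetical. -/
theorem genF_del {Φ : ℕ → List ℕ → List ℕ} (hΦ : Computable₂ Φ) {Tr : ℕ → List ℕ → Prop}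
    (hTr : ComputablePred (fun p : ℕ × List ℕ => Tr p.1 p.2))
    {a : ℕ × List ℕ → (ℕ → ℕ) → Bool} (ha : RecF a) :
    Del (fun (e : ℕ) (V : ℕ → ℕ) => GenF Φ Tr V (EP a V) e) := by
  -- `((((e, i), ρ), ρ'), m), ρ''`
  have a1 : Del (fun (p : ((((ℕ × ℕ) × List ℕ) × List ℕ) × ℕ) × List ℕ) (V : ℕ → ℕ) =>
      p.1.1.2 <+: p.2 ∧ EP a V p.2 ∧ p.1.2 ≤ (Φ p.1.1.1.1.2 (jnV V p.2)).length) := by
    refine Del.and ?_ (Del.and ?_ ?_)
    · exact (Cop.of_recF (φ := fun (p : ((((ℕ × ℕ) × List ℕ) × List ℕ) × ℕ) × List ℕ)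
          (_ : ℕ → ℕ) => (p.1.1.2, p.2))
        (RecF.of_computable (Computable.pair (Computable.snd.comp (Computable.fst.comp
          Computable.fst)) Computable.snd)) (p := fun x : List ℕ × List ℕ => x.1 <+: x.2)
        c_initial).del
    · exact (ep_del0 ha).comp (f := fun p : ((((ℕ × ℕ) × List ℕ) × List ℕ) × ℕ) × List ℕ => p.2)
        Computable.snd
    · have b1 : RecF (fun (p : ((((ℕ × ℕ) × List ℕ) × List ℕ) × ℕ) × List ℕ) V =>
          Φ p.1.1.1.1.2 (jnV V p.2)) :=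
        phi_rec hΦ (f := fun p : ((((ℕ × ℕ) × List ℕ) × List ℕ) × ℕ) × List ℕ => p.1.1.1.1.2)
          (Computable.snd.comp (Computable.fst.comp (Computable.fst.comp (Computable.fst.comp
            Computable.fst)))) (g := fun p => p.2) Computable.snd
      exact (Cop.of_recF (φ := fun (p : ((((ℕ × ℕ) × List ℕ) × List ℕ) × ℕ) × List ℕ) V =>
          (p.1.2, (Φ p.1.1.1.1.2 (jnV V p.2)).length))
        ((RecF.of_computable (Computable.snd.comp Computable.fst)).pair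
          (b1.comp Computable.list_length)) (p := fun x : ℕ × ℕ => x.1 ≤ x.2) c_le).del
  have a2 : Del (fun (p : (((ℕ × ℕ) × List ℕ) × List ℕ) × ℕ) (V : ℕ → ℕ) =>
      ∃ ρ'' : List ℕ, p.1.2 <+: ρ'' ∧ EP a V ρ'' ∧ p.2 ≤ (Φ p.1.1.1.2 (jnV V ρ'')).length) :=
    Del.ex (P := fun (p : (((ℕ × ℕ) × List ℕ) × List ℕ) × ℕ) (ρ'' : List ℕ) V =>
      p.1.2 <+: ρ'' ∧ EP a V ρ'' ∧ p.2 ≤ (Φ p.1.1.1.2 (jnV V ρ'')).length) a1
  have a3 : Del (fun (p : ((ℕ × ℕ) × List ℕ) × List ℕ) (V : ℕ → ℕ) =>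
      ∀ m : ℕ, ∃ ρ'' : List ℕ, p.2 <+: ρ'' ∧ EP a V ρ'' ∧
        m ≤ (Φ p.1.1.2 (jnV V ρ'')).length) :=
    Del.all (P := fun (p : ((ℕ × ℕ) × List ℕ) × List ℕ) (m : ℕ) V =>
      ∃ ρ'' : List ℕ, p.2 <+: ρ'' ∧ EP a V ρ'' ∧ m ≤ (Φ p.1.1.2 (jnV V ρ'')).length) a2
  have a4 : Del (fun (p : ((ℕ × ℕ) × List ℕ) × List ℕ) (V : ℕ → ℕ) =>
      Tr p.1.1.1 (Φ p.1.1.2 (jnV V p.2))) := by
    have b1 : RecF (fun (p : ((ℕ × ℕ) × List ℕ) × List ℕ) V => Φ p.1.1.2 (jnV V p.2)) :=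
      phi_rec hΦ (f := fun p : ((ℕ × ℕ) × List ℕ) × List ℕ => p.1.1.2)
        (Computable.snd.comp (Computable.fst.comp Computable.fst)) (g := fun p => p.2)
        Computable.snd
    exact (Cop.of_recF (φ := fun (p : ((ℕ × ℕ) × List ℕ) × List ℕ) V =>
        (p.1.1.1, Φ p.1.1.2 (jnV V p.2)))
      ((RecF.of_computable (Computable.fst.comp (Computable.fst.comp Computable.fst))).pair b1)
      (p := fun x : ℕ × List ℕ => Tr x.1 x.2) hTr).del
  have a5 : Del (fun (p : ((ℕ × ℕ) × List ℕ) × List ℕ) (_ : ℕ → ℕ) => p.1.2 <+: p.2) :=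
    (Cop.of_recF (φ := fun (p : ((ℕ × ℕ) × List ℕ) × List ℕ) (_ : ℕ → ℕ) => (p.1.2, p.2))
      (RecF.of_computable (Computable.pair (Computable.snd.comp Computable.fst) Computable.snd))
      (p := fun x : List ℕ × List ℕ => x.1 <+: x.2) c_initial).del
  have a6 : Del (fun (p : ((ℕ × ℕ) × List ℕ) × List ℕ) (V : ℕ → ℕ) => EP a V p.2) :=
    (ep_del0 ha).comp (f := fun p : ((ℕ × ℕ) × List ℕ) × List ℕ => p.2) Computable.snd
  have a7 : Del (fun (p : (ℕ × ℕ) × List ℕ) (V : ℕ → ℕ) =>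
      ∀ ρ' : List ℕ, p.2 <+: ρ' → EP a V ρ' → Tr p.1.1 (Φ p.1.2 (jnV V ρ')) ∧
        ∀ m : ℕ, ∃ ρ'' : List ℕ, ρ' <+: ρ'' ∧ EP a V ρ'' ∧ m ≤ (Φ p.1.2 (jnV V ρ'')).length) :=
    Del.all (P := fun (p : (ℕ × ℕ) × List ℕ) (ρ' : List ℕ) V =>
      p.2 <+: ρ' → EP a V ρ' → Tr p.1.1 (Φ p.1.2 (jnV V ρ')) ∧
        ∀ m : ℕ, ∃ ρ'' : List ℕ, ρ' <+: ρ'' ∧ EP a V ρ'' ∧ m ≤ (Φ p.1.2 (jnV V ρ'')).length)
      (a5.imp (a6.imp (a4.and a3)))
  have a8 : Del (fun (p : (ℕ × ℕ) × List ℕ) (V : ℕ → ℕ) => EP a V p.2) :=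
    (ep_del0 ha).comp (f := fun p : (ℕ × ℕ) × List ℕ => p.2) Computable.snd
  have a9 : Del (fun (p : ℕ × ℕ) (V : ℕ → ℕ) => ∃ ρ : List ℕ, EP a V ρ ∧
      ∀ ρ' : List ℕ, ρ <+: ρ' → EP a V ρ' → Tr p.1 (Φ p.2 (jnV V ρ')) ∧
        ∀ m : ℕ, ∃ ρ'' : List ℕ, ρ' <+: ρ'' ∧ EP a V ρ'' ∧ m ≤ (Φ p.2 (jnV V ρ'')).length) :=
    Del.ex (P := fun (p : ℕ × ℕ) (ρ : List ℕ) V => EP a V ρ ∧
      ∀ ρ' : List ℕ, ρ <+: ρ' → EP a V ρ' → Tr p.1 (Φ p.2 (jnV V ρ')) ∧
        ∀ m : ℕ, ∃ ρ'' : List ℕ, ρ' <+: ρ'' ∧ EP a V ρ'' ∧ m ≤ (Φ p.2 (jnV V ρ'')).length)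
      (a8.and a7)
  exact Del.ex (P := fun (e : ℕ) (i : ℕ) V => ∃ ρ : List ℕ, EP a V ρ ∧
      ∀ ρ' : List ℕ, ρ <+: ρ' → EP a V ρ' → Tr e (Φ i (jnV V ρ')) ∧
        ∀ m : ℕ, ∃ ρ'' : List ℕ, ρ' <+: ρ'' ∧ EP a V ρ'' ∧ m ≤ (Φ i (jnV V ρ'')).length) a9

theorem hmapE_iff (X : ℕ → ℕ) (E T : List ℕ → Prop) : HMapE X E T ↔ ∃ h : ℕ → ℕ, Red h X ∧
    ∀ s, T s → (E (dec h s) ∧ s.length ≤ (dec h s).length) ∧
      ∀ s', s' <+: s → dec h s' <+: dec h s := by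
  constructor
  · rintro ⟨H, h1, h2⟩
    refine ⟨_, h1, ?_⟩
    have h3 : ∀ s, dec (fun n => Encodable.encode
        (H ((Encodable.decode (α := List ℕ) n).getD []))) s = H s := by
      intro s
      simp [ThetaMod.dec]
    intro s hs
    simp only [h3]
    exact ⟨⟨(h2 s hs).1, (h2 s hs).2.1⟩, (h2 s hs).2.2⟩
  · rintro ⟨h, h1, h2⟩
    refine ⟨dec h, ?_, fun s hs => ⟨(h2 s hs).1.1, (h2 s hs).1.2, (h2 s hs).2⟩⟩
    have h3 : (fun n => Encodable.encode (dec h ((Encodable.decode (α := List ℕ) n).getD []))) =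
        h := by
      funext n
      simp [ThetaMod.dec, Denumerable.decode_eq_ofNat]
    rw [h3]
    exact h1

/-- The dichotomy. -/
def Th (Φ : ℕ → List ℕ → List ℕ) (Tr : ℕ → List ℕ → Prop) (V : ℕ → ℕ) (E : List ℕ → Prop)
    (Y : ℕ → ℕ) : Prop :=
  Red V Y ∧ ∀ e, GenF Φ Tr V E e ∨ HMapE Y E (Tr e)

theorem th_sig {Φ : ℕ → List ℕ → List ℕ} {Tr : ℕ → List ℕ → Prop} (hΦ : IsEnum Φ)
    (hTr : IsTreeEnum Tr) {V : ℕ → ℕ} (hV : LimComp V)
    {a : ℕ × List ℕ → (ℕ → ℕ) → Bool} (ha : RecF a) :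
    Sig (fun (_ : Unit) Y => Th Φ Tr V (EP a V) Y) := by
  obtain ⟨g, hg, hlim⟩ := hV
  -- codes
  have cadd : Computable₂ (fun a b : ℕ => a + b) := Primrec.nat_add.to_comp
  have cmul : Computable₂ (fun a b : ℕ => a * b) := Primrec.nat_mul.to_comp
  have cdbl : ∀ {γ : Type} [Primcodable γ] {f : γ → ℕ}, Computable f →
      Computable (fun a => 2 * f a) := fun hf => cmul.comp (Computable.const 2) hf
  have cdbl1 : ∀ {γ : Type} [Primcodable γ] {f : γ → ℕ}, Computable f →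
      Computable (fun a => 2 * f a + 1) := fun hf => cadd.comp (cdbl hf) (Computable.const 1)
  -- `F = join Y V`
  have p0 : Sig (fun (_ : Unit) (F : ℕ → ℕ) => Red (fun i => F (2 * i + 1))
      (fun i => F (2 * i))) :=
    red_sig (α := Unit) hΦ (A := fun _ K i => K (2 * i)) (B := fun _ K i => K (2 * i + 1))
      (RecF.at (cdbl Computable.snd)) (RecF.at (cdbl1 Computable.snd))
  have p1 : Sig (fun (e : ℕ) (F : ℕ → ℕ) =>
      GenF Φ Tr (fun i => F (2 * i + 1)) (EP a (fun i => F (2 * i + 1))) e) :=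
    ((genF_del hΦ.comp hTr.comp ha).subst (α := ℕ) (ψ := fun e _ => e)
      (RecF.of_computable Computable.id) (Ψ := fun _ F i => F (2 * i + 1))
      (RecF.at (cdbl1 Computable.snd))).1
  -- maps: `K = join F h`
  have q1 : Sig (fun (_ : ℕ) (K : ℕ → ℕ) => Red (fun i => K (2 * i + 1))
      (fun i => K (2 * (2 * i)))) :=
    red_sig (α := ℕ) hΦ (A := fun _ K i => K (2 * (2 * i))) (B := fun _ K i => K (2 * i + 1))
      (RecF.at (cdbl (cdbl Computable.snd))) (RecF.at (cdbl1 Computable.snd))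
  have q2 : RecF (fun (p : ℕ × List ℕ) (K : ℕ → ℕ) => dec (fun i => K (2 * i + 1)) p.2) :=
    dec_recF (α := ℕ × List ℕ) (S := fun p _ => p.2) (A := fun _ K i => K (2 * i + 1))
      (RecF.of_computable Computable.snd) (RecF.at (cdbl1 Computable.snd))
  have q3 : Del (fun (p : ℕ × List ℕ) (K : ℕ → ℕ) =>
      EP a (fun i => K (2 * (2 * i + 1))) (dec (fun i => K (2 * i + 1)) p.2)) :=
    ep_del (α := ℕ × List ℕ) ha (A := fun _ K i => K (2 * (2 * i + 1))) q2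
      (RecF.at (cdbl (cdbl1 Computable.snd)))
  have q4 : Cop (fun (p : ℕ × List ℕ) (K : ℕ → ℕ) =>
      p.2.length ≤ (dec (fun i => K (2 * i + 1)) p.2).length) :=
    Cop.of_recF (φ := fun (p : ℕ × List ℕ) (K : ℕ → ℕ) =>
      (p.2.length, (dec (fun i => K (2 * i + 1)) p.2).length))
      ((RecF.of_computable (Computable.list_length.comp Computable.snd)).pair
        (q2.comp Computable.list_length)) (p := fun x : ℕ × ℕ => x.1 ≤ x.2) c_le
  have q5 : Cop (fun (p : (ℕ × List ℕ) × List ℕ) (_ : ℕ → ℕ) => p.2 <+: p.1.2) :=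
    Cop.of_recF (φ := fun (p : (ℕ × List ℕ) × List ℕ) (_ : ℕ → ℕ) => (p.2, p.1.2))
      (RecF.of_computable (Computable.pair Computable.snd (Computable.snd.comp Computable.fst)))
      (p := fun x : List ℕ × List ℕ => x.1 <+: x.2) c_initial
  have q6 : Cop (fun (p : (ℕ × List ℕ) × List ℕ) (K : ℕ → ℕ) =>
      dec (fun i => K (2 * i + 1)) p.2 <+: dec (fun i => K (2 * i + 1)) p.1.2) :=
    Cop.of_recF (φ := fun (p : (ℕ × List ℕ) × List ℕ) (K : ℕ → ℕ) =>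
      (dec (fun i => K (2 * i + 1)) p.2, dec (fun i => K (2 * i + 1)) p.1.2))
      ((q2.comp₁ (f := fun p : (ℕ × List ℕ) × List ℕ => (p.1.1, p.2)) (Computable.pair
        (Computable.fst.comp Computable.fst) Computable.snd)).pair
        (q2.comp₁ (f := fun p : (ℕ × List ℕ) × List ℕ => p.1) Computable.fst))
      (p := fun x : List ℕ × List ℕ => x.1 <+: x.2) c_initial
  have q7 : Del (fun (p : ℕ × List ℕ) (K : ℕ → ℕ) => ∀ s', s' <+: p.2 →
      dec (fun i => K (2 * i + 1)) s' <+: dec (fun i => K (2 * i + 1)) p.2) :=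
    Del.all (P := fun (p : ℕ × List ℕ) (s' : List ℕ) (K : ℕ → ℕ) => s' <+: p.2 →
      dec (fun i => K (2 * i + 1)) s' <+: dec (fun i => K (2 * i + 1)) p.2) (q5.imp q6).del
  have q8 : Cop (fun (p : ℕ × List ℕ) (_ : ℕ → ℕ) => Tr p.1 p.2) := Cop.of_computable hTr.comp
  have q9 : Del (fun (e : ℕ) (K : ℕ → ℕ) => ∀ s, Tr e s →
      (EP a (fun i => K (2 * (2 * i + 1))) (dec (fun i => K (2 * i + 1)) s) ∧
        s.length ≤ (dec (fun i => K (2 * i + 1)) s).length) ∧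
      ∀ s', s' <+: s → dec (fun i => K (2 * i + 1)) s' <+: dec (fun i => K (2 * i + 1)) s) :=
    Del.all (P := fun (e : ℕ) (s : List ℕ) (K : ℕ → ℕ) => Tr e s →
      (EP a (fun i => K (2 * (2 * i + 1))) (dec (fun i => K (2 * i + 1)) s) ∧
        s.length ≤ (dec (fun i => K (2 * i + 1)) s).length) ∧
      ∀ s', s' <+: s → dec (fun i => K (2 * i + 1)) s' <+: dec (fun i => K (2 * i + 1)) s)
      (Del.imp q8.del ((q3.and q4.del).and q7))
  have q10 : Sig (fun (e : ℕ) (F : ℕ → ℕ) =>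
      HMapE (fun i => F (2 * i)) (EP a (fun i => F (2 * i + 1))) (Tr e)) := by
    refine (Sig.exF (q1.and q9.1)).congr ?_
    intro e F
    simp only [join_odd, join_even]
    exact (hmapE_iff _ _ _).symm
  have r1 : Sig (fun (_ : Unit) (F : ℕ → ℕ) =>
      Th Φ Tr (fun i => F (2 * i + 1)) (EP a (fun i => F (2 * i + 1))) (fun i => F (2 * i))) :=
    p0.and (Sig.all (P := fun (_ : Unit) (e : ℕ) (F : ℕ → ℕ) =>
      GenF Φ Tr (fun i => F (2 * i + 1)) (EP a (fun i => F (2 * i + 1))) e ∨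
      HMapE (fun i => F (2 * i)) (EP a (fun i => F (2 * i + 1))) (Tr e))
      ((p1.or q10).comp (f := fun p : Unit × ℕ => p.2) Computable.snd))
  -- the graph of `V`
  have s1 : Cop (fun (p : ((Unit × ℕ) × ℕ) × ℕ) (E : ℕ → ℕ) =>
      p.1.2 ≤ p.2 → g p.2 p.1.1.2 = E (2 * p.1.1.2 + 1)) := by
    refine Cop.imp ?_ ?_
    · exact Cop.of_recF (φ := fun (p : ((Unit × ℕ) × ℕ) × ℕ) (_ : ℕ → ℕ) => (p.1.2, p.2))
        (RecF.of_computable (Computable.pair (Computable.snd.comp Computable.fst) Computable.snd))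
        (p := fun x : ℕ × ℕ => x.1 ≤ x.2) c_le
    · exact Cop.of_recF (φ := fun (p : ((Unit × ℕ) × ℕ) × ℕ) (E : ℕ → ℕ) =>
        (g p.2 p.1.1.2, E (2 * p.1.1.2 + 1)))
        ((RecF.of_computable (hg.comp Computable.snd
          (Computable.snd.comp (Computable.fst.comp Computable.fst)))).pair
          (RecF.at (cdbl1 (Computable.snd.comp (Computable.fst.comp Computable.fst)))))
        (p := fun x : ℕ × ℕ => x.1 = x.2) c_eqNat
  have s2 : Del (fun (_ : Unit) (E : ℕ → ℕ) => ∀ n, ∃ s0, ∀ s, s0 ≤ s → g s n = E (2 * n + 1)) :=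
    Del.all (P := fun (_ : Unit) (n : ℕ) (E : ℕ → ℕ) => ∃ s0, ∀ s, s0 ≤ s → g s n = E (2 * n + 1))
      (Del.ex (P := fun (p : Unit × ℕ) (s0 : ℕ) (E : ℕ → ℕ) =>
        ∀ s, s0 ≤ s → g s p.2 = E (2 * p.2 + 1))
        (Del.all (P := fun (p : (Unit × ℕ) × ℕ) (s : ℕ) (E : ℕ → ℕ) =>
          p.2 ≤ s → g s p.1.2 = E (2 * p.1.2 + 1)) s1.del))
  refine (Sig.exF (s2.1.and r1)).congr ?_
  intro _ Y
  simp only [join_odd, join_even]
  constructor
  · rintro ⟨G', h1, h2⟩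
    have h3 : G' = V := by
      funext n
      obtain ⟨a, ha⟩ := h1 n
      obtain ⟨b, hb⟩ := hlim n
      rw [← ha (max a b) (le_max_left _ _), hb (max a b) (le_max_right _ _)]
    have h4 : Th Φ Tr G' (EP a G') Y := h2
    rwa [h3] at h4
  · intro h
    exact ⟨V, hlim, h⟩

/-- A map from `T` to `E` sends paths to paths. -/
theorem path_of_map {Y W f : ℕ → ℕ} {E T : List ℕ → Prop} (hE : PC E) (hH : HMapE Y E T)
    (hYW : Red Y W) (hfW : Red f W) (hT : ∀ k, T (pre f k)) :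
    ∃ O : ℕ → ℕ, (∀ k, E (pre O k)) ∧ Red O W := by
  obtain ⟨H, hHX, hH⟩ := hH
  set h : ℕ → ℕ := fun n => Encodable.encode (H ((Encodable.decode (α := List ℕ) n).getD []))
    with hh
  have hhW : Red h W := Red.trans hHX hYW
  have hj : Red (join h f) W := joinS.2.2 h f W hhW hfW
  refine ⟨fun n => S5.phi n (join h f), ?_, Red.trans (red1 S5.phi S5.phi_rec (join h f)) hj⟩
  intro k
  have hval : ∀ n, S5.phi n (join h f) = ((H (pre f (n + 1)))[n]?).getD 0 := by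
    intro n
    rw [S5.phi_join]
    simp only [S5.look, hh, Encodable.encodek, Option.getD_some]
  have hlen : k ≤ (H (pre f k)).length := by
    have := (hH (pre f k) (hT k)).2.1
    rwa [length_pre] at this
  have heq : pre (fun n => S5.phi n (join h f)) k = (H (pre f k)).take k := by
    apply List.ext_getElem?
    intro n
    rw [pre_getElem?, List.getElem?_take]
    split_ifs with hn
    · rw [hval]
      have h1 : pre f (n + 1) <+: pre f k := S5.pre_prefix f (by omega)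
      have h2 := (hH (pre f k) (hT k)).2.2 (pre f (n + 1)) h1
      have h3 := (hH (pre f (n + 1)) (hT (n + 1))).2.1
      rw [length_pre] at h3
      obtain ⟨ρ, hρ⟩ := h2
      have h4 : (H (pre f k))[n]? = (H (pre f (n + 1)))[n]? := by
        rw [← hρ, List.getElem?_append_left (by omega)]
      rw [h4, List.getElem?_eq_getElem (by omega)]
      rfl
    · rfl
  rw [heq]
  exact hE _ _ (List.take_prefix _ _) (hH (pre f k) (hT k)).1

/-- The closed form of the class of the `join V O`, `O` a path of `E`. -/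
theorem closed_form {V : ℕ → ℕ} (hV : LimComp V) {a : ℕ × List ℕ → (ℕ → ℕ) → Bool} (ha : RecF a)
    {E : List ℕ → Prop} (hE : ∀ σ, ∃ s0, ∀ s ≥ s0, (a (s, σ) V = true ↔ E σ)) :
    ∃ D : Set (ℕ → ℕ), ClosedC D ∧
      Up D = Up {F | ∃ O : ℕ → ℕ, (∀ k, E (pre O k)) ∧ F = join V O} := by
  obtain ⟨g, hg, hlim⟩ := hV
  -- `n = (i, s0)`, `m = (s, s')`
  have c1 : Cop (fun (x : ℕ × ℕ) (_ : ℕ → ℕ) => x.1.unpair.2 ≤ x.2.unpair.1) :=
    Cop.of_recF (φ := fun (x : ℕ × ℕ) (_ : ℕ → ℕ) => (x.1.unpair.2, x.2.unpair.1))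
      (RecF.of_computable (Computable.pair (PI2.c_unpair2 Computable.fst)
        (PI2.c_unpair1 Computable.snd))) (p := fun x : ℕ × ℕ => x.1 ≤ x.2) c_le
  have c2 : Cop (fun (x : ℕ × ℕ) (_ : ℕ → ℕ) => x.1.unpair.2 ≤ x.2.unpair.2) :=
    Cop.of_recF (φ := fun (x : ℕ × ℕ) (_ : ℕ → ℕ) => (x.1.unpair.2, x.2.unpair.2))
      (RecF.of_computable (Computable.pair (PI2.c_unpair2 Computable.fst)
        (PI2.c_unpair2 Computable.snd))) (p := fun x : ℕ × ℕ => x.1 ≤ x.2) c_le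
  have c3 : Cop (fun (x : ℕ × ℕ) (F : ℕ → ℕ) =>
      g x.2.unpair.1 x.1.unpair.1 = F (2 * x.1.unpair.1)) :=
    Cop.of_recF (φ := fun (x : ℕ × ℕ) (F : ℕ → ℕ) =>
        (g x.2.unpair.1 x.1.unpair.1, F (2 * x.1.unpair.1)))
      ((RecF.of_computable (hg.comp (PI2.c_unpair1 Computable.snd)
        (PI2.c_unpair1 Computable.fst))).pair
        (RecF.at (PI2.c_dbl (PI2.c_unpair1 Computable.fst))))
      (p := fun x : ℕ × ℕ => x.1 = x.2) c_eqNat
  have c4 : Cop (fun (x : ℕ × ℕ) (F : ℕ → ℕ) =>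
      a (x.2.unpair.2, pre (fun i => F (2 * i + 1)) x.1.unpair.1) (fun i => F (2 * i)) = true) := by
    have e1 : RecF (fun (x : Unit × ℕ) (F : ℕ → ℕ) => pre (fun i => F (2 * i + 1)) x.2) :=
      RecF.pre' (Ψ := fun (_ : Unit) (F : ℕ → ℕ) i => F (2 * i + 1))
        (RecF.at (PI2.c_dbl1 Computable.snd))
    have e2 : RecF (fun (x : ℕ × ℕ) (F : ℕ → ℕ) => pre (fun i => F (2 * i + 1)) x.1.unpair.1) :=
      e1.comp₁ (f := fun x : ℕ × ℕ => ((), x.1.unpair.1))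
        (Computable.pair (Computable.const ()) (PI2.c_unpair1 Computable.fst))
    have e3 : RecF (fun (x : ℕ × ℕ) (F : ℕ → ℕ) =>
        (x.2.unpair.2, pre (fun i => F (2 * i + 1)) x.1.unpair.1)) :=
      (RecF.of_computable (PI2.c_unpair2 Computable.snd)).pair e2
    exact ⟨_, ha.subst e3 (Ψ := fun (_ : ℕ × ℕ) F i => F (2 * i))
      (RecF.at (PI2.c_dbl Computable.snd)), fun _ _ => Iff.rfl⟩
  obtain ⟨d, hd, hd'⟩ := (c1.and c2).and (c3.and c4)
  obtain ⟨D, hD, hD'⟩ := pi2 redMu joinS d hd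
  refine ⟨D, hD, hD'.trans ?_⟩
  congr 1
  ext F
  simp only [Set.mem_ofPred_eq]
  constructor
  · intro h
    have hev : (fun i => F (2 * i)) = V := by
      funext i
      obtain ⟨s0, hs0⟩ := hlim i
      obtain ⟨m, hm⟩ := h (Nat.pair i s0)
      rw [← hd'] at hm
      simp only [Nat.unpair_pair] at hm
      rw [← hm.2.1, hs0 _ hm.1.1]
    refine ⟨fun i => F (2 * i + 1), ?_, ?_⟩
    · intro k
      obtain ⟨s0, hs0⟩ := hE (pre (fun i => F (2 * i + 1)) k)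
      obtain ⟨m, hm⟩ := h (Nat.pair k s0)
      rw [← hd'] at hm
      simp only [Nat.unpair_pair, hev] at hm
      exact (hs0 _ hm.1.2).1 hm.2.2
    · rw [← hev]
      exact (join_eta F).symm
  · rintro ⟨O, hO, rfl⟩ n
    obtain ⟨s0, hs0⟩ := hlim n.unpair.1
    obtain ⟨s1, hs1⟩ := hE (pre O n.unpair.1)
    refine ⟨Nat.pair (max s0 n.unpair.2) (max s1 n.unpair.2), ?_⟩
    rw [← hd']
    simp only [Nat.unpair_pair, join_even, join_odd]
    exact ⟨⟨le_max_right _ _, le_max_right _ _⟩, hs0 _ (le_max_left _ _),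
      (hs1 _ (le_max_left _ _)).2 (hO _)⟩

end Pool.Agent.Lib.MP_d48993_lc.AE.Nodep

namespace Pool.Agent.Lib.MP_d48993_lc.AE

open MP_8c048d_lc (pre join RecF Sig Clo Cop)
open Nodep

/-- Module NODEP. -/
theorem nodep (hN : NodeStatement) : NodePStatement := by
  intro U V hU hV hVU
  obtain ⟨Φ, hΦ⟩ := enum
  obtain ⟨Tr, hTr⟩ := trees
  obtain ⟨a, E, ha, hE, -, hEpc, -, hH, ⟨O1, hO1, hO1U⟩, X, hVX, hXD, hXU, hX⟩ :=
    hN Φ Tr hΦ hTr U V hU hVU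
  obtain ⟨D, hD, hDup⟩ := closed_form hV ha hE
  have hDmem : ∀ W, W ∈ Up D ↔ ∃ O : ℕ → ℕ, (∀ k, E (pre O k)) ∧ Red (join V O) W := by
    intro W
    rw [hDup]
    constructor
    · rintro ⟨F, ⟨O, hO, rfl⟩, hFW⟩
      exact ⟨O, hO, hFW⟩
    · rintro ⟨O, hO, hFW⟩
      exact ⟨_, ⟨O, hO, rfl⟩, hFW⟩
  obtain ⟨⟨U', hU', hU'up⟩, -⟩ := ops joinS D U hD hU
  have hmem : ∀ W, W ∈ Up U' ↔ W ∈ Up D ∨ W ∈ Up U := by
    intro W
    rw [hU'up]
    exact Iff.rfl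
  have hXU' : X ∉ Up U' := by
    rw [hmem, hDmem]
    rintro (⟨O, hO, h⟩ | h)
    · exact hXD O hO ((joinS.2.1 V O).trans h)
    · exact hXU h
  have hEP : EP a V = E := ep_eq hE
  have hThX : Th Φ Tr V (EP a V) X := by
    rw [hEP]
    refine ⟨hVX, fun e => ?_⟩
    by_cases h : GenF Φ Tr V E e
    · exact Or.inl h
    · exact Or.inr (hX e h)
  have hSearch : SearchStatement := search red1 redMu
  have hCls : ClsStatement := cls
  have hRes : ResStatement := res hSearch hCls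
  obtain ⟨A, hA, ⟨W0, hW0, hW0U⟩, hAW⟩ := hide enum hRes (pi2 redMu joinS) joinS U'
    (fun Y => Th Φ Tr V (EP a V) Y) hU' (th_sig hΦ hTr hV ha) ⟨X, hThX, hXU'⟩
  rw [hEP] at hAW
  have hup : ∀ W ∈ Up A, W ∉ Up U' → ∃ Y, Red Y W ∧ Th Φ Tr V E Y := by
    rintro W ⟨W1, hW1, hr⟩ hWU
    obtain ⟨Y, hY1, hY2⟩ := hAW W1 hW1 (fun h => hWU (Up_trans h hr))
    exact ⟨Y, hY1.trans hr, hY2⟩
  have hVD : ∀ W ∈ Up D, Red V W := by
    intro W hW
    obtain ⟨O, -, h⟩ := (hDmem W).1 hW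
    exact (joinS.1 V O).trans h
  refine ⟨D, A, hD, hA, hVD, ⟨join V O1, (hDmem _).2 ⟨O1, hO1, Red.rfl⟩, hO1U⟩, ?_, ?_, ?_⟩
  · intro W hW
    by_cases h : W ∈ Up U'
    · rcases (hmem W).1 h with h | h
      · exact Or.inl (hVD W h)
      · exact Or.inr h
    · obtain ⟨Y, hY1, hY2, -⟩ := hup W hW h
      exact Or.inl (hY2.trans hY1)
  · refine ⟨W0, self_mem_Up hW0, fun h => hW0U ((hmem _).2 (Or.inl h)),
      fun h => hW0U ((hmem _).2 (Or.inr h))⟩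
  · rintro S hS ⟨W, hWA, hWD, hWU, hWS⟩
    have hWU' : W ∉ Up U' := by
      rw [hmem]
      rintro (h | h)
      · exact hWD h
      · exact hWU h
    obtain ⟨Y, hYW, hVY, hY⟩ := hup W hWA hWU'
    obtain ⟨e, he⟩ := hTr.all S hS
    have hgen : GenF Φ Tr V E e := by
      rcases hY e with h | h
      · exact h
      · exfalso
        obtain ⟨f, hf, hfW⟩ := hWS
        rw [he] at hf
        obtain ⟨O, hO, hOW⟩ := path_of_map hEpc h hYW hfW hf
        exact hWD ((hDmem W).2 ⟨O, hO, joinS.2.2 V O W (hVY.trans hYW) hOW⟩)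
    intro W' hW'
    obtain ⟨O, hO, hOW'⟩ := (hDmem W').1 hW'
    obtain ⟨f, hf, hfp⟩ := hH e hgen O hO
    refine ⟨f, ?_, hf.trans hOW'⟩
    rw [he]
    exact hfp

end Pool.Agent.Lib.MP_d48993_lc.AE
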