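import Pool.Agent.Lib.MP_d48993_lc.AE.Interfaces
import Pool.Agent.Lib.MP_d48993_lc.Gen
import Pool.Agent.Lib.MP_d48993_lc.Red
import Pool.Agent.Lib.MP_d48993_lc.Cls

/-!
# Module SPLIT: limit computable generic functions any two of which compute a member of `B`
-/

set_option autoImplicit false

namespace Pool.Agent.Lib.MP_d48993_lc

open MP_8c048d_lc (pre join RecF Sig Clo Cop)
open Nat.Partrec (Code)
open Nat.Partrec.Code (eval evaln evaln_complete evaln_sound evaln_mono)

namespace AE.Split

/-! ### Limit recursion -/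

/-- Recursion along limits. -/
theorem limrec {α : Type} [Primcodable α] {F : ℕ → ℕ × α → α} (hF : Computable₂ F) (a0 : α)
    (h : ∀ e a, ∃ a', ∃ s0, ∀ s ≥ s0, F s (e, a) = a') :
    ∃ A : ℕ → α, A 0 = a0 ∧ (∀ e, ∃ s0, ∀ s ≥ s0, F s (e, A e) = A (e + 1)) ∧
      ∃ G : ℕ → ℕ → α, Computable₂ G ∧ ∀ e, ∃ s0, ∀ s ≥ s0, G s e = A e := by
  let G : ℕ → ℕ → α := fun s e => Nat.rec (motive := fun _ => α) a0 (fun e r => F s (e, r)) e
  have hlim : ∀ e, ∃ a, ∃ s0, ∀ s ≥ s0, G s e = a := by
    intro e
    induction e with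
    | zero => exact ⟨a0, 0, fun s _ => rfl⟩
    | succ e ih =>
      obtain ⟨a, s0, h0⟩ := ih
      obtain ⟨a', s1, h1⟩ := h e a
      refine ⟨a', max s0 s1, fun s hs => ?_⟩
      change F s (e, G s e) = a'
      rw [h0 s (le_trans (le_max_left _ _) hs), h1 s (le_trans (le_max_right _ _) hs)]
  choose A hA using hlim
  refine ⟨A, ?_, ?_, G, ?_, hA⟩
  · obtain ⟨s0, h0⟩ := hA 0
    exact (h0 s0 le_rfl).symm
  · intro e
    obtain ⟨s0, h0⟩ := hA e
    obtain ⟨s1, h1⟩ := hA (e + 1)
    refine ⟨max s0 s1, fun s hs => ?_⟩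
    rw [← h1 s (le_trans (le_max_right _ _) hs)]
    change F s (e, A e) = F s (e, G s e)
    rw [h0 s (le_trans (le_max_left _ _) hs)]
  · have h1 : Computable (fun x : ℕ × ℕ => (Nat.rec (motive := fun _ => α) a0
        (fun e r => F x.1 (e, r)) x.2 : α)) := by
      refine Computable.nat_rec (f := fun x : ℕ × ℕ => x.2) (g := fun _ : ℕ × ℕ => a0)
        (h := fun (x : ℕ × ℕ) (p : ℕ × α) => F x.1 p) Computable.snd (Computable.const a0) ?_
      exact hF.comp (Computable.fst.comp Computable.fst) Computable.snd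
    exact h1

/-- The function of an increasing chain of strings. -/
theorem chain_pre {A : ℕ → List ℕ} (h : ∀ e, A e <+: A (e + 1)) (hl : ∀ e, e ≤ (A e).length) :
    ∀ e, pre (fun n => (A (n + 1)).getD n 0) (A e).length = A e := by
  have hm : ∀ e e', e ≤ e' → A e <+: A e' := by
    intro e e' hee
    induction hee with
    | refl => exact List.prefix_rfl
    | step _ ih => exact ih.trans (h _)
  intro e
  apply List.ext_getElem
  · exact MP_8c048d_lc.length_pre _ _
  · intro n h1 h2
    have h3 := MP_8c048d_lc.pre_getElem? (fun n => (A (n + 1)).getD n 0) (A e).length n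
    rw [List.getElem?_eq_getElem h1, if_pos h2] at h3
    rw [Option.some.inj h3]
    have h4 : n < (A (n + 1)).length := hl (n + 1)
    rw [List.getD_eq_getElem _ _ h4]
    rcases le_total e (n + 1) with h5 | h5
    · exact ((hm _ _ h5).getElem h2).symm
    · exact (hm _ _ h5).getElem h4

theorem limComp_chain {A : ℕ → List ℕ} {G : ℕ → ℕ → List ℕ} (hG : Computable₂ G)
    (hA : ∀ e, ∃ s0, ∀ s ≥ s0, G s e = A e) : LimComp (fun n => (A (n + 1)).getD n 0) := by
  refine ⟨fun s n => (G s (n + 1)).getD n 0, ?_, fun n => ?_⟩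
  · exact (Primrec.list_getD 0).to_comp.comp
      (hG.comp Computable.fst (Primrec.succ.to_comp.comp Computable.snd)) Computable.snd
  · obtain ⟨s0, h0⟩ := hA (n + 1)
    exact ⟨s0, fun s hs => by simp only [h0 s hs]⟩

/-! ### A limit computable member -/

/-- The powers of two. -/
def pw (i : ℕ) : ℕ := Nat.rec 1 (fun _ r => 2 * r) i

theorem pw_prim : Primrec pw :=
  Primrec.nat_rec₁ 1 (Primrec.nat_mul.comp (Primrec.const 2) Primrec.snd)

theorem pw_succ (i : ℕ) : pw (i + 1) = 2 * pw i := rfl

theorem pw_pos (i : ℕ) : 0 < pw i := by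
  induction i with
  | zero => exact Nat.one_pos
  | succ i ih => rw [pw_succ]; omega

/-- The last `s` binary digits of `c`. -/
def bits (s c : ℕ) : List ℕ := (List.range s).map fun i => c / pw i % 2

theorem bits_prim : Primrec₂ bits := by
  refine Primrec.list_map (f := fun x : ℕ × ℕ => List.range x.1)
    (g := fun (x : ℕ × ℕ) (i : ℕ) => x.2 / pw i % 2) (Primrec.list_range.comp Primrec.fst) ?_
  exact Primrec.nat_mod.comp (Primrec.nat_div.comp (Primrec.snd.comp Primrec.fst)
    (pw_prim.comp Primrec.snd)) (Primrec.const 2)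

theorem bits_surj (τ : List ℕ) (h : ∀ n ∈ τ, n < 2) : ∃ c < pw τ.length, bits τ.length c = τ := by
  induction τ with
  | nil => exact ⟨0, Nat.one_pos, rfl⟩
  | cons a τ ih =>
    obtain ⟨c, hc, hc'⟩ := ih fun n hn => h n (List.mem_cons_of_mem _ hn)
    have ha := h a List.mem_cons_self
    refine ⟨a + 2 * c, ?_, ?_⟩
    · rw [List.length_cons, pw_succ]
      omega
    · rw [List.length_cons, bits, List.range_succ_eq_map, List.map_cons, List.map_map]
      congr 1
      · change (a + 2 * c) / 1 % 2 = a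
        rw [Nat.div_one]
        omega
      · refine Eq.trans ?_ hc'
        rw [bits]
        refine List.map_congr_left fun i _ => ?_
        simp only [Function.comp]
        rw [pw_succ, ← Nat.div_div_eq_div_mul]
        have : (a + 2 * c) / 2 = c := by omega
        rw [this]

/-- Some binary extension of `σ` by `s` digits is in `T`. -/
def Xt (T : List ℕ → Prop) (σ : List ℕ) (s : ℕ) : Prop := ∃ c < pw s, T (σ ++ bits s c)

theorem xt_comp {T : List ℕ → Prop} (hT : ComputablePred T) :
    ComputablePred (fun x : List ℕ × ℕ => Xt T x.1 x.2) := by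
  have e1 : Computable (fun x : (List ℕ × ℕ) × ℕ => x.1.1 ++ bits x.1.2 x.2) :=
    (Primrec.list_append.comp (Primrec.fst.comp Primrec.fst)
      (bits_prim.comp (Primrec.snd.comp Primrec.fst) Primrec.snd)).to_comp
  have e2 : Cop (fun (x : (List ℕ × ℕ) × ℕ) (_ : ℕ → ℕ) => T (x.1.1 ++ bits x.1.2 x.2)) :=
    Cop.of_recF (φ := fun (x : (List ℕ × ℕ) × ℕ) (_ : ℕ → ℕ) => x.1.1 ++ bits x.1.2 x.2)
      (RecF.of_computable e1) hT
  have e3 : Cop (fun (x : List ℕ × ℕ) (_ : ℕ → ℕ) => ∀ c < pw x.2, ¬ T (x.1 ++ bits x.2 c)) :=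
    Cop.ball (P := fun (x : List ℕ × ℕ) c (_ : ℕ → ℕ) => ¬ T (x.1 ++ bits x.2 c)) e2.not
      (pw_prim.comp Primrec.snd).to_comp
  refine comp_of_cop (e3.not.congr fun x _ => ?_)
  unfold Xt
  push Not
  rfl

/-- Closed nonempty classes of binary functions have limit computable members. -/
theorem exists_limComp_mem {B : Set (ℕ → ℕ)} (hne : B.Nonempty) (hB : ClosedC B) (hbin : Bin B) :
    ∃ b ∈ B, LimComp b := by
  classical
  obtain ⟨T, hT, rfl⟩ := closed_tree hB
  have hanti : ∀ σ s s', s ≤ s' → Xt T σ s' → Xt T σ s := by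
    rintro σ s s' hss ⟨c, -, hc⟩
    have h1 : ∀ n ∈ (bits s' c).take s, n < 2 := by
      intro n hn
      have := List.mem_of_mem_take hn
      simp only [bits, List.mem_map, List.mem_range] at this
      obtain ⟨i, -, rfl⟩ := this
      exact Nat.mod_lt _ (by omega)
    obtain ⟨c', hc', hc''⟩ := bits_surj _ h1
    have h2 : ((bits s' c).take s).length = s := by
      rw [List.length_take]
      simp [bits, hss]
    rw [h2] at hc' hc''
    refine ⟨c', hc', ?_⟩
    rw [hc'']
    refine hT.2 _ _ ?_ hc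
    exact (List.prefix_append_right_inj σ).2 (List.take_prefix _ _)
  let E : List ℕ × ℕ → Bool := fun x => decide (Xt T x.1 x.2)
  have hE : Computable E := by
    obtain ⟨_, h⟩ := xt_comp hT.1
    exact h.of_eq fun x => by simp [E]
  let F : ℕ → ℕ × List ℕ → List ℕ := fun s x => x.2 ++ [bif E (x.2 ++ [0], s) then 0 else 1]
  have hF : Computable₂ F := by
    have h1 : Computable (fun x : ℕ × (ℕ × List ℕ) => E (x.2.2 ++ [0], x.1)) :=
      hE.comp (Computable.pair ((Primrec.list_concat.comp (Primrec.snd.comp Primrec.snd)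
        (Primrec.const 0)).to_comp) Computable.fst)
    have h2 : Computable (fun x : ℕ × (ℕ × List ℕ) =>
        (bif E (x.2.2 ++ [0], x.1) then 0 else 1 : ℕ)) :=
      Computable.cond h1 (Computable.const 0) (Computable.const 1)
    exact Computable.list_concat.comp (Computable.snd.comp Computable.snd) h2
  have hlim : ∀ σ : List ℕ, ∃ s0, ∀ s ≥ s0, (E (σ, s) = true ↔ ∀ s, Xt T σ s) := by
    intro σ
    by_cases h : ∀ s, Xt T σ s
    · exact ⟨0, fun s _ => by simp [E, h]⟩
    · push Not at h
      obtain ⟨s0, h0⟩ := h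
      refine ⟨s0, fun s hs => ?_⟩
      have h1 : ¬ Xt T σ s := fun h => h0 (hanti σ s0 s hs h)
      have h2 : ¬ ∀ s, Xt T σ s := fun h => h0 (h s0)
      simp [E, h1, h2]
  obtain ⟨A, hA0, hA, G, hG, hGA⟩ := limrec hF [] (by
    intro e σ
    obtain ⟨s0, h0⟩ := hlim (σ ++ [0])
    by_cases h : ∀ s, Xt T (σ ++ [0]) s
    · refine ⟨σ ++ [0], s0, fun s hs => ?_⟩
      simp only [F, (h0 s hs).2 h, cond_true]
    · refine ⟨σ ++ [1], s0, fun s hs => ?_⟩
      have : E (σ ++ [0], s) = false := by
        rw [← Bool.not_eq_true]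
        exact fun h' => h ((h0 s hs).1 h')
      simp only [F, this, cond_false])
  -- one of the two successors can be extended
  have hinv : ∀ e, (A e).length = e ∧ ∀ s, Xt T (A e) s := by
    intro e
    induction e with
    | zero =>
      rw [hA0]
      refine ⟨rfl, fun s => ?_⟩
      obtain ⟨f, hf⟩ := hne
      have h1 : ∀ n ∈ (List.range s).map f, n < 2 := by
        intro n hn
        rw [List.mem_map] at hn
        obtain ⟨i, -, rfl⟩ := hn
        exact hbin f hf i
      obtain ⟨c, hc, hc'⟩ := bits_surj _ h1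
      have h2 : ((List.range s).map f).length = s := by simp
      rw [h2] at hc hc'
      refine ⟨c, hc, ?_⟩
      rw [hc', List.nil_append]
      exact hf s
    | succ e ih =>
      obtain ⟨s1, h1⟩ := hA e
      obtain ⟨s0, h0⟩ := hlim (A e ++ [0])
      have h2 := h1 (max s0 s1) (le_max_right _ _)
      have h3 := h0 (max s0 s1) (le_max_left _ _)
      by_cases h : ∀ s, Xt T (A e ++ [0]) s
      · simp only [F, h3.2 h, cond_true] at h2
        rw [← h2]
        exact ⟨by simp [ih.1], h⟩
      · have h4 : E (A e ++ [0], max s0 s1) = false := by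
          rw [← Bool.not_eq_true]
          exact fun h' => h (h3.1 h')
        simp only [F, h4, cond_false] at h2
        rw [← h2]
        refine ⟨by simp [ih.1], fun s => ?_⟩
        push Not at h
        obtain ⟨s2, h5⟩ := h
        -- an extension by `max s s2 + 1` digits
        obtain ⟨c, -, hc⟩ := ih.2 (max s s2 + 1)
        have hb : bits (max s s2 + 1) c =
            (c % 2) :: bits (max s s2) (c / 2) := by
          rw [bits, List.range_succ_eq_map, List.map_cons, List.map_map]
          congr 1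
          · change c / 1 % 2 = c % 2
            rw [Nat.div_one]
          · rw [bits]
            refine List.map_congr_left fun i _ => ?_
            simp only [Function.comp]
            rw [pw_succ, ← Nat.div_div_eq_div_mul]
        have h6 : Xt T (A e ++ [c % 2]) (max s s2) := by
          have h7 : ∀ n ∈ bits (max s s2) (c / 2), n < 2 := by
            intro n hn
            simp only [bits, List.mem_map, List.mem_range] at hn
            obtain ⟨i, -, rfl⟩ := hn
            exact Nat.mod_lt _ (by omega)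
          obtain ⟨c', hc', hc''⟩ := bits_surj _ h7
          have h8 : (bits (max s s2) (c / 2)).length = max s s2 := by simp [bits]
          rw [h8] at hc' hc''
          refine ⟨c', hc', ?_⟩
          rw [hc'', List.append_assoc, List.singleton_append, ← hb]
          exact hc
        rcases Nat.mod_two_eq_zero_or_one c with h9 | h9
        · rw [h9] at h6
          exact absurd (hanti _ _ _ (le_max_right _ _) h6) h5
        · rw [h9] at h6
          exact hanti _ _ _ (le_max_left _ _) h6
  have hpre : ∀ e, A e <+: A (e + 1) := by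
    intro e
    obtain ⟨s1, h1⟩ := hA e
    rw [← h1 s1 le_rfl]
    exact List.prefix_append _ _
  have hc := chain_pre hpre fun e => (hinv e).1.ge
  refine ⟨_, ?_, limComp_chain hG hGA⟩
  intro k
  have h1 : (List.range k).map (fun n => (A (n + 1)).getD n 0) = A k := by
    have := hc k
    rw [(hinv k).1] at this
    exact this
  rw [h1]
  obtain ⟨c, -, hc'⟩ := (hinv k).2 0
  simpa [bits] using hc'

/-! ### The generic functions -/

/-- The value for the parameter `k`. -/
def ev (k x : ℕ) : ℕ := if x % 2 = 0 then x / 2 else Nat.pair k (x / 2)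

theorem ev_prim : Primrec₂ ev := by
  have h2 : Primrec (fun x : ℕ × ℕ => x.2 / 2) :=
    Primrec.nat_div.comp Primrec.snd (Primrec.const 2)
  have h1 : PrimrecPred (fun x : ℕ × ℕ => x.2 % 2 = 0) :=
    PrimrecRel.comp Primrec.eq (Primrec.nat_mod.comp Primrec.snd (Primrec.const 2))
      (Primrec.const 0)
  exact Primrec.ite h1 h2 (Primrec₂.natPair.comp Primrec.fst h2)

theorem ev_even (k v : ℕ) : ev k (2 * v) = v := by
  have h1 : 2 * v % 2 = 0 := by omega
  have h2 : 2 * v / 2 = v := by omega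
  rw [ev, if_pos h1, h2]

theorem ev_odd (k v : ℕ) : ev k (2 * v + 1) = Nat.pair k v := by
  have h1 : ¬ (2 * v + 1) % 2 = 0 := by omega
  have h2 : (2 * v + 1) / 2 = v := by omega
  rw [ev, if_neg h1, h2]

/-- The next string, without the coding entry. -/
def nx (s i k : ℕ) (σ : List ℕ) : List ℕ :=
  σ ++ ((GEN.nxt s i (σ.map (ev k))).drop σ.length).map (2 * ·)

theorem nx_comp : Primrec (fun x : (ℕ × ℕ × ℕ) × List ℕ => nx x.1.1 x.1.2.1 x.1.2.2 x.2) := by
  have h1 : Primrec (fun x : (ℕ × ℕ × ℕ) × List ℕ => x.2.map (ev x.1.2.2)) := by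
    refine Primrec.list_map (f := fun x : (ℕ × ℕ × ℕ) × List ℕ => x.2)
      (g := fun (x : (ℕ × ℕ × ℕ) × List ℕ) (v : ℕ) => ev x.1.2.2 v) Primrec.snd ?_
    exact ev_prim.comp (Primrec.snd.comp (Primrec.snd.comp (Primrec.fst.comp Primrec.fst)))
      Primrec.snd
  have h2 : Primrec (fun x : (ℕ × ℕ × ℕ) × List ℕ =>
      GEN.nxt x.1.1 x.1.2.1 (x.2.map (ev x.1.2.2))) := by
    have := GEN.nxt_prim.comp (Primrec.pair (Primrec.pair
      (Primrec.fst.comp (Primrec.fst (α := ℕ × ℕ × ℕ) (β := List ℕ)))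
      (Primrec.fst.comp (Primrec.snd.comp (Primrec.fst (α := ℕ × ℕ × ℕ) (β := List ℕ))))) h1)
    exact this
  have h3 : Primrec (fun x : (ℕ × ℕ × ℕ) × List ℕ =>
      ((GEN.nxt x.1.1 x.1.2.1 (x.2.map (ev x.1.2.2))).drop x.2.length)) :=
    Primrec.list_drop.comp (Primrec.list_length.comp Primrec.snd) h2
  have h4 : Primrec (fun x : (ℕ × ℕ × ℕ) × List ℕ =>
      ((GEN.nxt x.1.1 x.1.2.1 (x.2.map (ev x.1.2.2))).drop x.2.length).map (2 * ·)) :=
    Primrec.list_map (g := fun (_ : (ℕ × ℕ × ℕ) × List ℕ) (v : ℕ) => 2 * v) h3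
      (Primrec.nat_mul.comp (Primrec.const 2) Primrec.snd)
  exact Primrec.list_append.comp Primrec.snd h4

theorem nx_map {s i k : ℕ} {σ τ : List ℕ} (h : GEN.nxt s i (σ.map (ev k)) = τ) :
    (nx s i k σ).map (ev k) = τ := by
  have h1 : σ.map (ev k) <+: τ := h ▸ GEN.nxt_prefix _ _ _
  obtain ⟨ρ, hρ⟩ := h1
  unfold nx
  rw [h, List.map_append, List.map_map]
  have h2 : (ev k ∘ fun x => 2 * x) = id := by
    funext x
    exact ev_even k x
  rw [h2, List.map_id, ← hρ]
  congr 1
  have h3 : σ.length = (σ.map (ev k)).length := by simp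
  rw [h3]
  exact List.drop_left

end AE.Split

open AE.Split in
/-- Module SPLIT. -/
theorem AE.split : SplitStatement := by
  intro B hne hB hbin
  obtain ⟨b, hbB, gb, hgb, hgb'⟩ := exists_limComp_mem hne hB hbin
  -- the construction
  let F : ℕ → ℕ × List ℕ → List ℕ := fun s x =>
    nx s x.1.unpair.1 x.1.unpair.2 x.2 ++ [2 * Nat.pair x.1 (gb s x.1) + 1]
  have hF : Computable₂ F := by
    have h1 : Primrec (fun x : ℕ × (ℕ × List ℕ) =>
        nx x.1 x.2.1.unpair.1 x.2.1.unpair.2 x.2.2) := by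
      have hu : Primrec (fun x : ℕ × (ℕ × List ℕ) => x.2.1.unpair) :=
        Primrec.unpair.comp (Primrec.fst.comp Primrec.snd)
      exact nx_comp.comp (Primrec.pair (Primrec.pair Primrec.fst (Primrec.pair
        (Primrec.fst.comp hu) (Primrec.snd.comp hu))) (Primrec.snd.comp Primrec.snd))
    have h2 : Computable (fun x : ℕ × (ℕ × List ℕ) => 2 * Nat.pair x.2.1 (gb x.1 x.2.1) + 1) := by
      have h3 : Computable (fun x : ℕ × (ℕ × List ℕ) => gb x.1 x.2.1) :=
        hgb.comp Computable.fst (Computable.fst.comp Computable.snd)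
      have h4 : Computable (fun x : ℕ × (ℕ × List ℕ) => Nat.pair x.2.1 (gb x.1 x.2.1)) :=
        Primrec₂.natPair.to_comp.comp (Computable.fst.comp Computable.snd) h3
      exact Computable.succ.comp ((Primrec.nat_mul.to_comp).comp (Computable.const 2) h4)
    exact Computable.list_concat.comp h1.to_comp h2
  have hstep : ∀ (e : ℕ) (σ : List ℕ), ∃ τ σ' : List ℕ, (∃ s0, ∀ s ≥ s0,
      nx s e.unpair.1 e.unpair.2 σ = σ') ∧ σ <+: σ' ∧ σ'.map (ev e.unpair.2) = τ ∧
      (∀ x ∈ σ', x ∈ σ ∨ x % 2 = 0) ∧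
      ((∃ t, (evaln t (GEN.cod e.unpair.1) (Encodable.encode τ)).isSome = true) ∨
      (τ = σ.map (ev e.unpair.2) ∧ ∀ ρ, σ.map (ev e.unpair.2) <+: ρ → ∀ t,
        (evaln t (GEN.cod e.unpair.1) (Encodable.encode ρ)).isSome = false)) := by
    intro e σ
    obtain ⟨τ, ⟨s0, h0⟩, h1⟩ := GEN.nxt_lim e.unpair.1 (σ.map (ev e.unpair.2))
    refine ⟨τ, nx s0 e.unpair.1 e.unpair.2 σ, ⟨s0, fun s hs => ?_⟩, ?_, nx_map (h0 s0 le_rfl),
      ?_, h1⟩
    · unfold nx
      rw [h0 s hs, h0 s0 le_rfl]
    · unfold nx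
      exact List.prefix_append _ _
    · intro x hx
      unfold nx at hx
      rw [List.mem_append] at hx
      rcases hx with hx | hx
      · exact Or.inl hx
      · right
        rw [List.mem_map] at hx
        obtain ⟨y, -, rfl⟩ := hx
        omega
  obtain ⟨A, hA0, hA, G, hG, hGA⟩ := limrec hF [] (by
    intro e σ
    obtain ⟨τ, σ', ⟨s0, h0⟩, -⟩ := hstep e σ
    obtain ⟨s1, h1⟩ := hgb' e
    refine ⟨σ' ++ [2 * Nat.pair e (b e) + 1], max s0 s1, fun s hs => ?_⟩
    simp only [F]
    rw [h0 s (le_trans (le_max_left _ _) hs), h1 s (le_trans (le_max_right _ _) hs)])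
  have hsucc : ∀ e : ℕ, ∃ τ σ' : List ℕ, A (e + 1) = σ' ++ [2 * Nat.pair e (b e) + 1] ∧
      A e <+: σ' ∧ σ'.map (ev e.unpair.2) = τ ∧ (∀ x ∈ σ', x ∈ A e ∨ x % 2 = 0) ∧
      ((∃ t, (evaln t (GEN.cod e.unpair.1) (Encodable.encode τ)).isSome = true) ∨
      (τ = (A e).map (ev e.unpair.2) ∧ ∀ ρ, (A e).map (ev e.unpair.2) <+: ρ → ∀ t,
        (evaln t (GEN.cod e.unpair.1) (Encodable.encode ρ)).isSome = false)) := by
    intro e
    obtain ⟨τ, σ', ⟨s0, h0⟩, h2, h3, h4, h5⟩ := hstep e (A e)
    obtain ⟨s1, h1⟩ := hgb' e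
    obtain ⟨s2, h6⟩ := hA e
    refine ⟨τ, σ', ?_, h2, h3, h4, h5⟩
    have h7 := h6 (max s2 (max s0 s1)) (le_max_left _ _)
    simp only [F] at h7
    rw [h0 _ (le_trans (le_max_left _ _) (le_max_right _ _)),
      h1 _ (le_trans (le_max_right _ _) (le_max_right _ _))] at h7
    exact h7.symm
  have hpre : ∀ e, A e <+: A (e + 1) := by
    intro e
    obtain ⟨τ, σ', h1, h2, -⟩ := hsucc e
    rw [h1]
    exact h2.trans (List.prefix_append _ _)
  have hlen : ∀ e, e ≤ (A e).length := by
    intro e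
    induction e with
    | zero => exact Nat.zero_le _
    | succ e ih =>
      obtain ⟨τ, σ', h1, h2, -⟩ := hsucc e
      rw [h1, List.length_append, List.length_singleton]
      have := h2.length_le
      omega
  set g : ℕ → ℕ := fun n => (A (n + 1)).getD n 0 with hg
  have hgpre := chain_pre hpre hlen
  obtain ⟨ga, hga, hga'⟩ := limComp_chain hG hGA
  -- the odd entries
  have hodd : ∀ e, ∀ x ∈ A e, x % 2 = 1 → ∃ e', x = 2 * Nat.pair e' (b e') + 1 := by
    intro e
    induction e with
    | zero =>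
      intro x hx
      rw [hA0] at hx
      simp at hx
    | succ e ih =>
      intro x hx hx'
      obtain ⟨τ, σ', h1, h2, -, h4, -⟩ := hsucc e
      rw [h1, List.mem_append, List.mem_singleton] at hx
      rcases hx with hx | hx
      · rcases h4 x hx with h5 | h5
        · exact ih x h5 hx'
        · omega
      · exact ⟨e, hx⟩
  have hgodd : ∀ n, g n % 2 = 1 → ∃ e', g n = 2 * Nat.pair e' (b e') + 1 := by
    intro n hn
    refine hodd (n + 1) (g n) ?_ hn
    have h1 : n < (A (n + 1)).length := hlen (n + 1)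
    simp only [hg]
    rw [List.getD_eq_getElem _ _ h1]
    exact List.getElem_mem h1
  have hgex : ∀ e, ∃ n, g n = 2 * Nat.pair e (b e) + 1 := by
    intro e
    obtain ⟨τ, σ', h1, h2, -⟩ := hsucc e
    refine ⟨σ'.length, ?_⟩
    have h3 := hgpre (e + 1)
    rw [h1] at h3
    have h4 := congrArg (fun l => l[σ'.length]?) h3
    simp only [MP_8c048d_lc.pre_getElem?] at h4
    rw [if_pos (by simp)] at h4
    rw [List.getElem?_append_right (le_refl _), Nat.sub_self] at h4
    exact Option.some.inj h4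
  refine ⟨fun k n => ev k (g n), fun k => ⟨?_, ?_⟩, ?_⟩
  · -- genericity
    intro W hW
    have h1 : Nat.Partrec (fun n => Part.bind (Encodable.decode (α := List ℕ) n)
      fun a => (Part.assert (W a) fun _ => Part.some ()).map Encodable.encode) := hW
    obtain ⟨c, hc⟩ := Nat.Partrec.Code.exists_code.1 h1
    have hdom : ∀ τ, W τ ↔ ∃ t, (evaln t c (Encodable.encode τ)).isSome = true := by
      intro τ
      have h2 : eval c (Encodable.encode τ) =
          (Part.assert (W τ) fun _ => Part.some ()).map Encodable.encode := by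
        rw [hc]
        simp
      constructor
      · intro h
        have h3 : Encodable.encode () ∈ eval c (Encodable.encode τ) := by
          rw [h2, Part.assert_pos h]
          simp
        obtain ⟨t, ht⟩ := evaln_complete.1 h3
        exact ⟨t, Option.isSome_iff_exists.2 ⟨_, ht⟩⟩
      · rintro ⟨t, ht⟩
        obtain ⟨x, hx⟩ := Option.isSome_iff_exists.1 ht
        have h3 : x ∈ eval c (Encodable.encode τ) := evaln_sound hx
        rw [h2] at h3
        by_contra h4
        rw [Part.assert_neg h4] at h3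
        simp at h3
    have hcod : GEN.cod (Encodable.encode c) = c := by
      unfold GEN.cod
      rw [Encodable.encodek]
      rfl
    obtain ⟨τ, σ', h2, h3, h4, -, h5⟩ := hsucc (Nat.pair (Encodable.encode c) k)
    simp only [Nat.unpair_pair, hcod] at h4 h5
    have h6 : pre g σ'.length = σ' := by
      have h6 := hgpre (Nat.pair (Encodable.encode c) k + 1)
      rw [h2] at h6
      have h7 := congrArg (List.take σ'.length) h6
      rw [MP_8c048d_lc.pre_take, List.length_append, min_eq_left (by omega),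
        List.take_left' rfl] at h7
      exact h7
    have h7 : pre (fun n => ev k (g n)) σ'.length = τ := by
      have h8 : pre (fun n => ev k (g n)) σ'.length = (pre g σ'.length).map (ev k) := by
        simp only [MP_8c048d_lc.pre, List.map_map]
        rfl
      rw [h8, h6, h4]
    refine ⟨σ'.length, ?_⟩
    rw [h7]
    rcases h5 with h5 | ⟨h5, h8⟩
    · exact Or.inl ((hdom τ).2 h5)
    · right
      intro ρ hρ hW'
      obtain ⟨t, ht⟩ := (hdom ρ).1 hW'
      rw [h5] at hρ
      rw [h8 ρ hρ t] at ht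
      exact absurd ht (by simp)
  · -- limit computability
    refine ⟨fun s n => ev k (ga s n), ?_, fun n => ?_⟩
    · exact ev_prim.to_comp.comp (Computable.const k) hga
    · obtain ⟨s0, h0⟩ := hga' n
      exact ⟨s0, fun s hs => congrArg (ev k) (h0 s hs)⟩
  · -- two of them compute `b`
    intro k l hkl
    refine ⟨b, hbB, ?_⟩
    set J : ℕ → ℕ := join (fun n => ev k (g n)) (fun n => ev l (g n)) with hJ
    have hJe : ∀ m, J (2 * m) = ev k (g m) := fun m => MP_8c048d_lc.join_even _ _ m
    have hJo : ∀ m, J (2 * m + 1) = ev l (g m) := fun m => MP_8c048d_lc.join_odd _ _ m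
    have c2 : Computable (fun p : ℕ × ℕ => 2 * p.2) :=
      (Primrec.nat_mul.comp (Primrec.const 2) Primrec.snd).to_comp
    have hcop : Cop (fun (p : ℕ × ℕ) F => ¬ F (2 * p.2) = F (2 * p.2 + 1) ∧
        (F (2 * p.2)).unpair.2.unpair.1 = p.1) := by
      have hEq : ComputablePred (fun p : ℕ × ℕ => p.1 = p.2) :=
        PrimrecPred.computablePred (PrimrecRel.comp Primrec.eq Primrec.fst Primrec.snd)
      have h1 : Cop (fun (p : ℕ × ℕ) F => F (2 * p.2) = F (2 * p.2 + 1)) :=
        Cop.of_recF (φ := fun (p : ℕ × ℕ) (F : ℕ → ℕ) => (F (2 * p.2), F (2 * p.2 + 1)))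
          ((RecF.at c2).pair (RecF.at (Computable.succ.comp c2))) hEq
      have h2 : RecF (fun (p : ℕ × ℕ) (F : ℕ → ℕ) => (F (2 * p.2)).unpair.2.unpair.1) :=
        (RecF.at c2).comp (g := fun n : ℕ => n.unpair.2.unpair.1)
          (Primrec.fst.comp (Primrec.unpair.comp (Primrec.snd.comp Primrec.unpair))).to_comp
      have h3 : Cop (fun (p : ℕ × ℕ) F => (F (2 * p.2)).unpair.2.unpair.1 = p.1) :=
        Cop.of_recF (φ := fun (p : ℕ × ℕ) (F : ℕ → ℕ) => ((F (2 * p.2)).unpair.2.unpair.1, p.1))
          (h2.pair (RecF.of_computable Computable.fst)) hEq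
      exact h1.not.and h3
    obtain ⟨f, hf, hf'⟩ := redMu (fun j m F => ¬ F (2 * m) = F (2 * m + 1) ∧
      (F (2 * m)).unpair.2.unpair.1 = j) hcop J (by
        intro e
        obtain ⟨n, hn⟩ := hgex e
        refine ⟨n, ?_, ?_⟩
        · rw [hJe, hJo, hn, ev_odd, ev_odd]
          intro h
          exact hkl (Nat.pair_eq_pair.1 h).1
        · rw [hJe, hn, ev_odd]
          simp)
    have hval : ∀ j, (J (2 * f j)).unpair.2.unpair.2 = b j := by
      intro j
      obtain ⟨h1, h2⟩ := hf' j
      rw [hJe, hJo] at h1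
      have h3 : g (f j) % 2 = 1 := by
        by_contra h3
        have h4 : g (f j) % 2 = 0 := by omega
        apply h1
        simp only [ev, if_pos h4]
      obtain ⟨e, he⟩ := hgodd _ h3
      rw [hJe, he, ev_odd] at h2
      simp only [Nat.unpair_pair] at h2
      rw [hJe, he, ev_odd]
      simp only [Nat.unpair_pair]
      rw [h2]
    have hrec : RecF (fun (j : ℕ) (H : ℕ → ℕ) => (H (2 * (2 * H (2 * j)) + 1)).unpair.2.unpair.2) := by
      have h1 : RecF (fun (j : ℕ) (H : ℕ → ℕ) => H (2 * j)) :=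
        RecF.at (Primrec.nat_mul.comp (Primrec.const 2) Primrec.id).to_comp
      have h2 : RecF (fun (j : ℕ) (H : ℕ → ℕ) => 2 * (2 * H (2 * j)) + 1) :=
        h1.comp (g := fun n : ℕ => 2 * (2 * n) + 1) (Primrec.succ.comp (Primrec.nat_mul.comp
          (Primrec.const 2) (Primrec.nat_mul.comp (Primrec.const 2) Primrec.id))).to_comp
      have h3 : RecF (fun (j : ℕ) (H : ℕ → ℕ) => H (2 * (2 * H (2 * j)) + 1)) := h2.app
      exact h3.comp (g := fun n : ℕ => n.unpair.2.unpair.2)
        (Primrec.snd.comp (Primrec.unpair.comp (Primrec.snd.comp Primrec.unpair))).to_comp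
    have hfin := red1_join hrec hf (Red.rfl (f := J))
    refine (iff_of_eq (congrArg (fun q => Red q J) ?_)).1 hfin
    funext j
    rw [MP_8c048d_lc.join_even, MP_8c048d_lc.join_odd]
    exact hval j

end Pool.Agent.Lib.MP_d48993_lc
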