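import Pool.Agent.Lib.MP_d48993_lc.AE.Defs
import Pool.Agent.Lib.MP_d48993_lc.Interfaces
import Pool.Agent.Lib.MP_d48993_lc.H84.Interval

/-!
# Project AE (MP_d48993): the statements of the modules of wave 1

Modules may import each other's finished files; every module proves its statement as
`theorem xxx : XxxStatement` (or from the statements it depends on).
-/

set_option autoImplicit false

namespace Pool.Agent.Lib.MP_d48993_lc

open MP_8c048d_lc (pre join RecF Sig Clo Cop Del Pih)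

/-! ## Formulas -/

/-- Truth of a formula, from the order relation of the variables. -/
def QF.Ev (r : ℕ → ℕ → Prop) : QF → Prop
  | QF.le i j => r i j
  | QF.eq i j => r i j ∧ r j i
  | QF.neg φ => ¬ φ.Ev r
  | QF.and φ ψ => φ.Ev r ∧ ψ.Ev r

/-- A bound for the variables of a formula. -/
def QF.bd : QF → ℕ
  | QF.le i j => max i j + 1
  | QF.eq i j => max i j + 1
  | QF.neg φ => φ.bd
  | QF.and φ ψ => max φ.bd ψ.bd

/-- Module SYN. -/
def SynStatement : Prop :=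
  (∀ φ ψ : QF, φ.code = ψ.code → φ = ψ) ∧ (∀ c : ℕ, ∃ φ : QF, φ.code = c) ∧
  (∀ (D : Type) [PartialOrder D] (v : ℕ → D) (φ : QF),
    φ.Holds v ↔ φ.Ev (fun i j => v i ≤ v j)) ∧
  (∀ (r r' : ℕ → ℕ → Prop) (φ : QF), (∀ i < φ.bd, ∀ j < φ.bd, (r i j ↔ r' i j)) →
    (φ.Ev r ↔ φ.Ev r')) ∧
  (∃ b : ℕ → ℕ, Computable b ∧ ∀ φ : QF, b φ.code = φ.bd) ∧
  -- truth, from the finite table `l` of the pairs in the relation
  ∃ f : List ℕ × ℕ → Bool, Computable f ∧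
    ∀ (l : List ℕ) (φ : QF), f (l, φ.code) = true ↔ φ.Ev (fun i j => Nat.pair i j ∈ l)

/-! ## Types and patterns -/

/-- A type: the list of the regions (bit masks: bit `i` says that the universal variable `i`
belongs to the region), and the list of the blocked pairs of positions. -/
abbrev Typ : Type := List ℕ × List (ℕ × ℕ)

/-- The variable `i` belongs to the region at position `k`. -/
def Typ.In (τ : Typ) (k i : ℕ) : Prop := (τ.1.getD k 0).testBit i = true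

/-- A set `s` (given on every region, which has the points `a < N`) respects the blocked pairs. -/
def Allowed (τ : Typ) (N : ℕ) (s : ℕ → ℕ → Prop) : Prop :=
  ∀ p ∈ τ.2, (∃ a < N, s p.1 a) → ∀ a < N, s p.2 a

/-- The order of the patterns: reverse inclusion. -/
def PLe (τ : Typ) (N : ℕ) (s s' : ℕ → ℕ → Prop) : Prop :=
  ∀ k < τ.1.length, ∀ a < N, s' k a → s k a

/-- Some pattern over `τ` satisfies `φ`. -/
def Sat (τ : Typ) (n : ℕ) (φ : QF) : Prop :=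
  ∃ N : ℕ, 0 < N ∧ ∃ v : ℕ → ℕ → ℕ → Prop, (∀ j, Allowed τ N (v j)) ∧
    (∀ i < n, ∀ k < τ.1.length, ∀ a < N, (v i k a ↔ τ.In k i)) ∧
    φ.Ev (fun i j => PLe τ N (v i) (v j))

/-- Module FIN: the finite model property. -/
def FinStatement : Prop :=
  ∀ (τ : Typ) (n : ℕ) (φ : QF) (Ω : ℕ → Type) (v : ℕ → (k : ℕ) → Ω k → Prop),
    (∀ p ∈ τ.2, p.1 < τ.1.length ∧ p.2 < τ.1.length) → (∀ k, Nonempty (Ω k)) →
    (∀ j, ∀ p ∈ τ.2, (∃ a, v j p.1 a) → ∀ a, v j p.2 a) →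
    (∀ i < n, ∀ k < τ.1.length, ∀ a, (v i k a ↔ τ.In k i)) →
    φ.Ev (fun i j => ∀ k < τ.1.length, ∀ a, v j k a → v i k a) →
    -- with an explicit bound for the number of points
    ∃ N : ℕ, 0 < N ∧ N ≤ max n φ.bd * max n φ.bd * τ.1.length + 1 ∧
      ∃ w : ℕ → ℕ → ℕ → Prop, (∀ j, Allowed τ N (w j)) ∧
      (∀ i < n, ∀ k < τ.1.length, ∀ a < N, (w i k a ↔ τ.In k i)) ∧
      φ.Ev (fun i j => PLe τ N (w i) (w j))

/-- Module DEC (from SYN, FIN): satisfiability is decidable, uniformly. -/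
def DecStatement : Prop :=
  ∃ f : (Typ × ℕ) × ℕ → Bool, Computable f ∧
    ∀ (τ : Typ) (n : ℕ) (φ : QF), (∀ p ∈ τ.2, p.1 < τ.1.length ∧ p.2 < τ.1.length) →
      (f ((τ, n), φ.code) = true ↔ Sat τ n φ)

/-! ## Frames -/

/-- A partial order of upward closed sets of reals: the sets `Up S ∪ Up B`, `S` closed. -/
structure IsFrame (D : Type) [PartialOrder D] (B : Set (ℕ → ℕ)) (up : D → Set (ℕ → ℕ)) :
    Prop where
  closed : ClosedC B
  le : ∀ a b, a ≤ b ↔ up b ⊆ up a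
  rep : ∀ a, ∃ S, ClosedC S ∧ up a = Up S ∪ Up B
  real : ∀ S, ClosedC S → (S ∪ B).Nonempty → ∃ a, up a = Up S ∪ Up B

/-- Module TOP: a universal class of Cantor space (`f m < 2`, `f m ≠ φ_m(m)`). -/
def TopStatement : Prop :=
  ∃ B : Set (ℕ → ℕ), B.Nonempty ∧ ClosedC B ∧ Bin B ∧
    ∀ P : Set (ℕ → ℕ), P.Nonempty → ClosedC P → Bin P → Up B ⊆ Up P

/-- Module FRAME (from TOP, CLS, EMB, B0): both lattices are frames. -/
def FrameStatement : Prop :=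
  (∃ B up, IsFrame PwCantor B up ∧ B.Nonempty ∧ Bin B ∧ (∀ G, IsGeneric G → G ∉ Up B) ∧
    (fun _ : ℕ => 0) ∉ Up B) ∧
  ∃ up, IsFrame PwBaire ∅ up

/-! ## Soundness -/

/-- Module IND (from H84.exists_seq): finitely many independent classes between `A` and `B`. -/
def IndStatement : Prop :=
  ∀ (A B : Set (ℕ → ℕ)), ClosedC A → ClosedC B → (∃ X ∈ Up A, X ∉ Up B) → ∀ N : ℕ,
    ∃ (u : ℕ → Set (ℕ → ℕ)) (W : ℕ → ℕ → ℕ), (∀ a, ClosedC (u a) ∧ Up (u a) ⊆ Up A) ∧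
      ∀ a < N, W a ∈ Up (u a) ∧ W a ∉ Up B ∧ ∀ b < N, b ≠ a → W a ∉ Up (u b)

/-- Module BOT (from HIDE2 with a parameter; existence of paths is not `Π¹₁`): a class `h` with a
member outside `Up U`, which no column of some `F` with `Q F` computes. -/
def BotStatement : Prop :=
  ∀ (U : Set (ℕ → ℕ)) (Q : (ℕ → ℕ) → Prop), ClosedC U → (fun _ : ℕ => 0) ∉ Up U →
    Sig (fun (_ : Unit) F => Q F) → (∃ F, Q F) →
    ∃ h : Set (ℕ → ℕ), ClosedC h ∧ (∃ Z ∈ h, Z ∉ Up U) ∧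
      ∃ F, Q F ∧ ∀ k : ℕ, (fun i => F (Nat.pair k i)) ∉ Up h

/-- Module SOUND (from IND, BOT, OPS, FRAME facts): over arbitrary parameters `x`, all patterns on
a separating family of regions are realised. `W k` is a real of region `k`; position `k0` is the
region of the computable reals. -/
def SoundStatement : Prop :=
  ∀ (D : Type) [PartialOrder D] (B : Set (ℕ → ℕ)) (up : D → Set (ℕ → ℕ)), IsFrame D B up →
    (fun _ : ℕ => 0) ∉ Up B →
    ∀ (n : ℕ) (x : ℕ → D) (τ : Typ) (W : ℕ → ℕ → ℕ) (k0 : ℕ), k0 < τ.1.length →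
    (∀ k < τ.1.length, W k ∉ Up B ∧ ∀ i < n, (W k ∈ up (x i) ↔ τ.In k i)) →
    (∀ i < n, ((fun _ : ℕ => 0) ∈ up (x i) ↔ τ.In k0 i)) →
    (∀ k < τ.1.length, ∀ l < τ.1.length, k ≠ l → ∃ i < n, ¬ (τ.In k i ↔ τ.In l i)) →
    (∀ i < n, ∀ j < n, (∀ k < τ.1.length, τ.In k j → τ.In k i) → x i ≤ x j) →
    (∀ k < τ.1.length, ∀ l < τ.1.length, k ≠ k0 → k ≠ l → (∀ i < n, τ.In k i → τ.In l i) →
      (k, l) ∈ τ.2) →
    ∀ (N : ℕ), 0 < N → ∀ v : ℕ → ℕ → ℕ → Prop, (∀ j, Allowed τ N (v j)) →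
    (∀ i < n, ∀ k < τ.1.length, ∀ a < N, (v i k a ↔ τ.In k i)) →
    ∃ w : ℕ → D, (∀ i < n, w i = x i) ∧ ∀ j l, (w j ≤ w l ↔ PLe τ N (v j) (v l))

/-! ## The node theorem, relative to a real `V` -/

/-- `Y` computes a monotone map from `T` to `E` that does not decrease lengths. -/
def HMapE (Y : ℕ → ℕ) (E T : List ℕ → Prop) : Prop :=
  ∃ H : List ℕ → List ℕ,
    Red (fun n => Encodable.encode (H ((Encodable.decode (α := List ℕ) n).getD []))) Y ∧
    ∀ s, T s → E (H s) ∧ s.length ≤ (H s).length ∧ ∀ s', s' <+: s → H s' <+: H s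

/-- The finite part of `join V O` given by a finite part `ρ` of `O`. -/
def jnV (V : ℕ → ℕ) (ρ : List ℕ) : List ℕ := pre (join V (fun i => (ρ[i]?).getD 0)) (2 * ρ.length)

/-- The index `e` is computed by the generic paths of `E`, with the help of `V`. -/
def GenF (Φ : ℕ → List ℕ → List ℕ) (Tr : ℕ → List ℕ → Prop) (V : ℕ → ℕ) (E : List ℕ → Prop)
    (e : ℕ) : Prop :=
  ∃ i ρ, E ρ ∧ ∀ ρ', ρ <+: ρ' → E ρ' →
    Tr e (Φ i (jnV V ρ')) ∧ ∀ m : ℕ, ∃ ρ'', ρ' <+: ρ'' ∧ E ρ'' ∧ m ≤ (Φ i (jnV V ρ'')).length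

/-- Module NODE (wave 2). -/
def NodeStatement : Prop :=
  ∀ (Φ : ℕ → List ℕ → List ℕ) (Tr : ℕ → List ℕ → Prop), IsEnum Φ → IsTreeEnum Tr →
    ∀ (U : Set (ℕ → ℕ)) (V : ℕ → ℕ), ClosedC U → V ∉ Up U →
    ∃ (A : ℕ × List ℕ → (ℕ → ℕ) → Bool) (E : List ℕ → Prop), RecF A ∧
      (∀ σ, ∃ s0, ∀ s ≥ s0, (A (s, σ) V = true ↔ E σ)) ∧
      E [] ∧ PC E ∧ (∀ σ, E σ → ∃ n, E (σ ++ [n])) ∧
      (∀ e, GenF Φ Tr V E e → ∀ O : ℕ → ℕ, (∀ k, E (pre O k)) → HasPath (join V O) (Tr e)) ∧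
      (∃ O : ℕ → ℕ, (∀ k, E (pre O k)) ∧ join V O ∉ Up U) ∧
      ∃ X : ℕ → ℕ, Red V X ∧ (∀ O : ℕ → ℕ, (∀ k, E (pre O k)) → ¬ Red O X) ∧ X ∉ Up U ∧
        ∀ e, ¬ GenF Φ Tr V E e → HMapE X E (Tr e)

/-- Module NODEP (from NODE, PI2, THETA-like calculus, HIDE): over a limit computable real `V`
there are a class `D` (the node) and a class `A` (hidden) such that the reals computing a member
of `A`, but no member of `D`, are blocked from `D`. -/
def NodePStatement : Prop :=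
  ∀ (U : Set (ℕ → ℕ)) (V : ℕ → ℕ), ClosedC U → LimComp V → V ∉ Up U →
    ∃ D A : Set (ℕ → ℕ), ClosedC D ∧ ClosedC A ∧
      (∀ W ∈ Up D, Red V W) ∧ (∃ W ∈ Up D, W ∉ Up U) ∧
      (∀ W ∈ Up A, Red V W ∨ W ∈ Up U) ∧ (∃ W ∈ Up A, W ∉ Up D ∧ W ∉ Up U) ∧
      ∀ S : Set (ℕ → ℕ), ClosedC S → (∃ W ∈ Up A, W ∉ Up D ∧ W ∉ Up U ∧ W ∈ Up S) →
        Up D ⊆ Up S

/-- Module SPLIT (from GEN, B0 techniques): limit computable 1-generic reals, any two of which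
compute a member of `B`. -/
def SplitStatement : Prop :=
  ∀ B : Set (ℕ → ℕ), B.Nonempty → ClosedC B → Bin B →
    ∃ p : ℕ → ℕ → ℕ, (∀ k, IsGeneric (p k) ∧ LimComp (p k)) ∧
      ∀ k l, k ≠ l → join (p k) (p l) ∈ Up B

/-! ## The list of the types for at most three universal variables, Cantor space -/

/-- The type is made of the region `0` of the computable reals, and of branches: regions maximal
in the type, with at most one region (other than `0`) below each. All inclusions, except from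
position `0`, are blocked. -/
structure Branchy (n : ℕ) (τ : Typ) : Prop where
  pos : 0 < τ.1.length
  lt : ∀ m ∈ τ.1, m < 2 ^ n
  nodup : τ.1.Nodup
  least : ∀ k < τ.1.length, ∀ i < n, τ.In 0 i → τ.In k i
  bl : ∀ k l, (k, l) ∈ τ.2 ↔
    k < τ.1.length ∧ l < τ.1.length ∧ k ≠ 0 ∧ k ≠ l ∧ ∀ i < n, τ.In k i → τ.In l i
  up : ∀ k l l', (k, l) ∈ τ.2 → (k, l') ∈ τ.2 → l = l'
  down : ∀ k k' l, (k, l) ∈ τ.2 → (k', l) ∈ τ.2 → k = k'
  two : ∀ k l l', (k, l) ∈ τ.2 → (l, l') ∉ τ.2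

/-- Module COMB3: a family `I` of sets of variables which contains the least set contains a
branchy subfamily which separates the same pairs, when `n ≤ 3`. -/
def Comb3Statement : Prop :=
  ∀ n ≤ 3, ∀ (I : ℕ → Prop) (m0 : ℕ), I m0 → m0 < 2 ^ n → (∀ m, I m → m < 2 ^ n) →
    (∀ m, I m → ∀ i < n, m0.testBit i = true → m.testBit i = true) →
    ∃ τ : Typ, Branchy n τ ∧ τ.1.getD 0 0 = m0 ∧ (∀ m ∈ τ.1, I m) ∧
      ∀ i < n, ∀ j < n, (∀ k < τ.1.length, τ.In k j → τ.In k i) →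
        ∀ m, I m → m.testBit j = true → m.testBit i = true

/-- Module EXT3 (from NODEP, SPLIT, OPS, PI2, FRAME): extreme embeddings, Cantor space. -/
def Ext3Statement : Prop :=
  ∀ (D : Type) [PartialOrder D] (B : Set (ℕ → ℕ)) (up : D → Set (ℕ → ℕ)), IsFrame D B up →
    B.Nonempty → Bin B → (∀ G, IsGeneric G → G ∉ Up B) →
    ∀ (n : ℕ) (τ : Typ), Branchy n τ → ∃ x : ℕ → D,
      (∀ W, W ∉ Up B → ∃ k < τ.1.length, ∀ i < n, (W ∈ up (x i) ↔ τ.In k i)) ∧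
      (∀ k < τ.1.length, ∃ W, W ∉ Up B ∧ ∀ i < n, (W ∈ up (x i) ↔ τ.In k i)) ∧
      ∀ p ∈ τ.2, ∀ (z : D) (W W' : ℕ → ℕ), W ∉ Up B → W' ∉ Up B →
        (∀ i < n, (W ∈ up (x i) ↔ τ.In p.1 i)) → (∀ i < n, (W' ∈ up (x i) ↔ τ.In p.2 i)) →
        W ∈ up z → W' ∈ up z

/-- Module MAINC3 (from all the modules above): for at most three universal variables the
sentences are decidable in `P_w(2^ω)`. -/
def MainC3Statement : Prop :=
  ∀ n ≤ 3, ∃ f : ℕ → Bool, Computable f ∧ ∀ φ : QF, f φ.code = true ↔ AETrue PwCantor n φ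

end Pool.Agent.Lib.MP_d48993_lc
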